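import Pool.Agent.Helper56.STL.Yym
import Pool.Agent.Helper10.BLD.St

/-! THE BUILDER, row [YYM]: (Y) for the class of corners over a homogeneous class with at least two weights one. -/

set_option autoImplicit false

namespace Pool.Agent.Helper10.BLD

open Finset Pool.Agent.Helper31.EC Pool.Agent.Helper84.MT Pool.Agent.Helper36.AM Pool.Agent.Helper13.AM

/-- the number of coordinates -/
theorem Spl.card {M d N : ℕ} {w : Fin (M + 1) → ℝ} (P : Spl w d N) : d + 1 + N = M + 1 := by
  have h1 : Function.Bijective (Sum.elim P.bI P.vI) := by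
    constructor
    · rintro (i | j) (i' | j') h
      · exact congrArg _ (P.sb.injective h)
      · exact absurd h (P.bv i j').ne
      · exact absurd h (P.bv i' j).ne'
      · exact congrArg _ (P.sv.injective h)
    · intro a
      rcases P.cov a with ⟨i, h⟩ | ⟨j, h⟩
      · exact ⟨Sum.inl i, h⟩
      · exact ⟨Sum.inr j, h⟩
  have h2 := Fintype.card_of_bijective h1
  simpa using h2

/-- **[YYM]** -/
theorem st_yym {M : ℕ} (h2 : ST_LBK) (h3 : ST_TN) (h7 : ST_VWT M) : ST_YYM M := by
  intro hst Cl g r w ρ TT hT d N r' P hd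
  have hc := P.card
  refine yy_of_ST (ρ := ρ) (hst (N + 1) (by omega)) fun S c hc => ?_
  have a := hc.ax0
  exact ⟨a.w1, a.wz, a.rho0, a.rho1, a.ln, a.bx, h3 _ _ _ _ _ _ _ _ a (h7 Cl g r w ρ TT hT d N r' P S c hc),
    h2 _ _ _ _ _ _ _ _ a⟩

end Pool.Agent.Helper10.BLD
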