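import Pool.Agent.Helper56.STL.Yyt
import Pool.Agent.Helper56.STL.Yys
import Pool.Agent.Helper10.BLD.St1

/-! THE BUILDER, row [YY1]: (Y) for the prolonged corners over a homogeneous class with one weight one. -/

set_option autoImplicit false

namespace Pool.Agent.Helper10.BLD

open Finset Pool.Agent.Helper31.EC Pool.Agent.Helper84.MT Pool.Agent.Helper36.AM Pool.Agent.Helper13.AM
open Pool.Agent.Helper5.DO Pool.Agent.Helper56.STL

/-- **[YY1]** for every family of classes which contain the systems with a curve type of low degree -/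
theorem st_yy1 {M : ℕ} {CC : ∀ (M : ℕ), ℕ → MCl M} (hd : DGR (M + 2))
    (hmem : ∀ (k : ℕ) (S : Sp) (g : ℕ) (s : MSys S (M + 2) (lin g) (Fin 2)), CvT (k + 1) s 0 →
      CC (M + 2) k S g 2 s) : ST_YY1 CC M := by
  intro g r Cl w ρ TT N r' P l K hX h0 hs
  have hN : N = M + 1 := by
    have := P.card
    omega
  subst hN
  have hK : K - 1 = K - 2 + 1 := by
    have := hX.hK
    omega
  refine yy_til h0 hX.st hd hs fun S g s h => hmem _ S g s ?_
  rwa [← hK]

end Pool.Agent.Helper10.BLD
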