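import Pool.Agent.Helper56.STL.Least
import Pool.Agent.Helper95.RIG.Ye

/-! (Y) IN TRANSPORT FORM: a structure `K` on an extension, carried by the curve, known to the base line and `V` up to
`ε`, which is a structure of the fibre point at every point of the same curve. It suffices for THEOREM R (no agreement,
no least structure). -/

set_option autoImplicit false

namespace Pool.Agent.Helper95.RIG

open Finset Filter Topology Pool.Agent.Helper69.RK Pool.Agent.Helper31.EC Pool.Agent.Helper56.STL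

noncomputable section

open Sp QS

namespace Cor

variable {S : Sp} {d N : ℕ} (c : Cor S d N) {z : Fin N} {rho : ℝ}

/-- (Y) up to `ε` in transport form -/
def FibT (V : S.L) (i : Fin c.r) (ε : ℝ) : Prop :=
  ∃ (T : Sp) (p : Pj T S) (K : T.L), p.map (c.b i) ≤ K ∧ K ≤ p.map (c.xi i) ∧ h K (p.map (V ⊔ c.b i)) ≤ ε ∧
    ∀ (U : Sp) (a : Pj U T) (π' : Pj U S),
      (∀ k w, (U.F k).μ w ≠ 0 → c.bV i k (p.π k (a.π k w)) = c.bV i k (π'.π k w)) →
      (∀ j, a.qs (p.qs (c.f i j)) = π'.qs (c.f i j)) → ALeaf (a.map K) (fun j => π'.qs (c.tR j))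

variable {c}

/-- curves agree if the base variable and the curve functions agree -/
theorem xi_agree (hc : c.Ax z rho) (i : Fin c.r) {W : Sp} (π π' : Pj W S)
    (h1 : ∀ k w, (W.F k).μ w ≠ 0 → c.bV i k (π.π k w) = c.bV i k (π'.π k w))
    (h2 : ∀ j, π.qs (c.f i j) = π'.qs (c.f i j)) : π.map (c.xi i) = π'.map (c.xi i) := by
  unfold Cor.xi Cor.b
  have e1 : π.map (io (c.bV i)) = π'.map (io (c.bV i)) := by
    rw [π.map_io, π'.map_io]
    exact io_congr_supp ((π.bdd_iff _).mpr (hc.bdd i)) ((π'.bdd_iff _).mpr (hc.bdd i)) h1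
  have e2 : (fun j => π.qs (c.f i j)) = fun j => π'.qs (c.f i j) := funext h2
  rw [π.map_sup, π'.map_sup, ← π.qs_vd, ← π'.qs_vd, e1, e2]

/-- THEOREM R from RIG (A) (on extensions) and (Y) in transport form up to every `ε` -/
theorem thmR_of_FibT (hS : ST_SLICE) (hc : c.Ax z rho)
    (hA : ∀ (T : Sp) (p : Pj T S) (V : T.L), p.map c.P ≤ V → ALeaf V (fun j => p.qs (c.R j)) → p.map (c.be 1) ≤ V)
    (i : Fin c.r) (hY : ∀ ε : ℝ, 0 < ε → c.FibT (c.P ⊔ c.be 1) i ε) : c.ThmR i := by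
  intro W π π' h1 h2
  rw [← h_le_zero_iff]
  refine le_of_forall_pos_le_add fun ε hε => ?_
  obtain ⟨T, p, K, k1, k2, k3, k4⟩ := hY ε hε
  obtain ⟨U, w, a, hm, hq, hs⟩ := exists_am π p
  have e1 := k4 U a (w.comp π') (fun k u hu => by
      rw [← hs k u hu]
      exact h1 k _ (w.supp k u hu)) (fun j => by
      rw [← hq, h2, Pj.comp_qs])
  have hxi : a.map (p.map (c.xi i)) = (w.comp π').map (c.xi i) := by
    rw [← hm, Pj.comp_map, xi_agree hc i π π' h1 h2]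
  have hb : (w.comp π').map (c.b i) ≤ a.map K := by
    have e2 : a.map (p.map (c.b i)) = (w.comp π').map (c.b i) := by
      rw [← hm, Pj.comp_map]
      congr 1
      unfold Cor.b
      rw [π.map_io, π'.map_io]
      exact io_congr_supp ((π.bdd_iff _).mpr (hc.bdd i)) ((π'.bdd_iff _).mpr (hc.bdd i)) h1
    rw [← e2]
    exact a.map_mono k1
  have hbe : (w.comp π').map (c.be 1) ≤ a.map K ⊔ (w.comp π').map c.P := by
    generalize w.comp π' = ρ at e1 hxi hb
    apply hA U ρ _ le_sup_right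
    have g1 := (e1.slice hS 0).comp (fun j : Fin N => j.succ)
    have g2 : (fun j : Fin N => ρ.qs (c.tR j.succ)) = fun j => ρ.qs (c.R j) := by
      funext j
      have : c.tR j.succ = c.R j := Fin.cons_succ _ _ _
      rw [this]
    have g3 : dg (ρ.qs (c.tR 0)) 1 = ρ.map (dg (c.q 0) 1) := ρ.qs_dg _ _
    rw [g2, g3] at g1
    have g4 : I (ρ.map c.P) (vd (fun j => ρ.qs (c.R j)) 1) (a.map K ⊔ ρ.map (dg (c.q 0) 1)) = 0 := by
      have g5 : I (ρ.map c.P) (ρ.map (c.xi i ⊔ vd c.R 1)) (ρ.map (c.b i ⊔ dg (c.q 0) 1)) = 0 := by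
        rw [ρ.I_map]
        exact hc.far1 i
      rw [ρ.map_sup, ρ.map_sup, ← hxi, ← ρ.qs_vd] at g5
      have g6 : I (ρ.map c.P) (a.map K ⊔ vd (fun j => ρ.qs (c.R j)) 1) (ρ.map (c.b i) ⊔ ρ.map (dg (c.q 0) 1)) = 0 :=
        I_zero_mono g5 le_sup_left ((sup_le_sup_right (a.map_mono k2) _).trans le_sup_left)
      have g7 := (I_decomp g6).2
      rwa [← sup_assoc, sup_eq_left.mpr hb] at g7
    have g8 := g1.add g4
    have g9 : a.map K ⊔ ρ.map (dg (c.q 0) 1) ⊔ ρ.map c.P = a.map K ⊔ ρ.map c.P := by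
      rw [sup_assoc, sup_eq_right.mpr (ρ.map_mono hc.t_le)]
    rwa [g9] at g8
  have f1 : h (π'.map (c.be 1)) (π.map (c.P ⊔ c.be 1 ⊔ c.b i) ⊔ π'.map c.P) =
      h ((w.comp π').map (c.be 1)) (a.map (p.map (c.P ⊔ c.be 1 ⊔ c.b i)) ⊔ (w.comp π').map c.P) := by
    rw [← hm, Pj.comp_map, Pj.comp_map, ← w.map_sup, w.h_map]
  rw [f1]
  calc h ((w.comp π').map (c.be 1)) (a.map (p.map (c.P ⊔ c.be 1 ⊔ c.b i)) ⊔ (w.comp π').map c.P)
      ≤ h (a.map K ⊔ (w.comp π').map c.P) (a.map (p.map (c.P ⊔ c.be 1 ⊔ c.b i)) ⊔ (w.comp π').map c.P) := h_mono hbe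
    _ ≤ h (a.map K) (a.map (p.map (c.P ⊔ c.be 1 ⊔ c.b i)) ⊔ (w.comp π').map c.P) +
        h ((w.comp π').map c.P) (a.map (p.map (c.P ⊔ c.be 1 ⊔ c.b i)) ⊔ (w.comp π').map c.P) := h_sup_le _ _ _
    _ ≤ h (a.map K) (a.map (p.map (c.P ⊔ c.be 1 ⊔ c.b i))) + 0 :=
        add_le_add (h_anti le_sup_left) (h_zero le_sup_right).le
    _ ≤ 0 + ε := by
        rw [a.h_map]
        linarith

end Cor

end

end Pool.Agent.Helper95.RIG
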