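import Pool.Agent.Helper95.RIG.St
import Pool.Agent.Helper98.FR.Over
import Pool.Agent.Helper69.BF.Unc

/-! CHANGE OF THE BASE to a literal variable `V`: the lattice over the base is the lattice above `io V`; functions to
full precision are the same; leaves over the base are leaves above `io V`; extensions of the changed space are extensions
of the space; projections which agree on `V`. -/

set_option autoImplicit false

namespace Pool.Agent.Helper56.STL

open Finset Filter Topology Pool.Agent.Helper69.RK Pool.Agent.Helper31.EC Pool.Agent.Helper95.RIG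
open Pool.Agent.Helper98.FR

noncomputable section

open Sp QS

/-- counting in two steps -/
theorem nvf_two {Ω α β γ : Type} [Fintype Ω] (μ : Ω → ℝ) (f : Ω → α) (y : Ω → β) (g : Ω → γ) (ω : Ω) (N : ℝ)
    (h : ∀ ω', μ ω' ≠ 0 → g ω' = g ω → (nvf μ f (fun w => (y w, g w)) ω' : ℝ) ≤ N) :
    (nvf μ f g ω : ℝ) ≤ nvf μ y g ω * N := by
  classical
  obtain ⟨S0, hS0⟩ : ∃ S0 : Finset Ω, S0 = univ.filter (fun ω' => μ ω' ≠ 0 ∧ g ω' = g ω) := ⟨_, rfl⟩
  have h1 : nvf μ f g ω = (S0.image f).card := by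
    rw [hS0]; rfl
  have h2 : nvf μ y g ω = (S0.image y).card := by
    rw [hS0]; rfl
  rw [h1, h2]
  have h3 : S0.image f ⊆ (S0.image y).biUnion (fun q => (S0.filter (fun ω' => y ω' = q)).image f) := by
    intro a ha
    rw [Finset.mem_image] at ha
    obtain ⟨ω', hω', rfl⟩ := ha
    rw [Finset.mem_biUnion]
    exact ⟨y ω', Finset.mem_image_of_mem _ hω', Finset.mem_image_of_mem _ (Finset.mem_filter.mpr ⟨hω', rfl⟩)⟩
  have h4 : ((S0.image f).card : ℝ) ≤ ∑ q ∈ S0.image y, (((S0.filter (fun ω' => y ω' = q)).image f).card : ℝ) := by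
    have := (Finset.card_le_card h3).trans Finset.card_biUnion_le
    exact_mod_cast this
  refine h4.trans ?_
  have h5 : ∀ q ∈ S0.image y, (((S0.filter (fun ω' => y ω' = q)).image f).card : ℝ) ≤ N := by
    intro q hq
    rw [Finset.mem_image] at hq
    obtain ⟨ω', hω', rfl⟩ := hq
    have hm : μ ω' ≠ 0 ∧ g ω' = g ω := by
      rw [hS0] at hω'
      exact (Finset.mem_filter.mp hω').2
    refine le_trans (le_of_eq ?_) (h ω' hm.1 hm.2)
    unfold nvf
    apply congrArg (fun s : Finset α => (s.card : ℝ))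
    ext a
    rw [Finset.mem_image, Finset.mem_image]
    simp only [hS0, Finset.mem_filter, Finset.mem_univ, true_and, Prod.mk.injEq]
    constructor
    · rintro ⟨w, ⟨⟨a1, a2⟩, a3⟩, rfl⟩
      exact ⟨w, ⟨a1, a3, a2.trans hm.2.symm⟩, rfl⟩
    · rintro ⟨w, ⟨a1, a2, a3⟩, rfl⟩
      exact ⟨w, ⟨⟨a1, a3.trans hm.2⟩, a2⟩, rfl⟩
  refine (Finset.sum_le_sum h5).trans (le_of_eq ?_)
  rw [Finset.sum_const, nsmul_eq_mul]

variable {S : Sp}

/-- partitions with few values over a new base which has few values have few values -/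
theorem VB_unchg {X Y : ∀ k, Setoid (S.F k).Ω} (hX : (S.chg Y 1 one_pos).VB X) (hY : S.VB Y) : S.VB X := by
  obtain ⟨C, hC⟩ := hX
  obtain ⟨C', hC'⟩ := hY
  refine ⟨C' + C, ?_⟩
  filter_upwards [hC, hC'] with k h1 h2 ω hω
  have h3 : (nv (S.F k) (X k) ω : ℝ) ≤ nv (S.F k) (Y k) ω * 2 ^ (C * (S.F k).n) := by
    apply nvf_two (S.F k).μ (Quotient.mk (X k)) (Quotient.mk (Y k)) (Quotient.mk (S.F k).Z) ω
    intro ω' h4 _
    have h5 := h1 ω' h4
    have h6 : ((S.chg Y 1 one_pos).F k).n = (S.F k).n := one_mul _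
    rw [h6] at h5
    refine le_trans ?_ h5
    have h7 : nvf (S.F k).μ (Quotient.mk (X k)) (fun w => (Quotient.mk (Y k) w, Quotient.mk (S.F k).Z w)) ω' ≤
        nvf (S.F k).μ (Quotient.mk (X k)) (Quotient.mk (Y k ⊓ (S.F k).Z)) ω' := by
      apply nvf_le_of_rel
      intro ω₁ _ e
      rw [Prod.mk.injEq] at e
      exact Quotient.sound (show (Y k ⊓ (S.F k).Z) ω₁ ω' from ⟨Quotient.exact e.1, Quotient.exact e.2⟩)
    have h8 : nvf (S.F k).μ (Quotient.mk (X k)) (fun w => (Quotient.mk (Y k) w, Quotient.mk (S.F k).Z w)) ω' ≤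
        nv ((S.chg Y 1 one_pos).F k) (X k) ω' := h7
    exact_mod_cast h8
  refine h3.trans ?_
  rw [add_mul, Real.rpow_add (by norm_num)]
  exact mul_le_mul_of_nonneg_right (h2 ω hω) (by positivity)

section base

variable {α : ℕ → Type} (V : ∀ k, (S.F k).Ω → α k)

/-- the space over the literal variable `V` -/
def ov : Sp := S.chg (fun k => Setoid.ker (V k)) 1 one_pos

theorem ov_n (k : ℕ) : ((ov V).F k).n = (S.F k).n := one_mul _

/-- the map of lattices -/
def oL (x : S.L) : (ov V).L := chgL (fun k => Setoid.ker (V k)) 1 one_pos x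

/-- the map of functions -/
def oq : QS S →+* QS (ov V) := qc (fun k => Setoid.ker (V k))

theorem oL_mono {x y : S.L} (h : x ≤ y) : oL V x ≤ oL V y := chgL_mono _ 1 one_pos h

theorem oL_sup (x y : S.L) : oL V (x ⊔ y) = oL V x ⊔ oL V y := chgL_sup _ 1 one_pos x y

variable {V}

theorem oL_le (hV : Bdd V) {x y : S.L} : oL V x ≤ oL V y ↔ x ≤ y ⊔ io V := by
  rw [io_eq hV]
  exact chgL_le_inf 1 one_pos hV.toInf x y

theorem oL_le' (hV : Bdd V) {x y : S.L} (hy : io V ≤ y) : oL V x ≤ oL V y ↔ x ≤ y := by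
  rw [oL_le hV, sup_eq_left.mpr hy]

theorem oL_h (hV : Bdd V) (x y : S.L) : h (oL V x) (oL V y) = h x (y ⊔ io V) := by
  rw [io_eq hV]
  exact (h_chgL_inf 1 one_pos hV.toInf x y).trans (div_one _)

theorem oL_I (hV : Bdd V) (x y z : S.L) : I (oL V x) (oL V y) (oL V z) = I x y (z ⊔ io V) := by
  rw [io_eq hV]
  exact (I_chgL_inf 1 one_pos hV.toInf x y z).trans (div_one _)

theorem oL_h' (hV : Bdd V) (x : S.L) {y : S.L} (hy : io V ≤ y) : h (oL V x) (oL V y) = h x y := by
  rw [oL_h hV, sup_eq_left.mpr hy]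

theorem oL_I' (hV : Bdd V) (x y : S.L) {z : S.L} (hz : io V ≤ z) : I (oL V x) (oL V y) (oL V z) = I x y z := by
  rw [oL_I hV, sup_eq_left.mpr hz]

/-- every information over the base comes from an information above the base -/
theorem oL_surj (hV : Bdd V) (x : (ov V).L) : ∃ y : S.L, io V ≤ y ∧ oL V y = x := by
  induction x using cl_ind with | _ A
  have h1 : S.VB A.1 := VB_unchg A.2 hV
  obtain ⟨x, hx⟩ : ∃ x : S.L, oL V x = cl A := ⟨cl (S := S) ⟨A.1, h1⟩, rfl⟩
  refine ⟨x ⊔ io V, le_sup_right, ?_⟩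
  rw [← hx]
  apply le_antisymm
  · exact (oL_le hV).mpr le_rfl
  · exact oL_mono V le_sup_left

theorem oL_inj (hV : Bdd V) {x y : S.L} (hx : io V ≤ x) (hy : io V ≤ y) (h : oL V x = oL V y) : x = y :=
  le_antisymm ((oL_le' hV hy).mp h.le) ((oL_le' hV hx).mp h.ge)

variable (V)

theorem oq_dg (f : QS S) (r : ℝ) : dg (oq V f) r = oL V (dg f r) := qc_dg _ f r

theorem oq_vd {ι : Type} [Fintype ι] (f : ι → QS S) (r : ℝ) : vd (fun i => oq V (f i)) r = oL V (vd f r) := by
  unfold vd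
  have h1 : ∀ s : Finset ι, oL V (s.sup fun i => dg (f i) r) = s.sup fun i => dg (oq V (f i)) r := by
    classical
    intro s
    induction s using Finset.induction_on with
    | empty => rfl
    | insert a s ha ih => rw [Finset.sup_insert, Finset.sup_insert, oL_sup, ih, oq_dg]
  exact (h1 _).symm

theorem oq_inj {f g : QS S} (h : oq V f = oq V g) : f = g := by
  have h1 : oq V (f - g) ∈ Id (ov V) 1 := by
    rw [map_sub, h, sub_self]
    exact Ideal.zero_mem _
  have h2 : f - g ∈ Id S 1 := (qc_mem_Id _).mp h1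
  rw [mem_Id_one] at h2
  exact sub_eq_zero.mp h2

theorem oq_surj (f : QS (ov V)) : ∃ g : QS S, oq V g = f := by
  obtain ⟨f, rfl⟩ := mk_surj f
  obtain ⟨K, hK, h⟩ := f.2
  exact ⟨QS.mk ⟨f.1, K, sub_of_chg _ hK, h⟩, rfl⟩

variable {V}

/-- known functions -/
theorem oq_known (hV : Bdd V) {A : S.L} (hA : io V ≤ A) {f : QS S} : dg (oq V f) 1 ≤ oL V A ↔ dg f 1 ≤ A := by
  rw [oq_dg, oL_le' hV hA]

theorem oq_PK (hV : Bdd V) {A : S.L} (hA : io V ≤ A) {ι : Type} {Φ : MvPolynomial ι (QS S)} :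
    MvPolynomial.map (oq V) Φ ∈ PK (oL V A) ↔ Φ ∈ PK A := by
  constructor
  · intro h m
    have h1 := h m
    rw [MvPolynomial.coeff_map] at h1
    exact (oq_known hV hA).mp h1
  · intro h m
    rw [MvPolynomial.coeff_map]
    exact (oq_known hV hA).mpr (h m)

theorem oq_Rl (hV : Bdd V) {A : S.L} (hA : io V ≤ A) {ι : Type} [Fintype ι] {Y : ι → QS S} :
    Rl (fun i => oq V (Y i)) (oL V A) ↔ Rl Y A := by
  unfold Rl
  rw [oq_vd, oL_h' hV _ hA]

/-- exact leaves over the base -/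
theorem PLeaf.ov_iff (hV : Bdd V) {A : S.L} (hA : io V ≤ A) {ι : Type} {Q : ι → QS S} :
    PLeaf (oL V A) (fun j => oq V (Q j)) ↔ PLeaf A Q := by
  constructor
  · rintro ⟨n, Y, Φ, hY, hΦ, hQ⟩
    choose Y' hY' using fun i => oq_surj V (Y i)
    choose Φ' hΦ' using fun j => MvPolynomial.map_surjective (oq V) (oq_surj V) (Φ j)
    refine ⟨n, Y', Φ', ?_, fun j => ?_, fun j => ?_⟩
    · have e : Y = fun i => oq V (Y' i) := funext fun i => (hY' i).symm
      rw [e] at hY
      exact (oq_Rl hV hA).mp hY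
    · have h1 := hΦ j
      rw [← hΦ' j] at h1
      exact (oq_PK hV hA).mp h1
    · apply oq_inj V
      have h2 : oq V (Q j) = MvPolynomial.eval Y (Φ j) := hQ j
      rw [h2, eval_hom, hΦ' j]
      exact congrArg (fun y => MvPolynomial.eval y (Φ j)) (funext fun i => (hY' i).symm)
  · rintro ⟨n, Y, Φ, hY, hΦ, hQ⟩
    refine ⟨n, fun i => oq V (Y i), fun j => MvPolynomial.map (oq V) (Φ j), (oq_Rl hV hA).mpr hY,
      fun j => (oq_PK hV hA).mpr (hΦ j), fun j => ?_⟩
    beta_reduce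
    rw [hQ j, eval_hom]

/-- projections which agree on the base variable -/
def pov {T : Sp} (p : Pj T S) {β : ℕ → Type} (V : ∀ k, (S.F k).Ω → β k) (X : ∀ k, (T.F k).Ω → β k)
    (hX : ∀ k ω, (T.F k).μ ω ≠ 0 → X k ω = V k (p.π k ω)) : Pj (ov X) (ov V) where
  π := p.π
  law := p.law
  hZ := by
    intro k ω ω' h1 h2
    show (Setoid.ker (X k) ⊓ (T.F k).Z) ω ω' ↔ (Setoid.ker (V k) ⊓ (S.F k).Z) (p.π k ω) (p.π k ω')
    have h3 : (Setoid.ker (X k)) ω ω' ↔ (Setoid.ker (V k)) (p.π k ω) (p.π k ω') := by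
      show X k ω = X k ω' ↔ V k (p.π k ω) = V k (p.π k ω')
      rw [hX k ω h1, hX k ω' h2]
    exact and_congr h3 (p.hZ k ω ω' h1 h2)
  hn := by
    intro k
    show 1 * (T.F k).n = 1 * (S.F k).n
    rw [p.hn k]

theorem pov_map {T : Sp} (p : Pj T S) (X : ∀ k, (T.F k).Ω → α k)
    (hX : ∀ k ω, (T.F k).μ ω ≠ 0 → X k ω = V k (p.π k ω)) (x : S.L) :
    (pov p V X hX).map (oL V x) = oL X (p.map x) := by
  induction x using cl_ind with | _ A
  rfl

theorem pov_qs {T : Sp} (p : Pj T S) (X : ∀ k, (T.F k).Ω → α k)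
    (hX : ∀ k ω, (T.F k).μ ω ≠ 0 → X k ω = V k (p.π k ω)) (f : QS S) :
    (pov p V X hX).qs (oq V f) = oq X (p.qs f) := by
  obtain ⟨f, rfl⟩ := mk_surj f
  rfl

/-- approximate leaves over the base are approximate leaves -/
theorem ALeaf.of_ov (hV : Bdd V) {A : S.L} (hA : io V ≤ A) {ι : Type} {Q : ι → QS S}
    (h : ALeaf (oL V A) (fun j => oq V (Q j))) : ALeaf A Q := by
  intro ε hε
  obtain ⟨W, p, A', h1, h2, h3⟩ := h ε hε
  set T : Sp := Pool.Agent.Helper69.BF.unS p with hT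
  set q : Pj T S := Pool.Agent.Helper69.BF.unP p with hq
  have hqV : Bdd (S := T) (fun k ω => V k (q.π k ω)) := (q.bdd_iff V).mpr hV
  have hio : q.map (io V) = io (S := T) (fun k ω => V k (q.π k ω)) := q.map_io V
  -- the isomorphism
  let j : Pj (ov (S := T) (fun k ω => V k (q.π k ω))) W :=
    { π := fun _ ω => ω
      law := fun k => (Pj.id W).law k
      hZ := by
        intro k ω ω' g1 g2
        have g3 := p.hZ k ω ω' g1 g2
        exact g3.symm
      hn := by
        intro k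
        have g3 := p.hn k
        exact g3.symm }
  have hjL : ∀ x : S.L, j.map (p.map (oL V x)) = oL (S := T) (fun k ω => V k (q.π k ω)) (q.map x) := by
    intro x
    induction x using cl_ind with | _ X
    rfl
  have hjq : ∀ f : QS S, j.qs (p.qs (oq V f)) = oq (S := T) (fun k ω => V k (q.π k ω)) (q.qs f) := by
    intro f
    obtain ⟨f, rfl⟩ := mk_surj f
    rfl
  obtain ⟨B, hB, hBA⟩ := oL_surj hqV (j.map A')
  have hqA : io (S := T) (fun k ω => V k (q.π k ω)) ≤ q.map A := by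
    rw [← hio]
    exact q.map_mono hA
  refine ⟨T, q, B, ?_, fun y => ?_, ?_⟩
  · rw [← oL_le' hqV hB, hBA, ← hjL]
    exact j.map_mono h1
  · rw [← oL_I' hqV _ _ hqA, hBA, ← hjL, ← hjL, j.I_map]
    exact h2 _
  · rw [← PLeaf.ov_iff hqV hB, hBA]
    have e : (fun i => oq (S := T) (fun k ω => V k (q.π k ω)) (q.qs (Q i))) = fun i => j.qs (p.qs (oq V (Q i))) :=
      funext fun i => (hjq _).symm
    rw [e]
    exact PLeaf.pull j h3

end base

end

end Pool.Agent.Helper56.STL
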