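import Pool.Agent.Helper95.RIG.St
import Pool.Agent.Helper8.DSC.Cmp
import Pool.Agent.Helper8.DSC.DescLe

/-! THE LEAST STRUCTURE. From the structure theorem for two exact polynomial leaves (`Flat m`) to the least structure of
a point over a literal base: `STLmin m`. Uses descent and completeness of the lattices (helper8). -/

set_option autoImplicit false

namespace Pool.Agent.Helper56.STL

open Finset Filter Topology Pool.Agent.Helper69.RK Pool.Agent.Helper31.EC Pool.Agent.Helper95.RIG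
  Pool.Agent.Helper8.DSC

noncomputable section

open Sp QS

/-! ### lattice lemmas -/

section pm
variable {L : Type*} [PM L]

theorem h_eq_I (a c : L) : h a c = I a a c := by
  rw [I_eq, h_zero (le_sup_left : a ≤ a ⊔ c)]; ring

theorem h_le_I {a b x c : L} (h1 : a ≤ b) (h2 : a ≤ x) : h a c ≤ I b x c := by
  rw [h_eq_I]
  exact I_mono (h1.trans le_sup_left) (h2.trans le_sup_left)

/-- conditional entropy given more, the difference is an information -/
theorem h_cond_eq {a b c : L} (hc : c ≤ b) : h a c = h a b + I a b c := by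
  have h1 := I_eq a b c
  rw [sup_eq_left.mpr hc] at h1
  linarith

/-- the distance in the chain -/
theorem h_le_of_H {k₁ k₂ z : L} (h1 : k₁ ≤ z) (h2 : k₂ ≤ z) : h k₁ k₂ = h k₂ k₁ + (h z k₂ - h z k₁) := by
  have e1 : H z = H k₁ + h z k₁ := by rw [← H_chain, sup_eq_right.mpr h1]
  have e2 : H z = H k₂ + h z k₂ := by rw [← H_chain, sup_eq_right.mpr h2]
  have e3 := H_chain k₁ k₂
  have e4 := H_chain k₂ k₁
  rw [sup_comm] at e4
  linarith

end pm

/-! ### amalgams over a space -/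

theorem exists_am {T T' S : Sp} (p : Pj T S) (q : Pj T' S) : ∃ (D : Sp) (p1 : Pj D T) (p2 : Pj D T'),
    (∀ x, p1.map (p.map x) = p2.map (q.map x)) ∧ (∀ f, p1.qs (p.qs f) = p2.qs (q.qs f)) ∧
    ∀ k w, (D.F k).μ w ≠ 0 → p.π k (p1.π k w) = q.π k (p2.π k w) := by
  refine ⟨(jn p q (fun _ ω => ω)).sp, (jn p q (fun _ ω => ω)).p1, (jn p q (fun _ ω => ω)).p2, fun x => ?_, fun f => ?_,
    fun k w hw => jn_supp p q (fun _ ω => ω) k w hw⟩
  · obtain ⟨α, X, hX, rfl⟩ := exists_io x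
    exact jn_fun p q (fun _ ω => ω) hX X (fun _ _ => rfl)
  · apply jn_qs p q (fun _ ω => ω)
    intro k ω ω' h
    have h' : ω = ω' := h
    rw [h', sub_self, abs_zero]
    exact (S.dl_pos 1 k).le

/-! ### statements -/

/-- TRANSPORT: the structure `K` at one point is a structure at every other point of the same exact leaf -/
def Trp {S : Sp} {α : ℕ → Type} (V : ∀ k, (S.F k).Ω → α k) {m : ℕ} (Q : Fin m → QS S) (K : S.L) : Prop :=
  ∀ (Lam : S.L) (e : ℕ) (Y : Fin e → QS S) (Φ : Fin m → MvPolynomial (Fin e) (QS S)), io V ≤ Lam → K ≤ Lam →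
    Rl Y Lam → (∀ j, Φ j ∈ PK Lam) → (∀ j, Q j = MvPolynomial.eval Y (Φ j)) →
    ∀ (W : Sp) (π π' : Pj W S), (∀ k w, (W.F k).μ w ≠ 0 → V k (π.π k w) = V k (π'.π k w)) →
      π.map Lam = π'.map Lam → (∀ j, MvPolynomial.map π.qs (Φ j) = MvPolynomial.map π'.qs (Φ j)) →
      ALeaf (π'.map K) (fun j => π.qs (Q j))

/-- a common structure of two leaves -/
structure FlatK {S : Sp} {α : ℕ → Type} (V : ∀ k, (S.F k).Ω → α k) {m : ℕ} (Q : Fin m → QS S) (A₁ A₂ K : S.L) :
    Prop where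
  base : io V ≤ K
  fn : K ≤ io V ⊔ vd Q 1
  le1 : K ≤ A₁
  le2 : K ≤ A₂
  leaf : ALeaf K Q
  trp : Trp V Q K

/-- the structure theorem for two exact leaves -/
def Flat (m : ℕ) : Prop :=
  ∀ (S : Sp) (α : ℕ → Type) (V : ∀ k, (S.F k).Ω → α k), Bdd V → ∀ (Q : Fin m → QS S) (A₁ A₂ : S.L),
    io V ≤ A₁ → io V ≤ A₂ → PLeaf A₁ Q → PLeaf A₂ Q → ∃ K : S.L, FlatK V Q A₁ A₂ K

/-- the least structure of the point `Q` over the base -/
structure LeastK {S : Sp} {α : ℕ → Type} (V : ∀ k, (S.F k).Ω → α k) {m : ℕ} (Q : Fin m → QS S) (K : S.L) :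
    Prop where
  base : io V ≤ K
  fn : K ≤ io V ⊔ vd Q 1
  leaf : ALeaf K Q
  least : ∀ (T : Sp) (p : Pj T S) (A : T.L), p.map (io V) ≤ A → ALeaf A (fun j => p.qs (Q j)) → p.map K ≤ A
  agr : ∀ (Lam : S.L) (e : ℕ) (Y : Fin e → QS S) (Φ : Fin m → MvPolynomial (Fin e) (QS S)), io V ≤ Lam →
    Rl Y Lam → (∀ j, Φ j ∈ PK Lam) → (∀ j, Q j = MvPolynomial.eval Y (Φ j)) →
    ∀ (W : Sp) (π π' : Pj W S), (∀ k w, (W.F k).μ w ≠ 0 → V k (π.π k w) = V k (π'.π k w)) →
      π.map Lam = π'.map Lam → (∀ j, MvPolynomial.map π.qs (Φ j) = MvPolynomial.map π'.qs (Φ j)) →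
      π.map K = π'.map K

/-! ### projections which agree on the support -/

theorem map_congr {T S : Sp} (p q : Pj T S) (hpq : ∀ k w, (T.F k).μ w ≠ 0 → p.π k w = q.π k w) (x : S.L) :
    p.map x = q.map x := by
  obtain ⟨α, X, hX, rfl⟩ := exists_io x
  rw [p.map_io, q.map_io]
  apply io_congr_supp ((p.bdd_iff X).mpr hX) ((q.bdd_iff X).mpr hX)
  intro k w hw
  rw [hpq k w hw]

theorem qs_congr {T S : Sp} (p q : Pj T S) (hpq : ∀ k w, (T.F k).μ w ≠ 0 → p.π k w = q.π k w) (f : QS S) :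
    p.qs f = q.qs f := by
  have e1 : QS.mk (p.tr (QS.rep f)) = QS.mk (q.tr (QS.rep f)) := by
    rw [QS.mk_eq]
    refine ⟨fun _ _ => True, fun _ => 1, Sp.Typ_true, Sp.Sub_const _ zero_le_one,
      Eventually.of_forall fun k w hw _ => ?_⟩
    have h1 : TR.ev (p.tr (QS.rep f)) k w = TR.ev (q.tr (QS.rep f)) k w := by
      show TR.ev (QS.rep f) k (p.π k w) = TR.ev (QS.rep f) k (q.π k w)
      rw [hpq k w hw]
    rw [h1, sub_self, abs_zero, one_mul]
    exact (T.dl_pos 1 k).le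
  have e2 : p.qs (QS.mk (QS.rep f)) = q.qs (QS.mk (QS.rep f)) := e1
  rwa [QS.mk_rep] at e2

section least

variable {S : Sp} {α : ℕ → Type} (V : ∀ k, (S.F k).Ω → α k) {m : ℕ} (Q : Fin m → QS S)

/-- the entropies of the point over exact leaves on extensions -/
def vset : Set ℝ :=
  {r | ∃ (T : Sp) (p : Pj T S) (A : T.L), p.map (io V) ≤ A ∧ PLeaf A (fun j => p.qs (Q j)) ∧
    r = h (p.map (vd Q 1)) A}

def vmax : ℝ := sSup (vset V Q)

theorem vset_bdd : BddAbove (vset V Q) := by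
  refine ⟨H (vd Q 1), ?_⟩
  rintro r ⟨T, p, A, _, _, rfl⟩
  exact (h_le_H _ _).trans_eq (p.H_map _)

theorem vset_ne : (vset V Q).Nonempty := by
  refine ⟨_, S, Pj.id S, io V ⊔ vd Q 1, ?_, ?_, rfl⟩
  · rw [Pj.id_map]
    exact le_sup_left
  · have h1 : (fun j => (Pj.id S).qs (Q j)) = Q := funext fun j => Pj.id_qs (Q j)
    rw [h1]
    exact PLeaf.known fun j => (dg_le_vd Q 1 j).trans le_sup_right

variable {V Q}

theorem le_vmax {T : Sp} (p : Pj T S) {A : T.L} (hB : p.map (io V) ≤ A) (hA : PLeaf A (fun j => p.qs (Q j))) :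
    h (p.map (vd Q 1)) A ≤ vmax V Q := le_csSup (vset_bdd V Q) ⟨T, p, A, hB, hA, rfl⟩

theorem le_vmax_A {T : Sp} (p : Pj T S) {A : T.L} (hB : p.map (io V) ≤ A) (hA : ALeaf A (fun j => p.qs (Q j))) :
    h (p.map (vd Q 1)) A ≤ vmax V Q := by
  apply le_of_forall_pos_le_add
  intro ε hε
  obtain ⟨W, q, A', h1, h2, h3⟩ := hA ε hε
  have e1 : h (p.map (vd Q 1)) A = h (q.map (p.map (vd Q 1))) A' + I (q.map (p.map (vd Q 1))) A' (q.map A) := by
    rw [← h_cond_eq h1, q.h_map]
  have e2 : h ((q.comp p).map (vd Q 1)) A' ≤ vmax V Q := by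
    apply le_vmax (q.comp p)
    · rw [Pj.comp_map]
      exact (q.map_mono hB).trans h1
    · have e : (fun j => (q.comp p).qs (Q j)) = fun j => q.qs (p.qs (Q j)) := funext fun j => Pj.comp_qs q p (Q j)
      rw [e]
      exact h3
  rw [Pj.comp_map] at e2
  have e3 := h2 (p.map (vd Q 1))
  rw [I_comm] at e3
  linarith

/-- a nearly least structure on an extension -/
structure Near (V : ∀ k, (S.F k).Ω → α k) (Q : Fin m → QS S) (ε : ℝ) {T : Sp} (p : Pj T S) (K : T.L) : Prop where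
  base : p.map (io V) ≤ K
  fn : K ≤ p.map (io V ⊔ vd Q 1)
  leaf : ALeaf K (fun j => p.qs (Q j))
  near : vmax V Q - ε ≤ h (p.map (vd Q 1)) K

variable {ε : ℝ}

theorem comp_fun {T U : Sp} (r : Pj U T) (p : Pj T S) : (fun j => (r.comp p).qs (Q j)) = fun j => r.qs (p.qs (Q j)) :=
  funext fun j => Pj.comp_qs r p (Q j)

/-- the basic comparison: a nearly least structure is nearly known to every exact leaf on every extension; the
comparing structure `K₂` is a common structure of a leaf close to `K` and of the given leaf -/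
theorem Near.step (hF : Flat m) (hV : Bdd V) {T : Sp} {p : Pj T S} {K : T.L} (hN : Near V Q ε p K) {U : Sp} (r : Pj U T)
    {A : U.L} (hA : r.map (p.map (io V)) ≤ A) (hl : PLeaf A (fun j => r.qs (p.qs (Q j)))) {δ : ℝ} (hδ : 0 < δ) :
    ∃ (W : Sp) (s : Pj W U) (K₂ : W.L), FlatK (fun k w => V k (p.π k (r.π k (s.π k w))))
      (fun j => s.qs (r.qs (p.qs (Q j)))) (s.map A) (s.map A) K₂ ∧
      h K₂ (s.map (r.map K)) ≤ δ ∧ h (s.map (r.map K)) K₂ ≤ ε + δ := by
  obtain ⟨W, s, A', h1, h2, h3⟩ := (hN.leaf.pull r) δ hδ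
  have hV' : Bdd (S := W) (fun k w => V k (p.π k (r.π k (s.π k w)))) :=
    (s.bdd_iff (fun k w => V k (p.π k (r.π k w)))).mpr ((r.bdd_iff (fun k w => V k (p.π k w))).mpr ((p.bdd_iff V).mpr hV))
  have hio : io (S := W) (fun k w => V k (p.π k (r.π k (s.π k w)))) = s.map (r.map (p.map (io V))) := by
    rw [p.map_io, r.map_io, s.map_io]
  obtain ⟨K₂, hK⟩ := hF W α (fun k w => V k (p.π k (r.π k (s.π k w)))) hV' (fun j => s.qs (r.qs (p.qs (Q j)))) A'
    (s.map A) (by rw [hio]; exact (s.map_mono (r.map_mono hN.base)).trans h1)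
    (by rw [hio]; exact s.map_mono hA) h3 (hl.pull s)
  set z : W.L := s.map (r.map (p.map (io V ⊔ vd Q 1))) with hz
  have hvd : vd (fun j => s.qs (r.qs (p.qs (Q j)))) 1 = s.map (r.map (p.map (vd Q 1))) := by
    rw [s.qs_vd, r.qs_vd, p.qs_vd]
  have hKz : K₂ ≤ z := by
    have := hK.fn
    rw [hio, hvd, ← s.map_sup, ← r.map_sup, ← p.map_sup] at this
    exact this
  have hK1z : s.map (r.map K) ≤ z := s.map_mono (r.map_mono hN.fn)
  have e1 : h K₂ (s.map (r.map K)) ≤ δ := by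
    refine (h_le_I hK.le1 hKz).trans ?_
    exact h2 _
  have e2 := h_le_of_H hK1z hKz
  have e3 : h z K₂ ≤ vmax V Q := by
    have a1 : h z K₂ ≤ h (s.map (r.map (p.map (vd Q 1)))) K₂ := by
      rw [hz, p.map_sup, r.map_sup, s.map_sup]
      have b1 := h_sup_le (s.map (r.map (p.map (io V)))) (s.map (r.map (p.map (vd Q 1)))) K₂
      have b2 : h (s.map (r.map (p.map (io V)))) K₂ = 0 := by
        apply h_zero
        rw [← hio]
        exact hK.base
      linarith
    have a2 := le_vmax_A (V := V) (Q := Q) (s.comp (r.comp p)) (A := K₂) (by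
      rw [Pj.comp_map, Pj.comp_map, ← hio]; exact hK.base) (by
      have e : (fun j => (s.comp (r.comp p)).qs (Q j)) = fun j => s.qs (r.qs (p.qs (Q j))) := by
        funext j
        rw [Pj.comp_qs, Pj.comp_qs]
      rw [e]; exact hK.leaf)
    rw [Pj.comp_map, Pj.comp_map] at a2
    linarith
  have e4 : vmax V Q - ε ≤ h z (s.map (r.map K)) := by
    refine hN.near.trans ?_
    rw [hz, s.h_map, r.h_map]
    exact h_mono (p.map_mono le_sup_right)
  exact ⟨W, s, K₂, ⟨hK.base, hK.fn, hK.le2, hK.le2, hK.leaf, hK.trp⟩, e1, by linarith⟩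

/-- exact leaves know a nearly least structure up to `ε` -/
theorem Near.le_P (hF : Flat m) (hV : Bdd V) {T : Sp} {p : Pj T S} {K : T.L} (hN : Near V Q ε p K) {U : Sp} (r : Pj U T)
    {A : U.L} (hA : r.map (p.map (io V)) ≤ A) (hl : PLeaf A (fun j => r.qs (p.qs (Q j)))) : h (r.map K) A ≤ ε := by
  apply le_of_forall_pos_le_add
  intro δ hδ
  obtain ⟨W, s, K₂, hK, _, h2⟩ := hN.step hF hV r hA hl hδ
  have h3 : h (s.map (r.map K)) (s.map A) ≤ h (s.map (r.map K)) K₂ := h_anti hK.le1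
  rw [s.h_map] at h3
  linarith

/-- approximate leaves know a nearly least structure up to `ε` -/
theorem Near.le_A (hF : Flat m) (hV : Bdd V) {T : Sp} {p : Pj T S} {K : T.L} (hN : Near V Q ε p K) {U : Sp} (r : Pj U T)
    {A : U.L} (hA : r.map (p.map (io V)) ≤ A) (hl : ALeaf A (fun j => r.qs (p.qs (Q j)))) : h (r.map K) A ≤ ε := by
  apply le_of_forall_pos_le_add
  intro δ hδ
  obtain ⟨W, s, A', h1, h2, h3⟩ := hl δ hδ
  have e1 : h (r.map K) A = h (s.map (r.map K)) A' + I (s.map (r.map K)) A' (s.map A) := by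
    rw [← h_cond_eq h1, s.h_map]
  have e2 := hN.le_P hF hV (s.comp r) (A := A') (by
    rw [Pj.comp_map]; exact (s.map_mono hA).trans h1) (by
    have e : (fun j => (s.comp r).qs (p.qs (Q j))) = fun j => s.qs (r.qs (p.qs (Q j))) :=
      funext fun j => Pj.comp_qs s r _
    rw [e]; exact h3)
  rw [Pj.comp_map] at e2
  have e3 := h2 (r.map K)
  rw [I_comm] at e3
  linarith

theorem exists_near (hF : Flat m) (hV : Bdd V) (hε : 0 < ε) : ∃ (T : Sp) (p : Pj T S) (K : T.L), Near V Q ε p K := by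
  obtain ⟨r, ⟨T, p, A, hB, hA, rfl⟩, hr⟩ := exists_lt_of_lt_csSup (vset_ne V Q)
    (show vmax V Q - ε < sSup (vset V Q) by unfold vmax; linarith)
  have hV' : Bdd (S := T) (fun k w => V k (p.π k w)) := (p.bdd_iff V).mpr hV
  have hio : io (S := T) (fun k w => V k (p.π k w)) = p.map (io V) := (p.map_io V).symm
  obtain ⟨K, hK⟩ := hF T α (fun k w => V k (p.π k w)) hV' (fun j => p.qs (Q j)) A A (by rw [hio]; exact hB)
    (by rw [hio]; exact hB) hA hA
  refine ⟨T, p, K, ?_, ?_, hK.leaf, ?_⟩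
  · rw [← hio]; exact hK.base
  · have := hK.fn
    rwa [hio, p.qs_vd, ← p.map_sup] at this
  · have : h (p.map (vd Q 1)) A ≤ h (p.map (vd Q 1)) K := h_anti hK.le1
    linarith

/-- two nearly least structures are close on every common extension -/
theorem Near.close (hF : Flat m) (hV : Bdd V) {T T' : Sp} {p : Pj T S} {K : T.L} (hN : Near V Q ε p K)
    {ε' : ℝ} {p' : Pj T' S} {K' : T'.L} (hN' : Near V Q ε' p' K') {D : Sp} (r : Pj D T) (r' : Pj D T')
    (hm : ∀ x, r.map (p.map x) = r'.map (p'.map x)) (hq : ∀ f, r.qs (p.qs f) = r'.qs (p'.qs f)) :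
    h (r.map K) (r'.map K') ≤ ε := by
  apply hN.le_A hF hV r
  · rw [hm]
    exact r'.map_mono hN'.base
  · have e : (fun j => r.qs (p.qs (Q j))) = fun j => r'.qs (p'.qs (Q j)) := funext fun j => hq _
    rw [e]
    exact hN'.leaf.pull r'

/-- nearly least structures come from informations of the space -/
theorem exists_y (hF : Flat m) (hV : Bdd V) (hε : 0 < ε) : ∃ (T : Sp) (p : Pj T S) (K : T.L) (y : S.L),
    Near V Q ε p K ∧ y ≤ io V ⊔ vd Q 1 ∧ h (p.map y) K ≤ 2 * ε ∧ h K (p.map y) ≤ 2 * ε := by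
  obtain ⟨T, p, K, hN⟩ := exists_near (Q := Q) hF hV hε
  obtain ⟨y, hy, h1⟩ := desc_le p K (io V ⊔ vd Q 1) hN.fn
  have hq : ∀ f : QS S, (slf p).p1.qs (p.qs f) = (slf p).p2.qs (p.qs f) := by
    intro f
    rw [← Pj.comp_qs, ← Pj.comp_qs]
    exact qs_congr _ _ (fun k w hw => ((slf p).supp k w hw).1) f
  have h2 := hN.close hF hV hN (slf p).p1 (slf p).p2 (slf_comm p) hq
  have h3 := hN.close hF hV hN (slf p).p2 (slf p).p1 (fun x => (slf_comm p x).symm) (fun f => (hq f).symm)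
  have h4 := h_nonneg (p.map y) K
  have h5 := h_nonneg K (p.map y)
  exact ⟨T, p, K, y, hN, hy, by linarith, by linarith⟩

/-- the limit -/
theorem exists_star (hF : Flat m) (hV : Bdd V) : ∃ K₀ : S.L, K₀ ≤ io V ⊔ vd Q 1 ∧
    ∀ ε : ℝ, 0 < ε → ∃ (T : Sp) (p : Pj T S) (K : T.L), Near V Q ε p K ∧ h (p.map K₀) K ≤ ε ∧ h K (p.map K₀) ≤ ε := by
  have hpos : ∀ i : ℕ, (0 : ℝ) < 1 / ((i : ℝ) + 1) := fun i => by positivity
  choose T p K y hN hy h1 h2 using fun i : ℕ => exists_y (Q := Q) hF hV (hpos i)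
  have key : ∀ i j, h (y i) (y j) ≤ 2 * (1 / ((i : ℝ) + 1)) + 1 / ((i : ℝ) + 1) + 2 * (1 / ((j : ℝ) + 1)) := by
    intro i j
    obtain ⟨D, r, r', hm, hq, _⟩ := exists_am (p i) (p j)
    have e1 := (hN i).close hF hV (hN j) r r' hm hq
    have e2 : h (r.map ((p i).map (y i))) (r.map (K i)) ≤ 2 * (1 / ((i : ℝ) + 1)) := by
      rw [r.h_map]; exact h1 i
    have e3 : h (r'.map (K j)) (r'.map ((p j).map (y j))) ≤ 2 * (1 / ((j : ℝ) + 1)) := by
      rw [r'.h_map]; exact h2 j
    have e4 : h (y i) (y j) = h (r.map ((p i).map (y i))) (r'.map ((p j).map (y j))) := by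
      rw [← hm, r.h_map, (p i).h_map]
    rw [e4]
    have e5 := h_triangle' (r.map ((p i).map (y i))) (r.map (K i)) (r'.map ((p j).map (y j)))
    have e6 := h_triangle' (r.map (K i)) (r'.map (K j)) (r'.map ((p j).map (y j)))
    linarith
  obtain ⟨K₀, hK₀, hK⟩ := cauchy_le (io V ⊔ vd Q 1) y hy (fun i => 10 * (1 / ((i : ℝ) + 1))) (by
    intro i j hij
    have e1 := key i j
    have e2 := key j i
    have e3 : 1 / ((j : ℝ) + 1) ≤ 1 / ((i : ℝ) + 1) := by
      apply one_div_le_one_div_of_le (by positivity)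
      have : (i : ℝ) ≤ j := by exact_mod_cast hij
      linarith
    linarith)
  refine ⟨K₀, hK₀, fun ε hε => ?_⟩
  obtain ⟨i, hi⟩ := exists_nat_one_div_lt (show (0 : ℝ) < ε / 12 by positivity)
  have e1 := hK i
  have e2 := h_nonneg (y i) K₀
  have e3 := h_nonneg K₀ (y i)
  refine ⟨T i, p i, K i, ⟨(hN i).base, (hN i).fn, (hN i).leaf, by linarith [(hN i).near]⟩, ?_, ?_⟩
  · have e4 := h_triangle' ((p i).map K₀) ((p i).map (y i)) (K i)
    rw [(p i).h_map] at e4
    have e5 := h1 i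
    linarith
  · have e4 := h_triangle' (K i) ((p i).map (y i)) ((p i).map K₀)
    rw [(p i).h_map] at e4
    have e5 := h2 i
    linarith

/-- **THE LEAST STRUCTURE** -/
theorem exists_least (hF : Flat m) (hV : Bdd V) : ∃ K : S.L, LeastK V Q K := by
  obtain ⟨K₀, hfn, hst⟩ := exists_star (Q := Q) hF hV
  -- least
  have hleast : ∀ (U : Sp) (q : Pj U S) (A : U.L), q.map (io V) ≤ A → ALeaf A (fun j => q.qs (Q j)) →
      q.map K₀ ≤ A := by
    intro U q A hA hl
    rw [← h_le_zero_iff]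
    apply le_of_forall_pos_le_add
    intro ε hε
    obtain ⟨T, p, K, hN, h1, _⟩ := hst (ε / 2) (by positivity)
    obtain ⟨D, r, s, hm, hq, _⟩ := exists_am q p
    have e1 : h (s.map K) (r.map A) ≤ ε / 2 := by
      apply hN.le_A hF hV s
      · rw [← hm]
        exact r.map_mono hA
      · have e : (fun j => s.qs (p.qs (Q j))) = fun j => r.qs (q.qs (Q j)) := funext fun j => (hq _).symm
        rw [e]
        exact hl.pull r
    have e2 : h (q.map K₀) A = h (s.map (p.map K₀)) (r.map A) := by rw [← hm, r.h_map]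
    have e3 := h_triangle' (s.map (p.map K₀)) (s.map K) (r.map A)
    rw [s.h_map] at e3
    rw [e2]
    linarith
  -- base
  have hbase : io V ≤ K₀ := by
    rw [← h_le_zero_iff]
    apply le_of_forall_pos_le_add
    intro ε hε
    obtain ⟨T, p, K, hN, _, h2⟩ := hst ε hε
    have e1 := h_triangle' (p.map (io V)) K (p.map K₀)
    rw [p.h_map, h_zero hN.base] at e1
    linarith
  -- leaf
  have hleaf : ALeaf K₀ Q := by
    intro ε hε
    obtain ⟨T, p, K, hN, _, h2⟩ := hst (ε / 2) (by positivity)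
    obtain ⟨W, s, A', g1, g2, g3⟩ := hN.leaf (ε / 2) (by positivity)
    have hbA : (s.comp p).map (io V) ≤ A' := by
      rw [Pj.comp_map]
      exact (s.map_mono hN.base).trans g1
    have hlA : ALeaf A' (fun j => (s.comp p).qs (Q j)) := by
      rw [comp_fun]
      exact ALeaf.of_PLeaf g3
    have hK : (s.comp p).map K₀ ≤ A' := hleast W (s.comp p) A' hbA hlA
    refine ⟨W, s.comp p, A', hK, fun z => ?_, ?_⟩
    · have e1 := g2 (p.map z)
      rw [Pj.comp_map, Pj.comp_map]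
      rw [Pj.comp_map] at hK
      have e2 := h_cond_eq (a := s.map (p.map z)) hK
      have e3 := h_cond_eq (a := s.map (p.map z)) g1
      rw [I_comm] at e1 ⊢
      have e4 : h (s.map (p.map z)) (s.map (p.map K₀)) ≤ h (s.map (p.map z)) (s.map K) + ε / 2 := by
        have a1 := h_triangle' (s.map (p.map z)) (s.map K) (s.map (p.map K₀))
        have a2 : h (s.map K) (s.map (p.map K₀)) ≤ ε / 2 := by rw [s.h_map]; exact h2
        linarith
      linarith
    · rw [comp_fun]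
      exact g3
  refine ⟨K₀, hbase, hfn, hleaf, hleast, ?_⟩
  intro Lam e Y Φ hVL hRl hPK hQ W π π' hVV hLL hΦΦ
  -- the transport
  have main : ∀ (π π' : Pj W S), (∀ k w, (W.F k).μ w ≠ 0 → V k (π.π k w) = V k (π'.π k w)) →
      π.map Lam = π'.map Lam → (∀ j, MvPolynomial.map π.qs (Φ j) = MvPolynomial.map π'.qs (Φ j)) →
      π.map K₀ ≤ π'.map K₀ := by
    intro π π' hVV hLL hΦΦ
    apply hleast W π (π'.map K₀)
    · have e1 : π.map (io V) = π'.map (io V) := by
        rw [π.map_io, π'.map_io]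
        exact io_congr_supp ((π.bdd_iff V).mpr hV) ((π'.bdd_iff V).mpr hV) hVV
      rw [e1]
      exact π'.map_mono hbase
    apply ALeaf.limit'
    intro ε hε
    obtain ⟨T, p, K, hN, h1, h2⟩ := hst (ε / 2) (by positivity)
    obtain ⟨W', s₀, K₂, hK₂, g1, g2⟩ := hN.step hF hV (Pj.id T) (A := p.map Lam)
      (by rw [Pj.id_map]; exact p.map_mono hVL)
      (by
        have e0 : (fun j => (Pj.id T).qs (p.qs (Q j))) = fun j => p.qs (Q j) := funext fun j => Pj.id_qs _
        rw [e0]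
        exact PLeaf.pull p ⟨e, Y, Φ, hRl, hPK, hQ⟩) (show (0 : ℝ) < ε / 2 by positivity)
    rw [Pj.id_map] at g1 g2
    have hid : (fun j => s₀.qs ((Pj.id T).qs (p.qs (Q j)))) = fun j => (s₀.comp p).qs (Q j) := by
      funext j
      rw [Pj.id_qs, Pj.comp_qs]
    rw [hid, ← Pj.comp_map] at hK₂
    have hK₂' : FlatK (fun k w => V k ((s₀.comp p).π k w)) (fun j => (s₀.comp p).qs (Q j)) ((s₀.comp p).map Lam)
      ((s₀.comp p).map Lam) K₂ := hK₂
    have hKp : h (s₀.map K) ((s₀.comp p).map K₀) ≤ ε / 2 := by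
      rw [Pj.comp_map, s₀.h_map]
      exact h2
    clear hK₂ hid g2
    generalize s₀.comp p = t at hK₂' hKp
    have hio : io (S := W') (fun k w => V k (t.π k w)) = t.map (io V) := (t.map_io V).symm
    have hKK : t.map K₀ ≤ K₂ := hleast W' t K₂ (by rw [← hio]; exact hK₂'.base) hK₂'.leaf
    have hd : h K₂ (t.map K₀) ≤ ε := by
      have e1 := h_triangle' K₂ (s₀.map K) (t.map K₀)
      linarith
    obtain ⟨W1, a, b, hm1, hq1, hs1⟩ := exists_am π t
    obtain ⟨U, c, d, hm2, hq2, hs2⟩ := exists_am (a.comp π') t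
    refine ⟨U, c.comp a, d.map K₂, ?_, ?_, ?_⟩
    · have e1 : (c.comp a).map (π'.map K₀) = d.map (t.map K₀) := by
        rw [← hm2, Pj.comp_map, Pj.comp_map]
      rw [e1]
      exact d.map_mono hKK
    · have e1 : (c.comp a).map (π'.map K₀) = d.map (t.map K₀) := by
        rw [← hm2, Pj.comp_map, Pj.comp_map]
      rw [e1, d.h_map]
      exact hd
    · have hrg : ((c.comp b).qs).comp t.qs = ((c.comp a).qs).comp π.qs := by
        apply RingHom.ext
        intro f
        show (c.comp b).qs (t.qs f) = (c.comp a).qs (π.qs f)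
        rw [Pj.comp_qs, Pj.comp_qs, ← hq1]
      have hrg' : (d.qs).comp t.qs = ((c.comp a).qs).comp π'.qs := by
        apply RingHom.ext
        intro f
        show d.qs (t.qs f) = (c.comp a).qs (π'.qs f)
        rw [← hq2, Pj.comp_qs, Pj.comp_qs]
      have e2 := hK₂'.trp (t.map Lam) e (fun i => t.qs (Y i)) (fun j => MvPolynomial.map t.qs (Φ j))
        (by rw [hio]; exact t.map_mono hVL) hK₂'.le1 (hRl.pull t) (fun j => map_PK t (hPK j))
        (fun j => by rw [hQ j, qs_eval]) U (c.comp b) d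
        (fun k w hw => by
          have a1 := hs1 k (c.π k w) (c.supp k w hw)
          have a2 := hs2 k w hw
          have a3 := hVV k (a.π k (c.π k w)) (a.supp k _ (c.supp k w hw))
          show V k (t.π k (b.π k (c.π k w))) = V k (t.π k (d.π k w))
          rw [← a1, ← a2]
          exact a3)
        (by
          rw [← hm2, Pj.comp_map, Pj.comp_map, ← hm1, hLL])
        (fun j => by
          rw [MvPolynomial.map_map, MvPolynomial.map_map, hrg, hrg', ← MvPolynomial.map_map, ← MvPolynomial.map_map,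
            hΦΦ j])
      have e3 : (fun j => (c.comp b).qs (t.qs (Q j))) = fun j => (c.comp a).qs (π.qs (Q j)) := by
        funext j
        exact RingHom.congr_fun hrg (Q j)
      rw [e3] at e2
      exact e2
  exact le_antisymm (main π π' hVV hLL hΦΦ)
    (main π' π (fun k w hw => (hVV k w hw).symm) hLL.symm (fun j => (hΦΦ j).symm))

end least

/-- the least structure in the form of helper95 -/
theorem stlmin_of {m : ℕ} (hF : Flat m) : Pool.Agent.Helper95.RIG.STLmin m := by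
  intro S α V hV Q
  obtain ⟨K, hK⟩ := exists_least (Q := Q) hF hV
  refine ⟨K, hK.base, hK.fn, hK.leaf, hK.least, fun n f hc => ?_⟩
  obtain ⟨e, Y, Φ, hY, hΦ, hQ, hL⟩ := hc
  intro W π π' hVV hf
  refine hK.agr (io V ⊔ vd f 1) e Y Φ le_sup_left hY hΦ hQ W π π' hVV ?_ (hL W π π' hVV hf)
  have e1 : π.map (io V) = π'.map (io V) := by
    rw [π.map_io, π'.map_io]
    exact io_congr_supp ((π.bdd_iff V).mpr hV) ((π'.bdd_iff V).mpr hV) hVV
  have e2 : (fun j => π.qs (f j)) = fun j => π'.qs (f j) := funext hf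
  rw [π.map_sup, π'.map_sup, ← π.qs_vd, ← π'.qs_vd, e1, e2]

end

end Pool.Agent.Helper56.STL
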