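import Pool.Agent.Helper56.STL.Tlf
import Pool.Agent.Helper56.STL.Bch
import Pool.Agent.Helper56.STL.Least

/-! THE STRUCTURE THEOREM FOR EXACT LEAVES over a literal base variable: from `GEO` (full literal forms are leaves) and
the inequality `vol ≤ H` for the system of the leaves over the base. -/

set_option autoImplicit false

namespace Pool.Agent.Helper56.STL

open Finset Filter Topology Matrix Pool.Agent.Helper69.RK Pool.Agent.Helper31.EC Pool.Agent.Helper31.EC.Sp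
open Pool.Agent.Helper40.EL Pool.Agent.Helper89.LX Pool.Agent.Helper3.LF Pool.Agent.Helper84.MT
open Pool.Agent.Helper14.MC Pool.Agent.Helper81.AD Pool.Agent.Helper95.RIG

noncomputable section

/-- GEO: a full literal form of a point is a leaf of the point -/
def GEO (M : ℕ) : Prop := ∀ (S : Sp) (D : ℕ) (Q : S.VV M) (F : LForm Q D), 1 ≤ D → F.v ≤ h (Q.dg 1) F.K →
  ALeaf F.K (fun j => QS.mk (TR.cor Q j))

variable {S : Sp} {m : ℕ}

theorem vd_cor (Q : S.VV m) {r : ℝ} (hr : r ≤ 1) : QS.vd (fun j => QS.mk (TR.cor Q j)) r = Q.dg r := by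
  rw [vd_mk _ hr]
  rfl

/-- a common structure of a family of leaves -/
structure FlatKr {α : ℕ → Type} (V : ∀ k, (S.F k).Ω → α k) (Q : Fin m → QS S) {r : ℕ} (A : Fin r → S.L) (K : S.L) :
    Prop where
  base : io V ≤ K
  fn : K ≤ io V ⊔ QS.vd Q 1
  le : ∀ i, K ≤ A i
  leaf : ALeaf K Q
  trp : Trp V Q K

/-- **FLATSYS**: the structure theorem for one system over the base -/
theorem flat_sys (hG : GEO m) {α : ℕ → Type} {V : ∀ k, (S.F k).Ω → α k} (hV : Bdd V) {Q : Fin m → QS S} {r : ℕ}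
    {A : Fin r → S.L} (hA : ∀ i, io V ≤ A i) {E : ℕ → ℕ} (s : MSys (ov V) m E (Fin r))
    (hs : ∀ j, QS.mk (TR.cor s.Q j) = oq V (Q j)) (hw : ∀ i, PLe ((s.lf i).win 0) (rp (oL V (A i)))) {D : ℕ}
    (hD : 1 ≤ D) {x : ∀ k, FD ((ov V).F k) (Mon m D)} (hx : s.IsCan D 0 x)
    (hv : vol s.Q D x ≤ H (up1 (lb x) (s.Q.dg 1))) : ∃ K : S.L, FlatKr V Q A K := by
  obtain ⟨F, hO, hle, hFv, hH⟩ := exists_LForm s.Q D (A := s.cnd 0) (i₀ := none) rfl hx.1
  have hfull : F.v ≤ h (s.Q.dg 1) F.K := hFv.le.trans (hv.trans (hH _))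
  have hlf := hG _ D s.Q F hD hfull
  have hQs : (fun j => QS.mk (TR.cor s.Q j)) = fun j => oq V (Q j) := funext hs
  obtain ⟨K, hVK, hK⟩ := oL_surj hV F.K
  refine ⟨K, hVK, ?_, fun i => ?_, ?_, ?_⟩
  · have h1 := F.K_le
    rw [← vd_cor s.Q le_rfl, hQs, oq_vd, ← hK, oL_le hV, sup_comm] at h1
    exact h1
  · rw [← oL_le' hV (hA i), hK]
    have h1 : PLe (rpI F.inf) ((s.lf i).win 0) := hle (some i)
    exact PLe_rp.mp ((rp_rpI F.inf).1.trans (h1.trans (hw i)))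
  · apply ALeaf.of_ov hV hVK
    rw [hK, ← hQs]
    exact hlf
  · intro Lam e Y Φ h1 h2 hY hΦ hQ W π π' hVV hLL hΦΦ
    have hX : Bdd (S := W) (fun k w => V k (π.π k w)) := (π.bdd_iff V).mpr hV
    have hX' : Bdd (S := W) (fun k w => V k (π'.π k w)) := (π'.bdd_iff V).mpr hV
    have hio : io (S := W) (fun k w => V k (π.π k w)) = π'.map (io V) := by
      rw [π'.map_io]
      exact io_congr_supp hX hX' hVV
    set p : Pj (ov (S := W) (fun k w => V k (π.π k w))) (ov V) := pov π V _ (fun _ _ _ => rfl) with hp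
    set p' : Pj (ov (S := W) (fun k w => V k (π.π k w))) (ov V) := pov π' V _ hVV with hp'
    have hpL : ∀ z : S.L, p.map (oL V z) = oL (S := W) (fun k w => V k (π.π k w)) (π.map z) :=
      fun z => pov_map π _ _ z
    have hpL' : ∀ z : S.L, p'.map (oL V z) = oL (S := W) (fun k w => V k (π.π k w)) (π'.map z) :=
      fun z => pov_map π' _ _ z
    have hpq : ∀ f : QS S, p.qs (oq V f) = oq (S := W) (fun k w => V k (π.π k w)) (π.qs f) := fun f => pov_qs π _ _ f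
    have hpq' : ∀ f : QS S, p'.qs (oq V f) = oq (S := W) (fun k w => V k (π.π k w)) (π'.qs f) :=
      fun f => pov_qs π' _ _ f
    have hr : (p.qs).comp (oq V) = (oq (S := W) (fun k w => V k (π.π k w))).comp π.qs := RingHom.ext hpq
    have hr' : (p'.qs).comp (oq V) = (oq (S := W) (fun k w => V k (π.π k w))).comp π'.qs := RingHom.ext hpq'
    obtain ⟨F', hF', hfull'⟩ := F.trp p p' hD hfull (Lam := oL V Lam) (by rw [← hK]; exact oL_mono V h2)
      (Y := fun i => oq V (Y i)) (Φ := fun j => MvPolynomial.map (oq V) (Φ j)) ((oq_Rl hV h1).mpr hY)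
      (fun j => (oq_PK hV h1).mpr (hΦ j)) (fun j => by rw [hs, hQ j, eval_hom])
      (by rw [hpL, hpL', hLL])
      (fun j => by
        rw [MvPolynomial.map_map, MvPolynomial.map_map, hr, hr', ← MvPolynomial.map_map, ← MvPolynomial.map_map, hΦΦ j])
    have h3 := hG _ D (p.vv s.Q) F' hD hfull'
    rw [hF', ← hK, hpL'] at h3
    have h4 : (fun j => QS.mk (TR.cor (p.vv s.Q) j)) =
        fun j => oq (S := W) (fun k w => V k (π.π k w)) (π.qs (Q j)) := by
      funext j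
      rw [← hpq, ← hs]
      rfl
    rw [h4] at h3
    exact ALeaf.of_ov hX (by rw [hio]; exact π'.map_mono hVK) h3

/-- THE SYSTEM OF A FAMILY OF EXACT LEAVES over the base, with all its windows -/
theorem exists_sys' {α : ℕ → Type} {V : ∀ k, (S.F k).Ω → α k} (hV : Bdd V) (Q : Fin m → QS S) {r : ℕ}
    {A : Fin r → S.L} (hA : ∀ i, io V ≤ A i) {e : Fin r → ℕ} (Y : ∀ i, Fin (e i) → QS S)
    (Φ : ∀ i, Fin m → MvPolynomial (Fin (e i)) (QS S)) (hY : ∀ i, QS.Rl (Y i) (A i)) (hΦ : ∀ i j, Φ i j ∈ QS.PK (A i))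
    (hQ : ∀ i j, Q j = MvPolynomial.eval (Y i) (Φ i j)) {g : ℕ} (hg1 : 1 ≤ g) (hge : ∀ i, e i ≤ g)
    (hd : ∀ i j, (Φ i j).totalDegree ≤ g) : ∃ s : MSys (ov V) m (lin g) (Fin r),
    (∀ j, QS.mk (TR.cor s.Q j) = oq V (Q j)) ∧ ∀ i, (s.lf i).e = e i ∧ ∀ c : ℝ, c ≤ 1 →
      PLe ((s.lf i).win c) (rp (oL V (A i ⊔ QS.vd (Y i) c))) ∧
      PLe (rp (oL V (A i ⊔ QS.vd (Y i) c))) ((s.lf i).win c) := by
  set Qv : (ov V).VV m := TR.vec (fun j => QS.rep (oq V (Q j))) with hQv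
  have hQc : ∀ j, QS.mk (TR.cor Qv j) = oq V (Q j) := fun j => QS.mk_rep (oq V (Q j))
  have key : ∀ i, ∃ l : Leaf (ov V) Qv (lin g), l.e = e i ∧ ∀ c : ℝ, c ≤ 1 →
      PLe (l.win c) (rp (oL V (A i ⊔ QS.vd (Y i) c))) ∧ PLe (rp (oL V (A i ⊔ QS.vd (Y i) c))) (l.win c) := by
    intro i
    obtain ⟨l, he, _, hwin⟩ := exists_leaf Qv (oL V (A i)) (fun a => oq V (Y i a))
      (fun j => MvPolynomial.map (oq V) (Φ i j)) (fun j => (oq_PK hV (hA i)).mpr (hΦ i j)) ((oq_Rl hV (hA i)).mpr (hY i))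
      (fun j => by rw [hQc, hQ i j, eval_hom]) hg1 (hge i) (fun j => (QS.totalDegree_map_le _ _).trans (hd i j))
    refine ⟨l, he, fun c hc => ?_⟩
    rw [oL_sup, ← oq_vd]
    exact hwin c hc
  choose lf hlf using key
  exact ⟨⟨Qv, lf⟩, hQc, hlf⟩

theorem exists_sys {α : ℕ → Type} {V : ∀ k, (S.F k).Ω → α k} (hV : Bdd V) (Q : Fin m → QS S) {r : ℕ}
    {A : Fin r → S.L} (hA : ∀ i, io V ≤ A i) (hl : ∀ i, PLeaf (A i) Q) : ∃ (g : ℕ) (s : MSys (ov V) m (lin g) (Fin r)),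
    (∀ j, QS.mk (TR.cor s.Q j) = oq V (Q j)) ∧ ∀ i, PLe ((s.lf i).win 0) (rp (oL V (A i))) ∧
      PLe (rp (oL V (A i))) ((s.lf i).win 0) := by
  choose e Y Φ hY hΦ hQ using hl
  set g : ℕ := 1 + (univ.sup fun i => e i + univ.sup fun j => (Φ i j).totalDegree) with hg
  have hg1 : 1 ≤ g := by omega
  have hsup : ∀ i, e i + (univ.sup fun j => (Φ i j).totalDegree) ≤ g := fun i => by
    have h1 := Finset.le_sup (f := fun i => e i + univ.sup fun j => (Φ i j).totalDegree) (mem_univ i)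
    beta_reduce at h1
    omega
  have hge : ∀ i, e i ≤ g := fun i => by
    have := hsup i
    omega
  have hd : ∀ i j, (Φ i j).totalDegree ≤ g := fun i j => by
    have h1 := hsup i
    have h2 := Finset.le_sup (f := fun j => (Φ i j).totalDegree) (mem_univ j)
    beta_reduce at h2
    omega
  obtain ⟨s, hs, hw⟩ := exists_sys' hV Q hA Y Φ hY hΦ hQ hg1 hge hd
  refine ⟨g, s, hs, fun i => ?_⟩
  have h1 := (hw i).2 0 zero_le_one
  have h2 : A i ⊔ QS.vd (Y i) 0 = A i := by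
    apply sup_eq_left.mpr
    unfold QS.vd
    apply Finset.sup_le
    intro a _
    rw [QS.dg_nonpos _ le_rfl]
    exact bot_le
  rw [h2] at h1
  exact h1

/-- **THE STRUCTURE THEOREM FOR TWO EXACT LEAVES** -/
theorem flat_of_ST (hG : GEO m) (hST : ST m) : Flat m := by
  intro S α V hV Q A₁ A₂ h1 h2 l1 l2
  obtain ⟨g, s, hs, hw⟩ := exists_sys hV Q (A := ![A₁, A₂]) (by
    intro i
    fin_cases i
    · exact h1
    · exact h2) (by
    intro i
    fin_cases i
    · exact l1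
    · exact l2)
  obtain ⟨D₁, hD₁⟩ := hST g 2
  obtain ⟨x, hx⟩ := s.exists_can (max D₁ 1) 0
  obtain ⟨K, hK⟩ := flat_sys hG hV (A := ![A₁, A₂]) (by
    intro i
    fin_cases i
    · exact h1
    · exact h2) s hs (fun i => (hw i).1) (le_max_right D₁ 1) hx (hD₁ _ (le_max_left _ _) _ s x hx)
  exact ⟨K, hK.base, hK.fn, hK.le 0, hK.le 1, hK.leaf, hK.trp⟩

/-- flat structures on an extension pass to other points of a literal leaf of the space -/
theorem FlatKr.trp_down {α : ℕ → Type} {V : ∀ k, (S.F k).Ω → α k} {Q : Fin m → QS S} {T : Sp} (p : Pj T S) {K : T.L}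
    (hK : Trp (fun k w => V k (p.π k w)) (fun j => p.qs (Q j)) K) {Lam : S.L} (hV : Bdd V) (h1 : io V ≤ Lam)
    (h2 : K ≤ p.map Lam) {e : ℕ} {Y : Fin e → QS S} {Φ : Fin m → MvPolynomial (Fin e) (QS S)} (hY : QS.Rl Y Lam)
    (hΦ : ∀ j, Φ j ∈ QS.PK Lam) (hQ : ∀ j, Q j = MvPolynomial.eval Y (Φ j)) {U : Sp} (a : Pj U T) (π' : Pj U S)
    (hVV : ∀ k w, (U.F k).μ w ≠ 0 → V k (p.π k (a.π k w)) = V k (π'.π k w))
    (hLL : a.map (p.map Lam) = π'.map Lam)
    (hΦΦ : ∀ j, MvPolynomial.map a.qs (MvPolynomial.map p.qs (Φ j)) = MvPolynomial.map π'.qs (Φ j)) :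
    ALeaf (a.map K) (fun j => π'.qs (Q j)) := by
  obtain ⟨U', r, s, hm, hq, hs⟩ := exists_am π' p
  have e1 := hK (p.map Lam) e (fun i => p.qs (Y i)) (fun j => MvPolynomial.map p.qs (Φ j))
    (by rw [← p.map_io]; exact p.map_mono h1) h2 (hY.pull p) (fun j => QS.map_PK p (hΦ j))
    (fun j => by beta_reduce; rw [hQ j, QS.qs_eval]) U' s (r.comp a)
    (fun k w hw => by
      have a1 := hs k w hw
      have a2 := hVV k (r.π k w) (r.supp k w hw)
      show V k (p.π k (s.π k w)) = V k (p.π k (a.π k (r.π k w)))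
      rw [← a1, a2])
    (by rw [← hm, Pj.comp_map, hLL])
    (fun j => by
      have hr : (s.qs).comp p.qs = (r.qs).comp π'.qs := RingHom.ext fun f => (hq f).symm
      have hr' : (r.comp a).qs = (r.qs).comp a.qs := RingHom.ext fun f => Pj.comp_qs r a f
      rw [MvPolynomial.map_map, hr, ← MvPolynomial.map_map, hr', ← MvPolynomial.map_map, hΦΦ j])
  apply ALeaf.limit'
  intro ε hε
  refine ⟨U', r, r.map (a.map K), le_rfl, by rw [h_zero le_rfl]; exact hε.le, ?_⟩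
  rw [Pj.comp_map] at e1
  have e2 : (fun j => s.qs (p.qs (Q j))) = fun j => r.qs (π'.qs (Q j)) := funext fun j => (hq _).symm
  rwa [e2] at e1

/-- **STL(m)** from the structure theorem `ST m` and `GEO m` -/
theorem stlmin_of_ST (hG : GEO m) (hST : ST m) : Pool.Agent.Helper95.RIG.STLmin m := stlmin_of (flat_of_ST hG hST)

end

end Pool.Agent.Helper56.STL
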