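import Pool.Agent.Helper56.STL.Lit
import Pool.Agent.Helper14.MC.Vopt
import Pool.Agent.Helper89.LX.Njg

/-! LITERAL FORMS OF A POINT: `LForm Q D` = a literal form of degree `D` which is small at the point `Q`; its values are
an information `K` of the space with `K ≤ Q.dg 1`; the count `h (Q.dg 1) K ≤ vol`; full forms. The optimal form of a
family of conditions is a literal form, known to every condition, of the same volume. -/

set_option autoImplicit false

namespace Pool.Agent.Helper56.STL

open Finset Filter Topology Matrix Pool.Agent.Helper69.RK Pool.Agent.Helper31.EC Pool.Agent.Helper31.EC.Sp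
open Pool.Agent.Helper40.EL Pool.Agent.Helper89.LX Pool.Agent.Helper3.LF Pool.Agent.Helper84.MT
open Pool.Agent.Helper14.MC

noncomputable section

variable {S : Sp} {M D : ℕ}

theorem gaq_mon (Q : S.VV M) (D : ℕ) : MonG (gaq Q D).φ := by
  intro k ω A B c _ h
  show phi (S.dl 1 k) A (Q.v k ω) ≤ c * phi (S.dl 1 k) B (Q.v k ω)
  rw [← phi_smul]
  exact phi_mono _ (fun y => by
    have := h y
    rw [← qf_smul'] at this
    exact this) _

/-- literal forms at the point `Q` -/
structure LForm (Q : S.VV M) (D : ℕ) where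
  G : ∀ k, (S.F k).Ω → Matrix (Mon M D) (Mon M D) ℝ
  vb : S.VB (fun k => Setoid.ker (G k))
  ad : (gaq Q D).Adf (fun _ : Unit => pcd Q) (fun k => litFD (G k))

namespace LForm

variable {Q : S.VV M} (F : LForm Q D)

/-- the label with the form -/
def x : ∀ k, FD (S.F k) (Mon M D) := fun k => litFD (F.G k)

/-- the partition into the values of the form -/
def inf : S.Inf := ⟨fun k => Setoid.ker (F.G k), F.vb⟩

/-- the partition into the values of the form, as an information -/
def K : S.L := cl F.inf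

/-- the volume of the hull -/
def v : ℝ := vol Q D F.x

theorem leak_eq (A : Part S) (k : ℕ) : (F.x k).l.leak (A k) = h (rpI F.inf k) (A k) := litL_leak _ _

theorem PLe_of_leak {A : Part S} (hA : Nul S (fun k => (F.x k).l.leak (A k))) : PLe (rpI F.inf) A := by
  have h1 : (fun k => h (rpI F.inf k) (A k)) = fun k => (F.x k).l.leak (A k) := by
    funext k; exact (F.leak_eq A k).symm
  unfold PLe
  rw [h1]
  exact hA

theorem _root_.Pool.Agent.Helper56.STL.adf_leak {ι κ : Type} [Fintype ι] [DecidableEq ι] {Φ : Gau S ι} {A : κ → Part S}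
    {x : ∀ k, FD (S.F k) ι} (hx : Φ.Adf A x) (i : κ) : Nul S (fun k => (x k).l.leak (A i k)) := by
  unfold Nul
  rw [Metric.tendsto_nhds]
  intro ε hε
  have h2 : 0 < ε / 2 := by linarith
  filter_upwards [hx _ h2] with k hk
  have hn := (S.F k).pos
  rw [Real.dist_eq, sub_zero, abs_of_nonneg (div_nonneg (FLab.leak_nonneg _ _) hn.le), div_lt_iff₀ hn]
  have := hk.1 i
  nlinarith

/-- the values of the form are a function of the point -/
theorem K_le : F.K ≤ Q.dg 1 := by
  have h1 := F.PLe_of_leak (adf_leak F.ad ())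
  have h2 := h1.trans (pcd_rp Q).2
  have h3 := (rp_rpI F.inf).1.trans h2
  exact PLe_rp.mp h3

/-- entropy over the literal label -/
theorem H_lit (y : S.L) : H (up1 (lb F.x) y) = h y F.K := by
  induction y using cl_ind with | _ A
  rw [H_up1_cl]
  show ul _ = h (cl A) (cl F.inf)
  rw [h_cl]
  congr 1
  funext k
  rw [← h_rpI]
  have h1 : h ((F.x k).l.p.map (rpI A k)) (F.x k).l.v = h (rpI A k) (rpI F.inf k) := by
    have h2 : (F.x k).l.v = (F.x k).l.p.map (rpI F.inf k) := rfl
    rw [h2]
    exact (F.x k).l.p.h_map _ _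
  exact congrArg (fun r => r / (S.F k).n) h1

/-- COUNT -/
theorem cnt (hD : 1 ≤ D) : h (Q.dg 1) F.K ≤ F.v := by
  rw [← F.H_lit]
  exact cnt_vol Q hD F.x F.ad

end LForm

/-- THE OPTIMAL FORM OF A FAMILY OF CONDITIONS AS A LITERAL FORM -/
theorem exists_LForm {κ : Type} (Q : S.VV M) (D : ℕ) {A : κ → Part S} {i₀ : κ} (hi : A i₀ = pcd Q)
    {x : ∀ k, FD (S.F k) (Mon M D)} (hx : (gaq Q D).Optf A x) :
    ∃ F : LForm Q D, (gaq Q D).Optf A F.x ∧ (∀ i, PLe (rpI F.inf) (A i)) ∧ F.v = vol Q D x ∧
      ∀ y : S.L, H (up1 (lb x) y) ≤ h y F.K := by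
  obtain ⟨C, hC, G, hG⟩ := lit (gaq Q D) (gaq_mon Q D) hx
  have hvb : S.VB (fun k => Setoid.ker (G k)) := by
    refine ⟨C, ?_⟩
    filter_upwards [hG 1 one_pos] with k hk ω hω
    obtain ⟨X, hX, hX'⟩ := hk.val
    refine le_trans ?_ hX
    have h1 : nv (S.F k) (Setoid.ker (G k)) ω ≤ X.card := by
      classical
      apply nvf_le_card _ _ _ _ X.card
        (fun i => if hi : ∃ ω', G k ω' = (X.equivFin.symm i : Matrix (Mon M D) (Mon M D) ℝ) then
          Quotient.mk (Setoid.ker (G k)) hi.choose else Quotient.mk _ ω)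
      intro ω' h1 _
      refine ⟨X.equivFin ⟨G k ω', hX' ω' h1⟩, ?_⟩
      have hex : ∃ ω'', G k ω'' = (X.equivFin.symm (X.equivFin ⟨G k ω', hX' ω' h1⟩) :
          Matrix (Mon M D) (Mon M D) ℝ) := by
        rw [Equiv.symm_apply_apply]
        exact ⟨ω', rfl⟩
      rw [dif_pos hex]
      apply Quotient.sound
      show G k ω' = G k hex.choose
      rw [hex.choose_spec, Equiv.symm_apply_apply]
    exact_mod_cast h1
  have hO : (gaq Q D).Optf A (fun k => litFD (G k)) := lit_Optf (gaq Q D) (gaq_mon Q D) hx hG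
  have hA : (gaq Q D).Adf (fun _ : Unit => pcd Q) (fun k => litFD (G k)) := by
    intro η hη
    filter_upwards [hO.1 η hη] with k hk
    refine ⟨fun _ => ?_, hk.2⟩
    have := hk.1 i₀
    rwa [hi] at this
  refine ⟨⟨G, hvb, hA⟩, hO, fun i => ?_, ?_, fun y => ?_⟩
  · exact LForm.PLe_of_leak _ (adf_leak hO.1 i)
  · exact vol_opt_eq hO hx
  · induction y using cl_ind with | _ B
    rw [H_up1_cl]
    show ul _ ≤ h (cl B) (cl _)
    rw [h_cl]
    have hU : UB (fun k => h ((x k).l.p.map (rpI B k)) (x k).l.v / (S.F k).n) := by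
      refine UB.sandwich (UB_const 0) (rpI_Bd B) ?_ ?_
      · exact Eventually.of_forall fun k => div_nonneg (h_nonneg _ _) (S.F k).pos.le
      · refine Eventually.of_forall fun k => div_le_div_of_nonneg_right ?_ (S.F k).pos.le
        exact (h_le_H _ _).trans_eq ((x k).l.p.H_map _)
    apply le_of_forall_pos_le_add
    intro ε hε
    have h1 : ∀ᶠ k in UF, h ((x k).l.p.map (rpI B k)) (x k).l.v / (S.F k).n ≤
        S.rt B.1 (fun k => Setoid.ker (G k)) k + ε := by
      filter_upwards [hG ε hε] with k hk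
      have hn := (S.F k).pos
      have e1 : S.rt B.1 (fun k => Setoid.ker (G k)) k = h (rpI B k) (fc (Setoid.ker (G k))) / (S.F k).n :=
        (h_rpI B ⟨_, hvb⟩ k).symm
      rw [e1, div_add' _ _ _ hn.ne', div_le_div_iff_of_pos_right hn]
      have h2 := h_triangle' ((x k).l.p.map (rpI B k)) ((x k).l.p.map (fc (Setoid.ker (G k)))) (x k).l.v
      have h3 : h ((x k).l.p.map (rpI B k)) ((x k).l.p.map (fc (Setoid.ker (G k)))) =
          h (rpI B k) (fc (Setoid.ker (G k))) := (x k).l.p.h_map _ _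
      have h4 := hk.inf
      linarith
    have t1 := ul_tendsto hU
    have t2 := (ul_tendsto (UB_rt B (fun k => Setoid.ker (G k)))).add_const ε
    exact le_of_tendsto_of_tendsto t1 t2 h1

end

end Pool.Agent.Helper56.STL
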