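import Pool.Agent.Helper56.STL.Sto
import Pool.Agent.Helper76.RL.Gst

/-! ROW STL, closed with helper76's GEO. -/

set_option autoImplicit false

namespace Pool.Agent.Helper56.STL

open Pool.Agent.Helper31.EC Pool.Agent.Helper84.MT Pool.Agent.Helper95.RIG

/-- full literal forms are leaves (helper76) -/
theorem geo (M : ℕ) : GEO M := fun _ _ _ F hD hfull => F.aleaf hD hfull

/-- the structure theorem at the exact level -/
theorem stlmin {m : ℕ} (hST : ST m) : STLmin m := stlmin_of_ST (geo m) hST

theorem stl {m : ℕ} (hST : ST m) : STL m := stl_of_min (stlmin hST)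

end Pool.Agent.Helper56.STL
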