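import Pool.Agent.Helper89.MG.Rnd
import Pool.Agent.Helper84.MT.Def
import Pool.Agent.Helper59.EV.Cap

/-! LITERAL FORMS. The optimal form of a family of conditions is, up to `2 ^ o(n)`, a function of the point of the
space; the partition into its values is an information of the space which is known to the label, hence to every
condition without leak. -/

set_option autoImplicit false

namespace Pool.Agent.Helper56.STL

open Finset Filter Topology Matrix Pool.Agent.Helper69.RK Pool.Agent.Helper31.EC Pool.Agent.Helper40.EL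
open Pool.Agent.Helper89.LX
open Pool.Agent.Helper95.LF (PdM NearM round_mat values_card)

noncomputable section

/-- the label of a partition of the space itself -/
def litL {F : FSp} (V : Setoid F.Ω) : FLab F where
  T := F
  p := (FLab.triv F).p
  hn := rfl
  V := V

theorem litL_v {F : FSp} (V : Setoid F.Ω) : (litL V).v = (litL V).p.map (fc V) := rfl

theorem litL_leak {F : FSp} (V : Setoid F.Ω) (x : FL F) : (litL V).leak x = h (fc V) x := by
  have h0 := I_eq (litL V).v (litL V).p.top ((litL V).p.map x)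
  have h1 : (litL V).v ≤ (litL V).p.top := (litL V).p.map_le_top (fc V)
  rw [h_zero (h1.trans le_sup_left), sub_zero] at h0
  exact h0.trans ((litL V).p.h_map (fc V) x)

variable {ι : Type} [Fintype ι] [DecidableEq ι] {κ : Type} {S : Sp} (Φ : Gau S ι)

/-- quality `η` of a literal form at the index `k` -/
structure LitG (x : ∀ k, FD (S.F k) ι) (C η : ℝ) (k : ℕ) (G : (S.F k).Ω → Matrix ι ι ℝ) : Prop where
  pd : ∀ ω, Cpd (Φ.cp k) (G ω)
  near : (x k).l.T.pb (fun w => ¬ Nr (η * (S.F k).n) ((x k).g w) (G ((x k).l.p.π w))) ≤ η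
  inf : h ((x k).l.p.map (fc (Setoid.ker G))) (x k).l.v ≤ η * (S.F k).n
  val : ∃ X : Finset (Matrix ι ι ℝ), (X.card : ℝ) ≤ 2 ^ (C * (S.F k).n) ∧ ∀ ω, (S.F k).μ ω ≠ 0 → G ω ∈ X

omit [DecidableEq ι] in
theorem Nr.mono {a b : ℝ} (hab : a ≤ b) {A A' : Matrix ι ι ℝ} (hA : Psd A) (hA' : Psd A') (h : Nr a A A') : Nr b A A' := by
  have h1 : (2 : ℝ) ^ a ≤ 2 ^ b := Real.rpow_le_rpow_of_exponent_le (by norm_num) hab
  exact ⟨fun y => (h.1 y).trans (mul_le_mul_of_nonneg_right h1 (hA'.2 y)),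
    fun y => (h.2 y).trans (mul_le_mul_of_nonneg_right h1 (hA.2 y))⟩

/-- the partition of the space into the values of a form, seen on the label -/
theorem map_ker {T F : FSp} (p : FPj T F) {α : Type} (G : F.Ω → α) :
    p.map (fc (Setoid.ker G)) = (fc (Setoid.ker fun w => G (p.π w)) : FL T) := rfl

/-- conditioning on the label, with the base -/
theorem v_eq_ker {F : FSp} (V : Setoid F.Ω) :
    (fc (Setoid.ker fun w => ((Quotient.mk V w, Quotient.mk F.Z w) : Quotient V × Quotient F.Z)) : FL F) = fc V := by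
  apply le_antisymm
  · apply fc_le
    intro w w' _ _ hZ hV
    exact Prod.ext (Quotient.sound hV) (Quotient.sound hZ)
  · apply fc_le
    intro w w' _ _ _ hV
    exact Quotient.exact (congrArg Prod.fst hV)

omit [DecidableEq ι] in
/-- two forms of a label at one point of the space are close, so the scaled rounding `R` of one of them is close to
the other one -/
theorem near_round {a b : ℝ} {g g' Q : Matrix ι ι ℝ} (h0 : Psd g') (h1 : Nr a g g') (h2 : NearM (b * Real.log 2) g' Q) (hb : 0 ≤ b) :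
    Nr (a + 2 * b) g ((2 : ℝ) ^ b • Q) ∧ (∀ y, qf g' y ≤ qf ((2 : ℝ) ^ b • Q) y) := by
  have e0 : Real.exp (b * Real.log 2) = 2 ^ b := (two_rpow_exp b).symm
  have h3 : ∀ y, qf g' y ≤ 2 ^ b * qf Q y := fun y => by
    have := h2.1 y
    rwa [e0] at this
  have h4 : ∀ y, qf Q y ≤ 2 ^ b * qf g' y := fun y => by
    have := h2.2 y
    rwa [e0] at this
  refine ⟨⟨fun y => ?_, fun y => ?_⟩, fun y => ?_⟩
  · rw [qf_smul', Real.rpow_add (by norm_num), mul_assoc]
    have h5 := h1.1 y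
    have h6 : (1 : ℝ) ≤ 2 ^ (2 * b) := Real.one_le_rpow (by norm_num) (by linarith)
    refine h5.trans (mul_le_mul_of_nonneg_left ?_ (by positivity))
    exact (h3 y).trans (le_mul_of_one_le_left ((h0.2 y).trans (h3 y)) h6)
  · rw [qf_smul']
    have h5 := h1.2 y
    have e1 : (2 : ℝ) ^ (a + 2 * b) = 2 ^ b * (2 ^ b * 2 ^ a) := by
      rw [← Real.rpow_add (by norm_num), ← Real.rpow_add (by norm_num)]
      congr 1; ring
    rw [e1, mul_assoc]
    apply mul_le_mul_of_nonneg_left _ (by positivity)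
    rw [mul_assoc]
    exact (h4 y).trans (mul_le_mul_of_nonneg_left h5 (by positivity))
  · rw [qf_smul']
    exact h3 y

/-- a literal form of any quality -/
theorem lit1 {A : κ → Part S} (hφ : MonG Φ.φ) {x : ∀ k, FD (S.F k) ι} (hx : Φ.Optf A x) :
    ∃ C : ℝ, 0 ≤ C ∧ ∀ e : ℝ, 0 < e → ∃ G : ∀ k, (S.F k).Ω → Matrix ι ι ℝ, ∀ᶠ k in UF, LitG Φ x C e k (G k) := by
  classical
  obtain ⟨C1, hC10, hC1⟩ := Φ.card_cap
  obtain ⟨C0, N0, hC0, hr⟩ := round_mat ι
  refine ⟨4 * C1 + 2, by positivity, fun e he => ?_⟩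
  set N : ℕ := N0 + 1 with hN
  have hNpos : (0 : ℝ) < N := by rw [hN]; positivity
  set e1 : ℝ := min e 1 with he1
  have he1p : 0 < e1 := lt_min he one_pos
  have he1e : e1 ≤ e := min_le_left _ _
  have he11 : e1 ≤ 1 := min_le_right _ _
  set e0 : ℝ := e1 / (2 * C0 + 2) with he0d
  have he0 : 0 < e0 := by positivity
  have hsum : e0 + 2 * (C0 * e0) + e0 = e1 := by
    rw [he0d]; field_simp; ring
  have hl2 : 0 < Real.log 2 := Real.log_pos (by norm_num)
  set L : ℕ → ℝ := fun k => max 1 (e0 * (S.F k).n * Real.log 2) with hL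
  choose Q hQ1 hQ2' using fun k => hr (L k) (le_max_left _ _)
  have hQ2 : ∀ k, ∀ A, PdM A → ∃ X : Finset (Matrix ι ι ℝ), X.card ≤ N ∧ ∀ A', PdM A' → NearM (L k) A A' → Q k A' ∈ X := by
    intro k A hA
    obtain ⟨X, hX, hX'⟩ := hQ2' k A hA
    exact ⟨X, hX.trans (Nat.le_succ _), hX'⟩
  choose c hc1 hc2 using fun k => ((x k).l.am (x k).l).agree
    (fun w w' => Nr (e0 * (S.F k).n) ((x k).g w) ((x k).g w'))
  -- the events
  set E : ∀ k, (x k).l.T.Ω → Prop := fun k w => Nr (e0 * (S.F k).n) ((x k).g w) ((x k).g (c k ((x k).l.p.π w))) with hE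
  set E' : ∀ k, (x k).l.T.Ω → Prop := fun k w => Φ.φ k ((x k).l.p.π w) ((x k).g w) ≤ 2 ^ (e0 * (S.F k).n) with hE'
  have t1 : Tendsto (fun k => (x k).l.T.pb (fun w => ¬ E k w)) UF (𝓝 0) := by
    refine tendsto_of_tendsto_of_tendsto_of_le_of_le tendsto_const_nhds (Gau.Optf.self_near Φ hx e0 he0)
      (fun k => FSp.pb_nonneg _ _) (fun k => ?_)
    have h1 := (x k).l.T.pb_add_compl (E k)
    have h2 := ((x k).l.am (x k).l).sp.pb_add_compl (fun w => Nr (e0 * (S.F k).n) ((x k).g w.1) ((x k).g w.2))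
    have h3 := hc2 k
    have h4 : (x k).l.T.pb (E k) = (x k).l.T.pb (fun w => Nr (e0 * (S.F k).n) ((x k).g w)
      ((x k).g (c k (((x k).l.am (x k).l).f w)))) := rfl
    rw [← h4] at h3
    linarith
  have t2 : Tendsto (fun k => (x k).l.T.pb (fun w => ¬ E' k w)) UF (𝓝 0) := by
    rw [Metric.tendsto_nhds]
    intro δ hδ
    have hη : 0 < min (δ / 2) e0 := lt_min (by linarith) he0
    filter_upwards [hx.1 _ hη] with k hk
    rw [Real.dist_eq, sub_zero, abs_of_nonneg ((x k).l.T.pb_nonneg _)]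
    have h1 : (x k).l.T.pb (fun w => ¬ E' k w) ≤
        (x k).l.T.pb (fun ω => ¬ Φ.φ k ((x k).l.p.π ω) ((x k).g ω) ≤ 2 ^ (min (δ / 2) e0 * (S.F k).n)) := by
      apply FSp.pb_mono
      intro w _ h2 h3
      apply h2
      refine h3.trans (Real.rpow_le_rpow_of_exponent_le (by norm_num) ?_)
      exact mul_le_mul_of_nonneg_right (min_le_right _ _) (S.F k).pos.le
    have h2 := hk.2.2.1
    have h3 : min (δ / 2) e0 ≤ δ / 2 := min_le_left _ _
    linarith
  set R : ∀ k, (S.F k).Ω → Matrix ι ι ℝ := fun k ω =>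
    (2 : ℝ) ^ (C0 * e0 * (S.F k).n) • Q k ((x k).g (c k ω)) with hR
  set G : ∀ k, (S.F k).Ω → Matrix ι ι ℝ := fun k ω => if Cpd (Φ.cp k) (R k ω) then R k ω else 1 with hG
  -- the sum of the bad probabilities is small
  have t3 := t1.add t2
  rw [add_zero] at t3
  have hbad : Tendsto (fun k => (x k).l.T.pb (fun w => ¬ (E k w ∧ E' k w))) UF (𝓝 0) := by
    refine tendsto_of_tendsto_of_tendsto_of_le_of_le tendsto_const_nhds t3
      (fun k => FSp.pb_nonneg _ _) (fun k => ?_)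
    refine le_trans (FSp.pb_mono _ (E' := fun w => ¬ E k w ∨ ¬ E' k w) ?_) (pb_or _ _ _)
    intro w _ h1
    by_contra h2
    rw [not_or, not_not, not_not] at h2
    exact h1 h2
  have hnL : ∀ᶠ k in UF, L k = e0 * (S.F k).n * Real.log 2 := by
    filter_upwards [S.lim.eventually (eventually_ge_atTop (1 / (e0 * Real.log 2)))] with k hk
    rw [hL]
    apply max_eq_right
    rw [div_le_iff₀ (by positivity)] at hk
    linarith
  have hM : ∀ᶠ k in UF, (N : ℝ) * Real.exp (C1 * ((S.F k).n + 1)) + 1 ≤ 2 ^ ((4 * C1 + 2) * (S.F k).n) := by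
    filter_upwards [S.lim.eventually (eventually_ge_atTop (max 1 (Real.logb 2 (N + 1))))] with k hk
    have hk1 : 1 ≤ (S.F k).n := (le_max_left _ _).trans hk
    have hk2 : Real.logb 2 (N + 1) ≤ (S.F k).n := (le_max_right _ _).trans hk
    have h1 : Real.exp (C1 * ((S.F k).n + 1)) ≤ 2 ^ (4 * C1 * (S.F k).n) := by
      rw [two_rpow_exp]
      apply Real.exp_le_exp.mpr
      have h6 : (1 : ℝ) / 2 < Real.log 2 := by
        have := Real.log_two_gt_d9
        linarith
      have h7 : C1 * ((S.F k).n + 1) ≤ C1 * (2 * (S.F k).n) := mul_le_mul_of_nonneg_left (by linarith) hC10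
      have h8 : C1 * (2 * (S.F k).n) ≤ 4 * C1 * (S.F k).n * Real.log 2 := by
        have h9 : 0 ≤ C1 * (S.F k).n := mul_nonneg hC10 (by linarith)
        nlinarith
      exact h7.trans h8
    have h2 : (N : ℝ) + 1 ≤ 2 ^ ((S.F k).n) := by
      have h3 := Real.rpow_le_rpow_of_exponent_le (by norm_num : (1 : ℝ) ≤ 2) hk2
      rwa [Real.rpow_logb (by norm_num) (by norm_num) (by positivity)] at h3
    have h3 : (1 : ℝ) ≤ 2 ^ (4 * C1 * (S.F k).n) := Real.one_le_rpow (by norm_num) (by positivity)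
    have h4 : (2 : ℝ) ^ ((4 * C1 + 2) * (S.F k).n) = 2 ^ (4 * C1 * (S.F k).n) * (2 ^ ((S.F k).n) * 2 ^ ((S.F k).n)) := by
      rw [← Real.rpow_add (by norm_num), ← Real.rpow_add (by norm_num)]
      congr 1; ring
    have h5 : (1 : ℝ) ≤ 2 ^ ((S.F k).n) := Real.one_le_rpow (by norm_num) (by linarith)
    rw [h4]
    calc (N : ℝ) * Real.exp (C1 * ((S.F k).n + 1)) + 1 ≤ N * 2 ^ (4 * C1 * (S.F k).n) + 2 ^ (4 * C1 * (S.F k).n) :=
          add_le_add (mul_le_mul_of_nonneg_left h1 hNpos.le) h3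
      _ = 2 ^ (4 * C1 * (S.F k).n) * (N + 1) := by ring
      _ ≤ 2 ^ (4 * C1 * (S.F k).n) * (2 ^ ((S.F k).n) * 2 ^ ((S.F k).n)) := by
          apply mul_le_mul_of_nonneg_left _ (by positivity)
          nlinarith
  have hI : ∀ᶠ k in UF, Real.logb 2 ((N + 1 : ℕ) : ℝ) + (x k).l.T.pb (fun w => ¬ E k w) * ((4 * C1 + 2) * (S.F k).n) + 1 ≤
      e * (S.F k).n := by
    have a1 := (S.div_n_tendsto (Real.logb 2 ((N + 1 : ℕ) : ℝ) + 1)).add (t1.mul_const (4 * C1 + 2))
    rw [zero_mul, add_zero] at a1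
    filter_upwards [a1.eventually (gt_mem_nhds he)] with k hk
    have hn := (S.F k).pos
    have h1 := mul_lt_mul_of_pos_right hk hn
    have h2 : ((Real.logb 2 ((N + 1 : ℕ) : ℝ) + 1) / (S.F k).n + (x k).l.T.pb (fun w => ¬ E k w) * (4 * C1 + 2)) *
        (S.F k).n = Real.logb 2 ((N + 1 : ℕ) : ℝ) + (x k).l.T.pb (fun w => ¬ E k w) * ((4 * C1 + 2) * (S.F k).n) + 1 := by
      field_simp; ring
    linarith
  refine ⟨G, ?_⟩
  filter_upwards [hx.1 1 one_pos, hnL, Φ.cap, hbad.eventually (gt_mem_nhds he1p), hM, hI] with k hk hLk hcap hb hMk hIk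
  have hn := (S.F k).pos
  have hcpd : ∀ w, (x k).l.T.μ w ≠ 0 → Cpd (Φ.cp k) ((x k).g w) := fun w hw => (hk.2.1 w hw).1
  -- on the good event the scaled rounding is between the identity and the cap, and near
  have hgood : ∀ w, (x k).l.T.μ w ≠ 0 → E k w → E' k w →
      Nr (e1 * (S.F k).n) ((x k).g w) (G k ((x k).l.p.π w)) := by
    intro w hw hEw hE'w
    have a1 := hcpd w hw
    have a2 := hcpd _ (hc1 k w hw).2
    have a3 := (hQ1 k _ a2.pdM).2
    have e2 : C0 * L k = C0 * e0 * (S.F k).n * Real.log 2 := by rw [hLk]; ring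
    rw [e2] at a3
    have a4 := near_round a2.psd hEw a3 (by positivity)
    have a5 : Cpd (Φ.cp k) (R k ((x k).l.p.π w)) := by
      refine ⟨?_, fun y => (a2.2.1 y).trans (a4.2 y), fun y => ?_⟩
      · show ((2 : ℝ) ^ (C0 * e0 * (S.F k).n) • Q k ((x k).g (c k ((x k).l.p.π w)))).IsSymm
        exact (hQ1 k _ a2.pdM).1.1.smul _
      · have b1 : PdM (R k ((x k).l.p.π w)) := by
          refine pdM_of_one_le ((hQ1 k _ a2.pdM).1.1.smul _) (fun y => (a2.2.1 y).trans (a4.2 y))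
        have b2 := hcap ((x k).l.p.π w) ((x k).l.p.supp w hw) _ b1 y
        refine b2.trans ?_
        apply mul_le_mul_of_nonneg_right _ (dot_self_nonneg y)
        have b3 := hφ k ((x k).l.p.π w) (R k ((x k).l.p.π w)) ((x k).g w) _ (by positivity) a4.1.2
        have b4 : Φ.φ k ((x k).l.p.π w) (R k ((x k).l.p.π w)) ≤ 2 ^ ((S.F k).n) := by
          refine b3.trans ((mul_le_mul_of_nonneg_left hE'w (by positivity)).trans ?_)
          rw [← Real.rpow_add (by norm_num)]
          apply Real.rpow_le_rpow_of_exponent_le (by norm_num)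
          have : (e0 + 2 * (C0 * e0) + e0) * (S.F k).n ≤ 1 * (S.F k).n :=
            mul_le_mul_of_nonneg_right (by rw [hsum]; exact he11) hn.le
          linarith
        unfold Gau.cp
        rw [add_mul, one_mul, Real.rpow_add (by norm_num)]
        exact mul_le_mul_of_nonneg_left b4 (by positivity)
    have a6 : G k ((x k).l.p.π w) = R k ((x k).l.p.π w) := if_pos a5
    rw [a6]
    refine Nr.mono ?_ a1.psd a5.psd a4.1
    have : (e0 + 2 * (C0 * e0)) * (S.F k).n ≤ e1 * (S.F k).n :=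
      mul_le_mul_of_nonneg_right (by linarith) hn.le
    linarith
  have hGpd : ∀ ω, Cpd (Φ.cp k) (G k ω) := by
    intro ω
    show Cpd (Φ.cp k) (if Cpd (Φ.cp k) (R k ω) then R k ω else 1)
    split_ifs with h1
    · exact h1
    · exact Cpd_one (Φ.one_le_cp k)
  -- the values
  obtain ⟨X, hX, hX'⟩ := hC1 (L k) (le_max_left _ _) N (Q k) (hQ2 k) k
  set X2 : Finset (Matrix ι ι ℝ) := insert 1 (X.image fun B => (2 : ℝ) ^ (C0 * e0 * (S.F k).n) • B) with hX2
  have hX2c : (X2.card : ℝ) ≤ N * Real.exp (C1 * ((S.F k).n + 1)) + 1 := by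
    have h1 : X2.card ≤ X.card + 1 := (Finset.card_insert_le _ _).trans (Nat.add_le_add_right Finset.card_image_le _)
    have h2 : (X2.card : ℝ) ≤ X.card + 1 := by exact_mod_cast h1
    linarith
  have hval : ∀ ω, (∃ w, (x k).l.T.μ w ≠ 0 ∧ (x k).l.p.π w = ω) → G k ω ∈ X2 := by
    rintro ω ⟨w, hw, rfl⟩
    show (if Cpd (Φ.cp k) (R k ((x k).l.p.π w)) then R k ((x k).l.p.π w) else 1) ∈ X2
    rw [hX2, Finset.mem_insert]
    split_ifs with h1
    · right
      exact Finset.mem_image_of_mem _ (hX' _ (hcpd _ (hc1 k w hw).2))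
    · left; rfl
  refine ⟨hGpd, ?_, ?_, ?_⟩
  · refine le_trans (FSp.pb_mono _ (E' := fun w => ¬ (E k w ∧ E' k w)) ?_) (hb.le.trans he1e)
    intro w hw h1 h2
    apply h1
    refine Nr.mono ?_ (hcpd w hw).psd (hGpd _).psd (hgood w hw h2.1 h2.2)
    exact mul_le_mul_of_nonneg_right he1e hn.le
  · rw [map_ker]
    have hex : ∀ a : Quotient (x k).l.V × Quotient (x k).l.T.Z, ∃ f : Fin (N + 1) → Matrix ι ι ℝ,
        ∀ w, (x k).l.T.μ w ≠ 0 → (Quotient.mk _ w, Quotient.mk _ w) = a → E k w →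
          ∃ i, G k ((x k).l.p.π w) = f i := by
      intro a
      by_cases hne : ∃ w0, (x k).l.T.μ w0 ≠ 0 ∧
          ((Quotient.mk _ w0, Quotient.mk _ w0) : Quotient (x k).l.V × Quotient (x k).l.T.Z) = a
      · obtain ⟨w0, hw0, ha⟩ := hne
        obtain ⟨Z, hZ, hZ'⟩ := hQ2 k _ (hcpd w0 hw0).pdM
        obtain ⟨f, hf⟩ := enum_fin Z N hZ
        refine ⟨Fin.cons 1 (fun i => (2 : ℝ) ^ (C0 * e0 * (S.F k).n) • f i), fun w hw hwa hEw => ?_⟩
        have hg : (x k).g w = (x k).g w0 := by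
          rw [← ha] at hwa
          exact ((x k).meas w w0 hw hw0 (Quotient.exact (congrArg Prod.fst hwa))
            (Quotient.exact (congrArg Prod.snd hwa))).1
        have a2 := hcpd _ (hc1 k w hw).2
        have hN : NearM (L k) ((x k).g w0) ((x k).g (c k ((x k).l.p.π w))) := by
          rw [← hg]
          refine Nr.near (hcpd w hw).psd a2.psd hEw ?_
          rw [hLk]
        obtain ⟨i, hi⟩ := hf _ (hZ' _ a2.pdM hN)
        show ∃ i, (if Cpd (Φ.cp k) (R k ((x k).l.p.π w)) then R k ((x k).l.p.π w) else 1) = _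
        split_ifs with h1
        · refine ⟨i.succ, ?_⟩
          rw [Fin.cons_succ, ← hi]
          rfl
        · exact ⟨0, by rw [Fin.cons_zero]⟩
      · exact ⟨fun _ => 1, fun w hw hwa _ => absurd ⟨w, hw, hwa⟩ hne⟩
    choose f hf using hex
    have h1 := h_few_typ (F := (x k).l.T) (E k) (fun w => G k ((x k).l.p.π w))
      (fun w => ((Quotient.mk (x k).l.V w, Quotient.mk (x k).l.T.Z w) : Quotient (x k).l.V × Quotient (x k).l.T.Z))
      (N + 1) (Nat.succ_le_succ (Nat.zero_le _)) f (fun w hw hEw => hf _ w hw rfl hEw)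
      (N * Real.exp (C1 * ((S.F k).n + 1)) + 1) (by
        have : 0 ≤ N * Real.exp (C1 * ((S.F k).n + 1)) := by positivity
        linarith) X2 hX2c (fun w hw => hval _ ⟨w, hw, rfl⟩)
    rw [v_eq_ker] at h1
    refine h1.trans (le_trans ?_ hIk)
    have h2 : Real.logb 2 (N * Real.exp (C1 * ((S.F k).n + 1)) + 1) ≤ (4 * C1 + 2) * (S.F k).n := by
      have h3 := Real.logb_le_logb_of_le (b := 2) (by norm_num) (by positivity) hMk
      rwa [Real.logb_rpow (by norm_num) (by norm_num)] at h3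
    have h4 := mul_le_mul_of_nonneg_left h2 ((x k).l.T.pb_nonneg (fun w => ¬ E k w))
    linarith
  · refine ⟨X2, hX2c.trans hMk, fun ω hω => hval ω ?_⟩
    by_contra hne
    push Not at hne
    apply hω
    have h1 : (S.F k).μ ω = push (x k).l.p.π (x k).l.T.μ ω := (congrFun (x k).l.p.law ω).symm
    rw [h1, push_ind]
    apply Finset.sum_eq_zero
    intro w _
    by_cases hw : (x k).l.T.μ w = 0
    · rw [hw, mul_zero]
    · rw [e1_ind_neg (hne w hw), zero_mul]

theorem LitG.mono {x : ∀ k, FD (S.F k) ι} {C η η' : ℝ} (hη : η ≤ η') {k : ℕ} {G : (S.F k).Ω → Matrix ι ι ℝ}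
    (hG : LitG Φ x C η k G) (hp : ∀ w, (x k).l.T.μ w ≠ 0 → Psd ((x k).g w)) : LitG Φ x C η' k G where
  pd := hG.pd
  near := by
    refine ((x k).l.T.pb_mono ?_).trans (hG.near.trans hη)
    intro w hw h1 h2
    exact h1 (Nr.mono (mul_le_mul_of_nonneg_right hη (S.F k).pos.le) (hp w hw) (hG.pd _).psd h2)
  inf := hG.inf.trans (mul_le_mul_of_nonneg_right hη (S.F k).pos.le)
  val := hG.val

/-- LITERAL FORMS EXIST -/
theorem lit {A : κ → Part S} (hφ : MonG Φ.φ) {x : ∀ k, FD (S.F k) ι} (hx : Φ.Optf A x) :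
    ∃ C : ℝ, 0 ≤ C ∧ ∃ G : ∀ k, (S.F k).Ω → Matrix ι ι ℝ,
      ∀ η : ℝ, 0 < η → ∀ᶠ k in UF, LitG Φ x C η k (G k) := by
  obtain ⟨C, hC, h⟩ := lit1 Φ hφ hx
  choose G hG using fun j : ℕ => h (1 / ((j : ℝ) + 1)) (by positivity)
  obtain ⟨y, J, hJ, hy, hy'⟩ := dia' G (fun j k z => LitG Φ x C (1 / ((j : ℝ) + 1)) k z) hG
  refine ⟨C, hC, y, fun η hη => ?_⟩
  have h0 : Tendsto (fun k => 1 / ((J k : ℝ) + 1)) UF (𝓝 0) :=
    tendsto_one_div_add_atTop_nhds_zero_nat.comp hJ
  filter_upwards [hy', h0.eventually (gt_mem_nhds hη), hx.1 1 one_pos] with k h1 h2 h3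
  exact h1.mono Φ h2.le (fun w hw => (h3.2.1 w hw).1.psd)

/-- a literal form as a label with a form -/
def litFD {F : FSp} (G : F.Ω → Matrix ι ι ℝ) : FD F ι where
  l := litL (Setoid.ker G)
  g := G
  g' := G
  meas := fun _ _ _ _ h _ => ⟨h, h⟩

theorem leak_of_known {L : Type*} [PM L] (u v t a : L) : I u t a ≤ I v t a + h u v := by
  have h1 : I u t a ≤ I (v ⊔ u) t a := I_mono_left (le_sup_right.trans le_sup_left)
  rw [I_chain] at h1
  have h2 : I u t (v ⊔ a) ≤ h u (v ⊔ a) := I_le_h_left _ _ _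
  have h3 : h u (v ⊔ a) ≤ h u v := h_anti le_sup_left
  linarith

section
variable {A : κ → Part S} {x : ∀ k, FD (S.F k) ι} {C : ℝ} {G : ∀ k, (S.F k).Ω → Matrix ι ι ℝ}

/-- the literal form is known to every condition -/
theorem lit_h_le {k : ℕ} {η : ℝ} (hG : LitG Φ x C η k (G k)) (Y : FL (S.F k)) :
    h (fc (Setoid.ker (G k))) Y ≤ (x k).l.leak Y + η * (S.F k).n := by
  have h1 : h (fc (Setoid.ker (G k))) Y = h ((x k).l.p.map (fc (Setoid.ker (G k)))) ((x k).l.p.map Y) :=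
    ((x k).l.p.h_map _ _).symm
  have h2 := I_eq ((x k).l.p.map (fc (Setoid.ker (G k)))) (x k).l.p.top ((x k).l.p.map Y)
  rw [h_zero (((x k).l.p.map_le_top _).trans le_sup_left), sub_zero] at h2
  have h3 := leak_of_known ((x k).l.p.map (fc (Setoid.ker (G k)))) (x k).l.v (x k).l.p.top ((x k).l.p.map Y)
  have h4 := hG.inf
  rw [h1, ← h2]
  unfold FLab.leak
  linarith

theorem lit_Adf (hφ : MonG Φ.φ) (hx : Φ.Adf A x) (hG : ∀ η : ℝ, 0 < η → ∀ᶠ k in UF, LitG Φ x C η k (G k)) :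
    Φ.Adf A (fun k => litFD (G k)) := by
  intro η hη
  have h2 : 0 < η / 2 := by linarith
  filter_upwards [hG _ h2, hx _ h2] with k hGk hxk
  have hn := (S.F k).pos
  have hφk : (litFD (G k)).l.T.pb (fun ω => ¬ Φ.φ k ((litFD (G k)).l.p.π ω) ((litFD (G k)).g ω) ≤ 2 ^ (η * (S.F k).n)) ≤ η := by
    have h1 := pb_push (x k).l.p (fun ω => ¬ Φ.φ k ω (G k ω) ≤ 2 ^ (η * (S.F k).n))
    have h3 : (litFD (G k)).l.T.pb (fun ω => ¬ Φ.φ k ((litFD (G k)).l.p.π ω) ((litFD (G k)).g ω) ≤ 2 ^ (η * (S.F k).n)) =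
        (S.F k).pb (fun ω => ¬ Φ.φ k ω (G k ω) ≤ 2 ^ (η * (S.F k).n)) := rfl
    rw [h3, ← h1]
    refine le_trans (FSp.pb_mono _ (E' := fun w => (¬ Nr (η / 2 * (S.F k).n) ((x k).g w) (G k ((x k).l.p.π w))) ∨
      ¬ Φ.φ k ((x k).l.p.π w) ((x k).g w) ≤ 2 ^ (η / 2 * (S.F k).n)) ?_) (pb_or _ _ _) |>.trans ?_
    · intro w hw h4
      by_contra h5
      rw [not_or, not_not, not_not] at h5
      apply h4
      refine (hφ k _ _ _ _ (by positivity) h5.1.2).trans ((mul_le_mul_of_nonneg_left h5.2 (by positivity)).trans ?_)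
      rw [← Real.rpow_add (by norm_num)]
      apply Real.rpow_le_rpow_of_exponent_le (by norm_num)
      linarith
    · have := hGk.near
      have := hxk.2.2.1
      linarith
  refine ⟨fun i => ?_, fun ω _ => ⟨hGk.pd ω, hGk.pd ω⟩, hφk, hφk⟩
  have h1 : (litFD (G k)).l.leak (A i k) = h (fc (Setoid.ker (G k))) (A i k) := litL_leak _ _
  rw [h1]
  have h3 := lit_h_le Φ hGk (A i k)
  have h4 := hxk.1 i
  linarith

/-- the literal form of an optimal form is optimal -/
theorem lit_Optf (hφ : MonG Φ.φ) (hx : Φ.Optf A x) (hG : ∀ η : ℝ, 0 < η → ∀ᶠ k in UF, LitG Φ x C η k (G k)) :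
    Φ.Optf A (fun k => litFD (G k)) := by
  classical
  refine ⟨lit_Adf Φ hφ hx.1 hG, fun y hy => (hx.2 y hy).trans ?_⟩
  have hU1 := Φ.sc_UBf hx.1
  have hU2 := Φ.sc_UBf (lit_Adf Φ hφ hx.1 hG)
  set N : ℝ := (Fintype.card ι : ℝ) with hN
  have hN0 : 0 ≤ N := Nat.cast_nonneg _
  set K : ℝ := N * (Φ.C + 1) with hK
  have hK0 : 0 ≤ K := mul_nonneg hN0 (by linarith [Φ.C0])
  apply le_of_forall_pos_le_add
  intro ε hε
  set η : ℝ := ε / (N + K + 1) with hη
  have hη0 : 0 < η := by positivity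
  have hle : ∀ᶠ k in UF, (x k).sc / (S.F k).n ≤ (litFD (G k)).sc / (S.F k).n + ε := by
    filter_upwards [hG _ hη0, hx.1 1 one_pos] with k hGk hxk
    have hn := (S.F k).pos
    have e1 : (litFD (G k)).sc = ∑ w, (x k).l.T.μ w * Real.logb 2 (G k ((x k).l.p.π w)).det :=
      (sum_push (x k).l.p (fun ω => Real.logb 2 (G k ω).det)).symm
    have h1 := Pool.Agent.Helper59.EV.sum_split_le (F := (x k).l.T)
      (fun w => Real.logb 2 ((x k).g w).det - Real.logb 2 (G k ((x k).l.p.π w)).det)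
      (fun w => Nr (η * (S.F k).n) ((x k).g w) (G k ((x k).l.p.π w)))
      (N * (η * (S.F k).n)) (K * (S.F k).n) (by positivity) (by positivity) (by
        intro w hw hE
        have c1 := (hxk.2.1 w hw).1
        have c2 := hGk.pd ((x k).l.p.π w)
        have a1 : ((x k).g w).det ≤ ((2 : ℝ) ^ (η * (S.F k).n)) ^ Fintype.card ι * (G k ((x k).l.p.π w)).det :=
          Pool.Agent.Helper95.LF.det_le_pow c2.pdM c1.pdM (by positivity) hE.1
        have d1 : 0 < ((x k).g w).det := zero_lt_one.trans_le c1.one_le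
        have d2 : 0 < (G k ((x k).l.p.π w)).det := zero_lt_one.trans_le c2.one_le
        have a2 := Real.logb_le_logb_of_le (b := 2) (by norm_num) d1 a1
        rw [Real.logb_mul (by positivity) d2.ne', Real.logb_pow, Real.logb_rpow (by norm_num) (by norm_num)] at a2
        linarith) (by
        intro w hw
        have c1 := logdet_le (Φ.one_le_cp k) (hxk.2.1 w hw).1
        have c2 := logdet_nonneg (hGk.pd ((x k).l.p.π w))
        rw [Φ.logb_cp] at c1
        have : N * ((Φ.C + 1) * (S.F k).n) = K * (S.F k).n := by rw [hK]; ring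
        linarith)
    have h2 : ∑ w, (x k).l.T.μ w * (Real.logb 2 ((x k).g w).det - Real.logb 2 (G k ((x k).l.p.π w)).det) =
        (x k).sc - (litFD (G k)).sc := by
      rw [e1]
      unfold FD.sc
      rw [← Finset.sum_sub_distrib]
      exact Finset.sum_congr rfl fun w _ => by ring
    rw [h2] at h1
    have h3 : mass (res (x k).l.T.μ (fun w => ¬ Nr (η * (S.F k).n) ((x k).g w) (G k ((x k).l.p.π w)))) ≤ η := hGk.near
    have h4 : K * (S.F k).n * mass (res (x k).l.T.μ (fun w => ¬ Nr (η * (S.F k).n) ((x k).g w) (G k ((x k).l.p.π w)))) ≤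
        K * (S.F k).n * η := mul_le_mul_of_nonneg_left h3 (by positivity)
    have h5 : η * (N + K) ≤ ε := by
      rw [hη, div_mul_eq_mul_div, div_le_iff₀ (by positivity)]
      nlinarith
    have h6 : η * (N + K) * (S.F k).n ≤ ε * (S.F k).n := mul_le_mul_of_nonneg_right h5 hn.le
    rw [div_add' _ _ _ hn.ne', div_le_div_iff_of_pos_right hn]
    linarith
  have t1 := ul_tendsto hU1
  have t2 := (ul_tendsto hU2).add_const ε
  exact le_of_tendsto_of_tendsto t1 t2 hle

end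

end

end Pool.Agent.Helper56.STL
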