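import Pool.Agent.Helper56.STL.Yym

/-! (Y) IN SHEARED COORDINATES: the fibre system may be given in polynomial coordinates of the fibre point which are
known to the base line and are functions of the base line and of the curve. -/

set_option autoImplicit false

namespace Pool.Agent.Helper56.STL

open Finset Filter Topology Matrix Pool.Agent.Helper69.RK Pool.Agent.Helper31.EC Pool.Agent.Helper31.EC.Sp
open Pool.Agent.Helper40.EL Pool.Agent.Helper89.LX Pool.Agent.Helper3.LF Pool.Agent.Helper84.MT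
open Pool.Agent.Helper14.MC Pool.Agent.Helper81.AD Pool.Agent.Helper95.RIG

noncomputable section

variable {S : Sp} {d N : ℕ}

/-- SHEAR of the fibre point of the type `i`: polynomial coordinates `Θ` with inverse `Θ'` -/
structure Shear (c : Cor S d N) (i : Fin c.r) (Θ Θ' : Fin (N + 1) → MvPolynomial (Fin (N + 1)) (QS S)) : Prop where
  mem : ∀ j, Θ j ∈ QS.PK (c.b i)
  mem' : ∀ j, Θ' j ∈ QS.PK (c.b i)
  inv : ∀ j, c.tR j = MvPolynomial.eval (fun l => MvPolynomial.eval c.tR (Θ l)) (Θ' j)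
  agr : ∀ (W : Sp) (π π' : Pj W S), (∀ k w, (W.F k).μ w ≠ 0 → c.bV i k (π.π k w) = c.bV i k (π'.π k w)) →
    (∀ j, π.qs (c.f i j) = π'.qs (c.f i j)) → ∀ j, MvPolynomial.map π.qs (Θ j) = MvPolynomial.map π'.qs (Θ j)

/-- the sheared fibre point -/
def tS (c : Cor S d N) (Θ : Fin (N + 1) → MvPolynomial (Fin (N + 1)) (QS S)) : Fin (N + 1) → QS S :=
  fun j => MvPolynomial.eval c.tR (Θ j)

variable {c : Cor S d N} {z : Fin N} {rho : ℝ}

theorem le_xi (i : Fin c.r) : c.b i ≤ c.xi i := le_sup_left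

/-- the sheared curve is an exact leaf with a literal chart -/
theorem chart_tS (hc : c.Ax z rho) (i : Fin c.r) {Θ Θ' : Fin (N + 1) → MvPolynomial (Fin (N + 1)) (QS S)}
    (hΘ : Shear c i Θ Θ') : LitChart (c.bV i) (c.f i) (c.xi i) (tS c Θ) := by
  obtain ⟨e, Y, Φ, hY, hΦ, hQ, hL⟩ := hc.chart i
  refine ⟨e, Y, fun j => MvPolynomial.bind₁ Φ (Θ j), hY, fun j => bind_PK Φ hΦ (QS.PK_mono (le_xi i) (hΘ.mem j)),
    fun j => ?_, fun W π π' h1 h2 j => ?_⟩
  · rw [eval_bind]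
    show MvPolynomial.eval c.tR (Θ j) = _
    have : (fun i => MvPolynomial.eval Y (Φ i)) = c.tR := funext fun i => (hQ i).symm
    rw [this]
  · rw [MvPolynomial.map_bind₁, MvPolynomial.map_bind₁]
    have e1 : (fun i => MvPolynomial.map π.qs (Φ i)) = fun i => MvPolynomial.map π'.qs (Φ i) :=
      funext fun i => hL W π π' h1 h2 i
    rw [e1, hΘ.agr W π π' h1 h2 j]

/-- **(Y) from a fibre system in sheared coordinates** -/
theorem fibT_of_shear (hc : c.Ax z rho) {V : S.L} (i : Fin c.r) {ε : ℝ}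
    {Θ Θ' : Fin (N + 1) → MvPolynomial (Fin (N + 1)) (QS S)} (hΘ : Shear c i Θ Θ')
    (hsys : ∃ (T : Sp) (p : Pj T S) (A' : T.L), p.map (V ⊔ c.b i) ≤ A' ∧
      I A' (p.map (c.xi i)) (p.map (V ⊔ c.b i)) ≤ ε ∧
      FibSys (fun k w => c.bV i k (p.π k w)) (fun j => p.qs (tS c Θ j)) (p.map (c.xi i)) A') : c.FibT V i ε := by
  obtain ⟨T, p, A', h1, h2, h3⟩ := hsys
  have hV' : Bdd (S := T) (fun k w => c.bV i k (p.π k w)) := (p.bdd_iff _).mpr (hc.bdd i)
  have hio : io (S := T) (fun k w => c.bV i k (p.π k w)) = p.map (c.b i) := (p.map_io _).symm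
  obtain ⟨K, hK⟩ := h3.flat (geo _) hV' (by rw [hio]; exact p.map_mono le_sup_left)
    (by rw [hio]; exact (p.map_mono le_sup_right).trans h1)
  have hbK : p.map (c.b i) ≤ K := by
    rw [← hio]
    exact hK.base
  refine ⟨T, p, K, hbK, hK.le1, (h_le_I hK.le2 hK.le1).trans h2, ?_⟩
  intro U a π' hVV hff
  obtain ⟨e, Y, Φ, hY, hΦ, hQ, hL⟩ := chart_tS hc i hΘ
  have hff' : ∀ j, (a.comp p).qs (c.f i j) = π'.qs (c.f i j) := fun j => by rw [Pj.comp_qs]; exact hff j
  have hxi := Cor.xi_agree hc i (a.comp p) π' hVV hff'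
  rw [Pj.comp_map] at hxi
  have e1 : ALeaf (a.map K) (fun j => π'.qs (tS c Θ j)) := by
    refine FlatKr.trp_down (V := c.bV i) (Q := tS c Θ) p hK.trp (Lam := c.xi i) (hc.bdd i) le_sup_left hK.le1 hY hΦ hQ
      a π' hVV hxi (fun j => ?_)
    have h4 := hL U (a.comp p) π' hVV hff' j
    have hr' : (a.comp p).qs = (a.qs).comp p.qs := RingHom.ext fun f => Pj.comp_qs a p f
    rw [hr', ← MvPolynomial.map_map] at h4
    exact h4
  have e2 : a.map (p.map (c.b i)) = π'.map (c.b i) := by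
    rw [← Pj.comp_map]
    unfold Cor.b
    rw [(a.comp p).map_io, π'.map_io]
    exact io_congr_supp (((a.comp p).bdd_iff _).mpr (hc.bdd i)) ((π'.bdd_iff _).mpr (hc.bdd i)) hVV
  apply e1.sum
  intro j
  refine ⟨MvPolynomial.map π'.qs (Θ' j), ?_, ?_⟩
  · apply QS.PK_mono _ (QS.map_PK π' (hΘ.mem' j))
    rw [← e2]
    exact a.map_mono hbK
  · rw [hΘ.inv j, QS.qs_eval]
    rfl

/-- the leaves of the fibre point in sheared coordinates -/
theorem PLeaf.shear {T : Sp} (p : Pj T S) {A' : T.L} {i : Fin c.r}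
    {Θ Θ' : Fin (N + 1) → MvPolynomial (Fin (N + 1)) (QS S)} (hΘ : Shear c i Θ Θ') (h1 : p.map (c.b i) ≤ A')
    (h : PLeaf A' (fun j => p.qs (c.tR j))) : PLeaf A' (fun j => p.qs (tS c Θ j)) := by
  apply h.sum
  intro j
  refine ⟨MvPolynomial.map p.qs (Θ j), QS.PK_mono h1 (QS.map_PK p (hΘ.mem j)), ?_⟩
  exact QS.qs_eval p _ _

end

end Pool.Agent.Helper56.STL
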