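import Pool.Agent.Helper56.STL.Yth
import Pool.Agent.Helper36.AM.Top

/-! The fibre systems of a class with `STO`. -/

set_option autoImplicit false

namespace Pool.Agent.Helper56.STL

open Finset Filter Topology Matrix Pool.Agent.Helper69.RK Pool.Agent.Helper31.EC Pool.Agent.Helper31.EC.Sp
open Pool.Agent.Helper40.EL Pool.Agent.Helper89.LX Pool.Agent.Helper3.LF Pool.Agent.Helper84.MT
open Pool.Agent.Helper14.MC Pool.Agent.Helper81.AD Pool.Agent.Helper95.RIG Pool.Agent.Helper36.AM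

noncomputable section

/-- for a system of a class with `STO`, the point fills the hull of all large degrees over a canonical form -/
theorem full_of_sto {S : Sp} {M g r : ℕ} (hlt : ∀ m, m < M → ST m) (hd : DGR M) {Cl : MCl M} (h : STO M Cl)
    (s : MSys S M (lin g) (Fin r)) (hs : Cl S g r s) : ∃ D : ℕ, 1 ≤ D ∧ ∃ x, s.IsCan D 0 x ∧
      Pool.Agent.Helper84.MT.vol s.Q D x ≤ H (up1 (lb x) (s.Q.dg 1)) := by
  obtain ⟨D₁, h1⟩ := hd hlt g r
  obtain ⟨x, hx⟩ := s.exists_can (max D₁ 1) 0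
  refine ⟨max D₁ 1, le_max_right _ _, x, hx, ?_⟩
  have h2 : H (up1 (lb x) (s.Q.dg 1)) = HQ s 0 := HQ_eq s hx.2
  have h3 := s.vol_eq hx.1
  rw [h2, h3]
  exact (h1 _ (le_max_left _ _) S s).trans (h S g r s hs)

/-- the fibre system of a class with `STO` -/
theorem fibSys_of_sto {S : Sp} {m g : ℕ} (hlt : ∀ k, k < m → ST k) (hd : DGR m) {Cl : MCl m} (h : STO m Cl)
    {α : ℕ → Type} {V : ∀ k, (S.F k).Ω → α k} {Q : Fin m → QS S} {A₁ A₂ : S.L} (s : MSys (ov V) m (lin g) (Fin 2))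
    (hq : ∀ j, QS.mk (TR.cor s.Q j) = oq V (Q j)) (w1 : PLe ((s.lf 0).win 0) (rp (oL V A₁)))
    (w2 : PLe ((s.lf 1).win 0) (rp (oL V A₂))) (hs : Cl (ov V) g 2 s) : FibSys V Q A₁ A₂ :=
  ⟨g, s, hq, w1, w2, full_of_sto hlt hd h s hs⟩

/-- the structure theorem for any finite family of leaves whose system is in a class with `STO` -/
theorem flatKr_of_sto {S : Sp} {m g r : ℕ} (hG : GEO m) (hlt : ∀ k, k < m → ST k) (hd : DGR m) {Cl : MCl m}
    (h : STO m Cl) {α : ℕ → Type} {V : ∀ k, (S.F k).Ω → α k} (hV : Bdd V) {Q : Fin m → QS S} {A : Fin r → S.L}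
    (hA : ∀ i, io V ≤ A i) (s : MSys (ov V) m (lin g) (Fin r)) (hq : ∀ j, QS.mk (TR.cor s.Q j) = oq V (Q j))
    (hw : ∀ i, PLe ((s.lf i).win 0) (rp (oL V (A i)))) (hs : Cl (ov V) g r s) : ∃ K, FlatKr V Q A K := by
  obtain ⟨D, hD, x, hx, hv⟩ := full_of_sto hlt hd h s hs
  exact flat_sys hG hV hA s hq hw hD hx hv

end

end Pool.Agent.Helper56.STL
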