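import Pool.Agent.Helper56.STL.Two
import Pool.Agent.Helper59.EV.Fdg

/-! TRANSPORT OF A FULL LITERAL FORM to another point of the same polynomial leaf: if the form `F` of the point `Q` is
known to `Lam` and full (`F.v ≤ h (Q.dg 1) F.K`), its copy at the point `π'` is a full literal form of the point at `π`. -/

set_option autoImplicit false

namespace Pool.Agent.Helper56.STL

open Finset Filter Topology Matrix Pool.Agent.Helper69.RK Pool.Agent.Helper31.EC Pool.Agent.Helper31.EC.Sp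
open Pool.Agent.Helper40.EL Pool.Agent.Helper89.LX Pool.Agent.Helper3.LF Pool.Agent.Helper84.MT
open Pool.Agent.Helper14.MC Pool.Agent.Helper81.AD
open Pool.Agent.Helper95.LF (PdM)
open Pool.Agent.Helper59.EV (sum_split_le sum_pull)

noncomputable section

variable {S U : Sp} {M D : ℕ}

/-- averages of the exponents under a typical comparison -/
theorem gexq_avg_le (y y' : S.VV M) (A : ∀ k, (S.F k).Ω → Matrix (Mon M D) (Mon M D) ℝ) (C : ℝ) (hC : 0 ≤ C)
    (hA : ∀ᶠ k in UF, ∀ ω, (S.F k).μ ω ≠ 0 → Cpd (2 ^ (C * (S.F k).n)) (A k ω)) {K : ℕ → ℝ} (hK : S.Sub K)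
    (hT : Typ (S := S) (fun k ω => GQ (S.dl 1 k) (A k ω) (y.v k ω) ≤ K k * GQ (S.dl 1 k) (A k ω) (y'.v k ω))) :
    ul (fun k => ∑ ω, (S.F k).μ ω * gexq y A k ω) ≤ ul (fun k => ∑ ω, (S.F k).μ ω * gexq y' A k ω) := by
  apply le_of_forall_pos_le_add
  intro ε hε
  have hU := gexq_UB y A C hC hA
  have hU' := gexq_UB y' A C hC hA
  have hle : ∀ᶠ k in UF, ∑ ω, (S.F k).μ ω * gexq y A k ω ≤ ∑ ω, (S.F k).μ ω * gexq y' A k ω +
      (ε + (C + 3) * M * mass (res (S.F k).μ (fun ω => ¬ GQ (S.dl 1 k) (A k ω) (y.v k ω) ≤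
        K k * GQ (S.dl 1 k) (A k ω) (y'.v k ω)))) := by
    filter_upwards [gexq_bd y A C hC hA, gexq_nonneg y' A C hA, hA, hK.eventually_le (show 0 < ε by exact hε),
      hK.1] with k b1 b2 b3 b4 b5
    have hn := (S.F k).pos
    have h1 := sum_split_le (F := S.F k) (fun ω => gexq y A k ω - gexq y' A k ω)
      (fun ω => GQ (S.dl 1 k) (A k ω) (y.v k ω) ≤ K k * GQ (S.dl 1 k) (A k ω) (y'.v k ω)) ε ((C + 3) * M) hε.le
      (by positivity) (by
        intro ω hω hE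
        have c1 := b3 ω hω
        have h3 := one_le_GQ (S.dl 1 k) c1.1 c1.psd.2 (y.v k ω)
        have h4 := one_le_GQ (S.dl 1 k) c1.1 c1.psd.2 (y'.v k ω)
        have h2 : GQ (S.dl 1 k) (A k ω) (y.v k ω) ≤ 2 ^ (ε * (S.F k).n) * GQ (S.dl 1 k) (A k ω) (y'.v k ω) :=
          hE.trans (mul_le_mul_of_nonneg_right (by linarith) (by linarith))
        have h5 := Real.logb_le_logb_of_le (b := 2) (by norm_num) (by linarith) h2
        rw [Real.logb_mul (by positivity) (by linarith), Real.logb_rpow (by norm_num) (by norm_num)] at h5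
        unfold gexq
        rw [← sub_div, div_le_iff₀ (by positivity)]
        have h6 : 0 ≤ ε * (S.F k).n := by positivity
        linarith) (by
        intro ω hω
        have d1 := b1 ω hω
        have d2 := b2 ω hω
        linarith)
    have e3 : ∑ ω, (S.F k).μ ω * (gexq y A k ω - gexq y' A k ω) =
        ∑ ω, (S.F k).μ ω * gexq y A k ω - ∑ ω, (S.F k).μ ω * gexq y' A k ω := by
      rw [← Finset.sum_sub_distrib]
      exact Finset.sum_congr rfl fun w _ => by ring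
    rw [e3] at h1
    linarith
  have t1 := ul_tendsto hU
  have t2 := ul_tendsto hU'
  have t3 := t2.add ((hT.const_mul ((C + 3) * M)).const_add ε)
  rw [mul_zero, add_zero] at t3
  exact le_of_tendsto_of_tendsto t1 t3 hle

/-- entropies over a literal label -/
theorem H_litI (G : ∀ k, (S.F k).Ω → Matrix (Mon M D) (Mon M D) ℝ) (J : S.Inf)
    (hJ : J.1 = fun k => Setoid.ker (G k)) (y : S.L) :
    H (up1 (lb fun k => litFD (G k)) y) = h y (cl J) := by
  induction y using cl_ind with | _ A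
  rw [H_up1_cl]
  show ul _ = h (cl A) (cl J)
  rw [h_cl]
  congr 1
  funext k
  rw [← h_rpI]
  have e0 : rpI J k = fc (Setoid.ker (G k)) := by
    show fc (J.1 k) = _
    rw [hJ]
  have h1 : h ((litFD (G k)).l.p.map (rpI A k)) (litFD (G k)).l.v = h (rpI A k) (rpI J k) := by
    have h2 : (litFD (G k)).l.v = (litFD (G k)).l.p.map (rpI J k) := by
      rw [e0]; rfl
    rw [h2]
    exact (litFD (G k)).l.p.h_map _ _
  exact congrArg (fun r => r / (S.F k).n) h1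

namespace LForm

variable {Q : S.VV M} (F : LForm Q D)

theorem cap : ∀ᶠ k in UF, ∀ ω, (S.F k).μ ω ≠ 0 → Cpd ((gaq Q D).cp k) (F.G k ω) := by
  filter_upwards [F.ad 1 one_pos] with k hk ω hω
  exact (hk.2.1 ω hω).1

/-- the form is typically small at the point -/
theorem small (η : ℝ) (hη : 0 < η) : ∀ᶠ k in UF,
    (S.F k).pb (fun ω => ¬ phi (S.dl 1 k) (F.G k ω) (Q.v k ω) ≤ 2 ^ (η * (S.F k).n)) ≤ η := by
  filter_upwards [F.ad η hη] with k hk
  exact hk.2.2.1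

end LForm

/-- **TRANSPORT OF A FULL LITERAL FORM** -/
theorem LForm.trp (π π' : Pj U S) {Q : S.VV M} (F : LForm Q D) (hD : 1 ≤ D) (hfull : F.v ≤ h (Q.dg 1) F.K) {Lam : S.L}
    (hK : F.K ≤ Lam) {e : ℕ} {Y : Fin e → QS S} {Φ : Fin M → MvPolynomial (Fin e) (QS S)} (hY : QS.Rl Y Lam)
    (hΦ : ∀ j, Φ j ∈ QS.PK Lam) (hQ : ∀ j, QS.mk (TR.cor Q j) = MvPolynomial.eval Y (Φ j))
    (hLL : π.map Lam = π'.map Lam) (hΦΦ : ∀ j, MvPolynomial.map π.qs (Φ j) = MvPolynomial.map π'.qs (Φ j)) :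
    ∃ F' : LForm (π.vv Q) D, F'.K = π'.map F.K ∧ F'.v ≤ h ((π.vv Q).dg 1) F'.K := by
  classical
  set G : ∀ k, (U.F k).Ω → Matrix (Mon M D) (Mon M D) ℝ := fun k ω => F.G k (π'.π k ω) with hG
  set J : U.Inf := π'.mapI F.inf with hJ
  have hJ1 : J.1 = fun k => Setoid.ker (G k) := rfl
  have hclJ : cl J = π'.map F.K := rfl
  have hJW : cl J ≤ π.map Lam := by
    rw [hclJ, hLL]
    exact π'.map_mono hK
  have hcap : ∀ᶠ k in UF, ∀ ω, (U.F k).μ ω ≠ 0 → Cpd ((gaq (π.vv Q) D).cp k) (G k ω) := by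
    filter_upwards [F.cap] with k hk ω hω
    have h1 := hk _ (π'.supp k ω hω)
    have h2 : (gaq (π.vv Q) D).cp k = (gaq Q D).cp k := by
      unfold Gau.cp
      rw [π.hn k]
      rfl
    rw [h2]
    exact h1
  have hPd : ∀ᶠ k in UF, ∀ ω, (U.F k).μ ω ≠ 0 → PdM (G k ω) := by
    filter_upwards [hcap] with k hk ω hω using (hk ω hω).pdM
  have hGJ : ∀ k ω ω', J.1 k ω ω' → G k ω = G k ω' := fun k ω ω' h => h
  have hYu : QS.Rl (fun i => π.qs (Y i)) (π.map Lam) := hY.pull π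
  have hYu' : QS.Rl (fun i => π'.qs (Y i)) (π.map Lam) := by
    rw [hLL]
    exact hY.pull π'
  have hΦu : ∀ j, MvPolynomial.map π.qs (Φ j) ∈ QS.PK (π.map Lam) := fun j => QS.map_PK π (hΦ j)
  have hQu : ∀ j, QS.mk (TR.cor (π.vv Q) j) = MvPolynomial.eval (fun i => π.qs (Y i)) (MvPolynomial.map π.qs (Φ j)) := by
    intro j
    rw [← QS.qs_eval, ← hQ j]
    rfl
  have hQu' : ∀ j, QS.mk (TR.cor (π'.vv Q) j) =
      MvPolynomial.eval (fun i => π'.qs (Y i)) (MvPolynomial.map π.qs (Φ j)) := by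
    intro j
    rw [hΦΦ j, ← QS.qs_eval, ← hQ j]
    rfl
  obtain ⟨K1, hK1, hT1⟩ := two_pts (fun j => MvPolynomial.map π.qs (Φ j)) hΦu hYu hYu' hQu hQu' J hJW G hPd hGJ
  obtain ⟨K2, hK2, hT2⟩ := two_pts (fun j => MvPolynomial.map π.qs (Φ j)) hΦu hYu' hYu hQu' hQu J hJW G hPd hGJ
  have hdl : ∀ k, U.dl 1 k = S.dl 1 k := fun k => by unfold Sp.dl; rw [π.hn k]
  -- the form is small at the first point
  have hsm : ∀ η : ℝ, 0 < η → ∀ᶠ k in UF,
      (U.F k).pb (fun ω => ¬ phi (U.dl 1 k) (G k ω) ((π.vv Q).v k ω) ≤ 2 ^ (η * (U.F k).n)) ≤ η := by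
    intro η hη
    have hη2 : 0 < η / 2 := by linarith
    have hT1' : Tendsto (fun k => (U.F k).pb (fun ω => ¬ (phi (U.dl 1 k) (G k ω) ((π.vv Q).v k ω) ≤
      K1 k * phi (U.dl 1 k) (G k ω) ((π'.vv Q).v k ω) ∧ GQ (U.dl 1 k) (G k ω) ((π.vv Q).v k ω) ≤
      K1 k * GQ (U.dl 1 k) (G k ω) ((π'.vv Q).v k ω)))) UF (𝓝 0) := hT1
    filter_upwards [F.small _ hη2, hT1'.eventually (gt_mem_nhds hη2), hK1.eventually_le hη2, hK1.1] with k g1 g2 g3 g4
    have hn := (U.F k).pos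
    have e1 : (U.F k).pb (fun ω => ¬ phi (U.dl 1 k) (G k ω) ((π'.vv Q).v k ω) ≤ 2 ^ (η / 2 * (U.F k).n)) ≤ η / 2 := by
      have h1 := pb_push (π'.fp k) (fun ω => ¬ phi (S.dl 1 k) (F.G k ω) (Q.v k ω) ≤ 2 ^ (η / 2 * (S.F k).n))
      rw [hdl k, π'.hn k]
      exact h1.le.trans g1
    refine le_trans (FSp.pb_mono _ (E' := fun ω => (¬ (phi (U.dl 1 k) (G k ω) ((π.vv Q).v k ω) ≤
      K1 k * phi (U.dl 1 k) (G k ω) ((π'.vv Q).v k ω) ∧ GQ (U.dl 1 k) (G k ω) ((π.vv Q).v k ω) ≤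
      K1 k * GQ (U.dl 1 k) (G k ω) ((π'.vv Q).v k ω))) ∨
      ¬ phi (U.dl 1 k) (G k ω) ((π'.vv Q).v k ω) ≤ 2 ^ (η / 2 * (U.F k).n)) ?_)
      ((pb_or _ _ _).trans (by linarith))
    intro ω hω h3
    by_contra h4
    rw [not_or, not_not, not_not] at h4
    apply h3
    refine h4.1.1.trans ((mul_le_mul_of_nonneg_left h4.2 g4).trans ?_)
    have h5 : K1 k ≤ 2 ^ (η / 2 * (U.F k).n) := by linarith
    refine (mul_le_mul_of_nonneg_right h5 (by positivity)).trans ?_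
    rw [← Real.rpow_add (by norm_num)]
    apply Real.rpow_le_rpow_of_exponent_le (by norm_num)
    linarith
  -- the count
  have had0 : (gaq (π.vv Q) D).Adf (fun i : Empty => i.elim) (fun k => litFD (G k)) := by
    intro η hη
    filter_upwards [hsm η hη, hcap] with k g1 g2
    exact ⟨fun i => i.elim, fun ω hω => ⟨g2 ω hω, g2 ω hω⟩, g1, g1⟩
  have hcnt : h ((π.vv Q).dg 1) (cl J) ≤ vol (π.vv Q) D (fun k => litFD (G k)) := by
    rw [← H_litI G J hJ1]
    exact cnt_vol (π.vv Q) hD (fun k => litFD (G k)) had0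
  -- the volumes
  have hvol : vol (π.vv Q) D (fun k => litFD (G k)) ≤ F.v := by
    have e1 : vol (π.vv Q) D (fun k => litFD (G k)) = M - ul (fun k => ∑ ω, (U.F k).μ ω * gexq (π.vv Q) G k ω) := rfl
    have e2 : F.v = M - ul (fun k => ∑ ω, (U.F k).μ ω * gexq (π'.vv Q) G k ω) := by
      have e3 : F.v = M - ul (fun k => ∑ ω, (S.F k).μ ω * gexq Q F.G k ω) := rfl
      rw [e3]
      congr 2
      funext k
      have h1 := sum_pull (π'.fp k) (fun ω => gexq Q F.G k ω)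
      rw [← h1]
      apply Finset.sum_congr rfl
      intro ω _
      have h2 : gexq (π'.vv Q) G k ω = gexq Q F.G k (π'.π k ω) := by
        unfold gexq
        rw [hdl k, π'.hn k]
        rfl
      rw [h2]
      rfl
    rw [e1, e2]
    have h3 := gexq_avg_le (π'.vv Q) (π.vv Q) G ((gaq (π.vv Q) D).C + 1) (by linarith [(gaq (π.vv Q) D).C0]) hcap hK2
      (hT2.mono (Eventually.of_forall fun k ω _ h => h.2))
    linarith
  -- the entropies
  have hKQ : cl J ≤ (π.vv Q).dg 1 := by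
    rw [← h_le_zero_iff]
    have h1 : H ((π.vv Q).dg 1) = H (Q.dg 1) := by rw [← π.map_dg, π.H_map]
    have h2 : H (cl J) = H F.K := by rw [hclJ, π'.H_map]
    have h3 := H_chain (cl J) ((π.vv Q).dg 1)
    have h4 := H_chain F.K (Q.dg 1)
    have h5 := H_chain ((π.vv Q).dg 1) (cl J)
    rw [sup_eq_right.mpr F.K_le] at h4
    rw [sup_comm] at h5
    linarith
  have hadQ : (gaq (π.vv Q) D).Adf (fun _ : Unit => pcd (π.vv Q)) (fun k => litFD (G k)) := by
    have hle : PLe (rpI J) (pcd (π.vv Q)) := by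
      have h1 : PLe (rp (cl J)) (rp ((π.vv Q).dg 1)) := PLe_rp.mpr hKQ
      exact ((rp_rpI J).2.trans h1).trans (pcd_rp (π.vv Q)).1
    intro η hη
    have h2 : ∀ᶠ k in UF, h (rpI J k) (pcd (π.vv Q) k) / (U.F k).n < η := by
      have h3 : Tendsto (fun k => h (rpI J k) (pcd (π.vv Q) k) / (U.F k).n) UF (𝓝 0) := hle
      exact h3.eventually (gt_mem_nhds hη)
    filter_upwards [hsm η hη, hcap, h2] with k g1 g2 g3
    refine ⟨fun _ => ?_, fun ω hω => ⟨g2 ω hω, g2 ω hω⟩, g1, g1⟩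
    have h4 : (litFD (G k)).l.leak (pcd (π.vv Q) k) = h (fc (Setoid.ker (G k))) (pcd (π.vv Q) k) := litL_leak _ _
    rw [h4]
    rw [div_lt_iff₀ (U.F k).pos] at g3
    exact g3.le
  have hvb : U.VB (fun k => Setoid.ker (G k)) := J.2
  refine ⟨⟨G, hvb, hadQ⟩, rfl, ?_⟩
  show vol (π.vv Q) D (fun k => litFD (G k)) ≤ h ((π.vv Q).dg 1) (cl J)
  have h1 : H ((π.vv Q).dg 1) = H (Q.dg 1) := by rw [← π.map_dg, π.H_map]
  have h2 : H (cl J) = H F.K := by rw [hclJ, π'.H_map]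
  have h4 := H_chain F.K (Q.dg 1)
  have h5 := H_chain (cl J) ((π.vv Q).dg 1)
  rw [sup_eq_right.mpr F.K_le] at h4
  rw [sup_eq_right.mpr hKQ] at h5
  linarith

end

end Pool.Agent.Helper56.STL
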