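import Pool.Agent.Helper56.STL.Shr
import Pool.Agent.Helper5.DO.TilC
import Pool.Agent.Helper57.TA.Alg

/-! (Y) FOR THE PROLONGED CORNERS, part 1: the shear of the fibre point. Over the base line the function `f` is known,
so the lowest vertical coordinate minus the `(K - 1)`-fold integral of `f` is a polynomial of degree at most `K - 2` of
the height along the curve. -/

set_option autoImplicit false

namespace Pool.Agent.Helper56.STL

open Finset Filter Topology Matrix Pool.Agent.Helper69.RK Pool.Agent.Helper31.EC Pool.Agent.Helper31.EC.Sp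
open Pool.Agent.Helper31.EC.QS
open Pool.Agent.Helper95.RIG Pool.Agent.Helper5.DO Pool.Agent.Helper13.AM
open Pool.Agent.Helper57.TA (rcst)

noncomputable section

variable {S : Sp} {M r : ℕ}

/-- the known part of the lowest coordinate along the curve of type `i` -/
def kp (c : CD S 0 (M + 1) r) (l : Fin (M + 1)) (K : ℕ) (i : Fin r) : MvPolynomial (Fin (M + 2)) (QS S) :=
  MvPolynomial.C ((py (c.cf i l)).coeff (K - 1)) * MvPolynomial.X 0 ^ (K - 1) +
    MvPolynomial.C ((py (c.cf i l)).coeff K) * MvPolynomial.X 0 ^ K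

/-- the shear -/
def shT (c : CD S 0 (M + 1) r) (l : Fin (M + 1)) (K : ℕ) (i : Fin r) : Fin (M + 2) → MvPolynomial (Fin (M + 2)) (QS S) :=
  Fin.cons (MvPolynomial.X 0) fun j => MvPolynomial.X (Equiv.swap 0 l j).succ - if j = 0 then kp c l K i else 0

/-- its inverse -/
def shT' (c : CD S 0 (M + 1) r) (l : Fin (M + 1)) (K : ℕ) (i : Fin r) :
    Fin (M + 2) → MvPolynomial (Fin (M + 2)) (QS S) :=
  Fin.cons (MvPolynomial.X 0) fun j => MvPolynomial.X (Equiv.swap 0 l j).succ + if j = l then kp c l K i else 0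

theorem eval_kp (c : CD S 0 (M + 1) r) (l : Fin (M + 1)) (K : ℕ) (i : Fin r) (x : Fin (M + 2) → QS S) :
    MvPolynomial.eval x (kp c l K i) = (py (c.cf i l)).coeff (K - 1) * x 0 ^ (K - 1) +
      (py (c.cf i l)).coeff K * x 0 ^ K := by
  unfold kp
  rw [map_add, map_mul, map_mul, map_pow, map_pow, MvPolynomial.eval_C, MvPolynomial.eval_C, MvPolynomial.eval_X]

theorem kp_mem {c : CD S 0 (M + 1) r} {l : Fin (M + 1)} {K : ℕ} {i : Fin r} {A : S.L} (hK : 1 ≤ K)
    (h1 : dg (fa c l K i) 1 ≤ A) (h2 : dg (fu c l K i) 1 ≤ A) : kp c l K i ∈ QS.PK A := by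
  have h3 : dg ((py (c.cf i l)).coeff K) 1 ≤ A := by
    have hK0 : (K : ℝ) ≠ 0 := by positivity
    have e1 : (py (c.cf i l)).coeff K = rcst S (1 / K) * fu c l K i := by
      unfold fu
      rw [← mul_assoc]
      have e2 : ((K : QS S)) = rcst S (K : ℝ) := (map_natCast (rcst S) K).symm
      rw [e2, ← map_mul, one_div_mul_cancel hK0, map_one, one_mul]
    rw [e1]
    have h4 : rcst S (1 / K) * fu c l K i ∈ Kn S 1 le_rfl A := (Kn S 1 le_rfl A).mul_mem
      ((mem_Kn (hr := le_rfl)).2 (by
        rw [Pool.Agent.Helper57.TA.dg_rcst]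
        exact bot_le)) ((mem_Kn (hr := le_rfl)).2 h2)
    exact (mem_Kn (hr := le_rfl)).1 h4
  exact (QS.PK A).add_mem ((QS.PK A).mul_mem (C_mem h1) ((QS.PK A).pow_mem (X_mem A 0) _))
    ((QS.PK A).mul_mem (C_mem h3) ((QS.PK A).pow_mem (X_mem A 0) _))

theorem shT_mem {c : CD S 0 (M + 1) r} {l : Fin (M + 1)} {K : ℕ} {i : Fin r} {A : S.L} (hk : kp c l K i ∈ QS.PK A)
    (j : Fin (M + 2)) : shT c l K i j ∈ QS.PK A := by
  unfold shT
  induction j using Fin.cases with
  | zero => rw [Fin.cons_zero]; exact X_mem A 0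
  | succ j =>
    rw [Fin.cons_succ]
    refine (QS.PK A).sub_mem (X_mem A _) ?_
    split_ifs
    · exact hk
    · exact (QS.PK A).zero_mem

theorem shT'_mem {c : CD S 0 (M + 1) r} {l : Fin (M + 1)} {K : ℕ} {i : Fin r} {A : S.L} (hk : kp c l K i ∈ QS.PK A)
    (j : Fin (M + 2)) : shT' c l K i j ∈ QS.PK A := by
  unfold shT'
  induction j using Fin.cases with
  | zero => rw [Fin.cons_zero]; exact X_mem A 0
  | succ j =>
    rw [Fin.cons_succ]
    refine (QS.PK A).add_mem (X_mem A _) ?_
    split_ifs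
    · exact hk
    · exact (QS.PK A).zero_mem

theorem shT_inv (c : CD S 0 (M + 1) r) (l : Fin (M + 1)) (K : ℕ) (i : Fin r) (x : Fin (M + 2) → QS S)
    (j : Fin (M + 2)) : x j = MvPolynomial.eval (fun a => MvPolynomial.eval x (shT c l K i a)) (shT' c l K i j) := by
  have h0 : MvPolynomial.eval x (shT c l K i 0) = x 0 := by
    unfold shT
    rw [Fin.cons_zero, MvPolynomial.eval_X]
  unfold shT'
  induction j using Fin.cases with
  | zero => rw [Fin.cons_zero, MvPolynomial.eval_X, h0]
  | succ j =>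
    rw [Fin.cons_succ, map_add, MvPolynomial.eval_X]
    have h1 : MvPolynomial.eval x (shT c l K i (Equiv.swap 0 l j).succ) = x j.succ - if j = l then
        MvPolynomial.eval x (kp c l K i) else 0 := by
      unfold shT
      rw [Fin.cons_succ, Equiv.swap_apply_self, map_sub, MvPolynomial.eval_X]
      congr 1
      have h2 : (Equiv.swap 0 l j = 0) ↔ j = l := by
        constructor
        · intro h
          have h3 := congrArg (Equiv.swap 0 l) h
          rwa [Equiv.swap_apply_self, Equiv.swap_apply_left] at h3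
        · rintro rfl
          exact Equiv.swap_apply_right _ _
      by_cases hj : j = l
      · rw [if_pos (h2.mpr hj), if_pos hj]
      · rw [if_neg (fun h => hj (h2.mp h)), if_neg hj, map_zero]
    rw [h1]
    by_cases hj : j = l
    · rw [if_pos hj, if_pos hj, eval_kp, eval_kp, h0]
      ring
    · rw [if_neg hj, if_neg hj, map_zero]
      ring

/-- the coefficients of the shear are functions of the curve -/
theorem shT_agr {c : CD S 0 (M + 1) r} {l : Fin (M + 1)} {K : ℕ} {i : Fin r} {W : Sp} (g g' : QS S →+* QS W)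
    (h : ∀ m, g (c.cf i l m) = g' (c.cf i l m)) (j : Fin (M + 2)) :
    MvPolynomial.map g (shT c l K i j) = MvPolynomial.map g' (shT c l K i j) := by
  have h1 : ∀ m, g ((py (c.cf i l)).coeff m) = g' ((py (c.cf i l)).coeff m) := by
    intro m
    rw [py_coeff]
    split_ifs
    · exact h _
    · rw [map_zero, map_zero]
  have h2 : MvPolynomial.map g (kp c l K i) = MvPolynomial.map g' (kp c l K i) := by
    unfold kp
    simp only [map_add, map_mul, map_pow, MvPolynomial.map_C, MvPolynomial.map_X]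
    rw [h1, h1]
  unfold shT
  induction j using Fin.cases with
  | zero => rw [Fin.cons_zero, MvPolynomial.map_X, MvPolynomial.map_X]
  | succ j =>
    rw [Fin.cons_succ, map_sub, map_sub, MvPolynomial.map_X, MvPolynomial.map_X]
    split_ifs
    · rw [h2]
    · rw [map_zero, map_zero]

/-- **the shear of the fibre point of a prolonged corner** -/
theorem shear_til {c : CD S 0 (M + 1) r} {l : Fin (M + 1)} {K : ℕ} {al : Fin r → ℕ → Type}
    {bV : ∀ i k, (S.F k).Ω → al i k} (hL : LV c l K al bV) (hK : 1 ≤ K) (i0 : Fin r) (w : Fin (M + 1) → ℝ)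
    (z : Fin (M + 1)) (i : Fin r) :
    Shear ((til c l K i0 al bV).toCor w z) i (shT c l K i) (shT' c l K i) := by
  have hb : ((til c l K i0 al bV).toCor w z).b i = dg (fa c l K i) 1 ⊔ dg (fu c l K i) 1 := hL.gen i
  have hk : kp c l K i ∈ QS.PK (((til c l K i0 al bV).toCor w z).b i) := by
    rw [hb]
    exact kp_mem hK le_sup_left le_sup_right
  refine ⟨shT_mem hk, shT'_mem hk, fun j => shT_inv c l K i _ j, ?_⟩
  intro W π π' _ hf j
  refine shT_agr π.qs π'.qs (fun m => ?_) j
  have h1 := hf (finProdFinEquiv (l, m))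
  have h2 : ((til c l K i0 al bV).toCor w z).f i (finProdFinEquiv (l, m)) = c.cf i l m := by
    show (til c l K i0 al bV).cv i (finProdFinEquiv.symm (finProdFinEquiv (l, m))) = _
    rw [Equiv.symm_apply_apply]
    rfl
  rwa [h2] at h1

/-- the lowest sheared coordinate along the curve: degree at most `K - 2` -/
theorem tS_one {c : CD S 0 (M + 1) r} {l : Fin (M + 1)} {K : ℕ} {O : S.L} {w : Fin (M + 1) → ℝ} {z : Fin (M + 1)}
    (hJ : J1 c O w z l K) (hc : c.Ln) (i : Fin r) (x : Fin (M + 2) → QS S) (h0 : x 0 = c.q 0)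
    (h1 : ∀ j : Fin (M + 1), x j.succ = c.R j) : MvPolynomial.eval x (shT c l K i 1) =
      ∑ m ∈ range (K - 1), (py (c.cf i l)).coeff m * c.q 0 ^ m := by
  have e0 : (1 : Fin (M + 2)) = (0 : Fin (M + 1)).succ := rfl
  have hK := hJ.hK
  have e1 : c.R l = ∑ m ∈ range (K + 1), (py (c.cf i l)).coeff m * c.q 0 ^ m := by
    rw [hc.curve i l, ← py_eval, Polynomial.eval_eq_sum_range' (n := K + 1)]
    rw [Nat.lt_succ_iff, Polynomial.natDegree_le_iff_coeff_eq_zero]
    exact fun m hm => hJ.cut i m hm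
  obtain ⟨K', rfl⟩ : ∃ K', K = K' + 2 := ⟨K - 2, by omega⟩
  unfold shT
  rw [e0, Fin.cons_succ, if_pos rfl, Equiv.swap_apply_left, map_sub, MvPolynomial.eval_X, eval_kp, h1, h0, e1,
    Finset.sum_range_succ, Finset.sum_range_succ]
  have e2 : K' + 2 - 1 = K' + 1 := by omega
  rw [e2]
  ring

end

end Pool.Agent.Helper56.STL
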