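import Pool.Agent.Helper81.AD.Pl
import Pool.Agent.Helper89.MG.Typf
import Pool.Agent.Helper56.STL.Can


/-! TWO POINTS OF ONE POLYNOMIAL LEAF. The values at two real parameters `y`, `y'` (in the same unit cube) of polynomials
with coefficients known to `W`: a form which is known to `W` has, up to `2 ^ o(n)`, the same size and the same volume
factor at the two points. -/

set_option autoImplicit false

namespace Pool.Agent.Helper56.STL

open Finset Filter Topology Matrix Pool.Agent.Helper69.RK Pool.Agent.Helper31.EC Pool.Agent.Helper31.EC.Sp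
open Pool.Agent.Helper40.EL Pool.Agent.Helper89.LX Pool.Agent.Helper3.LF Pool.Agent.Helper84.MT
open Pool.Agent.Helper14.MC Pool.Agent.Helper81.AD
open Pool.Agent.Helper95.LF (PdM)

noncomputable section

variable {U : Sp} {M e D : ℕ}

section leaf
variable (Φ : Fin M → MvPolynomial (Fin e) (QS U)) {W : U.L}

/-- the literal polynomial leaf through the value at `y` -/
def litLeaf (hΦ : ∀ j, Φ j ∈ QS.PK W) (y : Fin e → TR U) (hY : QS.Rl (fun i => QS.mk (y i)) W) {g : ℕ}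
    (hg : 1 ≤ g) (he : e ≤ g) (hd : ∀ j, (Φ j).totalDegree ≤ g) : Leaf U (lQ' Φ (TR.vec y) hd) (lin g) :=
  Leaf.ofPoly g hg e he (pI Φ W).1 (TR.vec y) (fun k ω => lG Φ k ω)
    (fun k ω i => lG_deg Φ hd k ω i) (Eventually.of_forall fun k ω ω' _ _ _ r => lG_fn Φ k ω ω' r.2) (lG_bd Φ)
    ⟨fun _ => 0, U.Sub_const le_rfl, Eventually.of_forall fun k ω _ i => by
      show |MvPolynomial.eval _ _ - MvPolynomial.eval _ _| ≤ _
      rw [sub_self, abs_zero, zero_mul]⟩ (by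
      have h1 : UB (U.rt ((TR.vec y).bdd 1).toInf.1 (pI Φ W).1) := UB_rt _ _
      have h2 := ul_tendsto h1
      have h3 : ul (U.rt ((TR.vec y).bdd 1).toInf.1 (pI Φ W).1) = e := by
        rw [← h_cl, cl_pI Φ hΦ]
        have e1 : cl ((TR.vec y).bdd 1).toInf = (TR.vec y).dg 1 := (io_eq ((TR.vec y).bdd 1)).symm
        rw [e1, ← vd_mk y le_rfl]
        have h4 : h (QS.vd (fun i => QS.mk (y i)) 1) W = Fintype.card (Fin e) := hY
        rw [h4, Fintype.card_fin]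
      rw [h3] at h2
      refine h2.congr fun k => ?_
      rw [h_fc]
      rfl)

variable (hΦ : ∀ j, Φ j ∈ QS.PK W) {y y' : Fin e → TR U} (hY : QS.Rl (fun i => QS.mk (y i)) W) {g : ℕ}
    (hg : 1 ≤ g) (he : e ≤ g) (hd : ∀ j, (Φ j).totalDegree ≤ g)

/-- literal labels known to `W` do not leak at the window `0` -/
theorem lit_leak0 (I : U.Inf) (hW : cl I ≤ W) :
    Nul U (fun k => (litL (I.1 k)).leak ((litLeaf Φ hΦ y hY hg he hd).win 0 k)) := by
  rw [← cl_pI Φ hΦ, cl_le] at hW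
  have h1 : Tendsto (U.rt I.1 (pI Φ W).1) UF (𝓝 0) := hW
  unfold Nul
  refine squeeze_zero (fun k => div_nonneg (FLab.leak_nonneg _ _) (U.F k).pos.le) (fun k => ?_) h1
  beta_reduce
  have e0 : (litL (I.1 k)).leak ((litLeaf Φ hΦ y hY hg he hd).win 0 k) =
      h (fc (I.1 k)) ((litLeaf Φ hΦ y hY hg he hd).win 0 k) := litL_leak _ _
  rw [e0]
  have e1 : U.rt I.1 (pI Φ W).1 k = h (fc (I.1 k)) (fc ((pI Φ W).1 k)) / (U.F k).n := by
    rw [h_fc]
    rfl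
  rw [e1]
  apply div_le_div_of_nonneg_right _ (U.F k).pos.le
  apply h_anti
  apply fc_le
  intro ω ω' _ _ _ h2
  exact h2.1

variable (hY' : QS.Rl (fun i => QS.mk (y' i)) W)
  (hyy : ∀ᶠ k in UF, ∀ ω, (U.F k).μ ω ≠ 0 → ∀ i, |TR.ev (y i) k ω - TR.ev (y' i) k ω| < 1)
include hY' hyy hg he hΦ

theorem two_phi (I : U.Inf) (hW : cl I ≤ W) (G : ∀ k, (U.F k).Ω → Matrix (Mon M D) (Mon M D) ℝ)
    (hG : ∀ᶠ k in UF, ∀ ω, (U.F k).μ ω ≠ 0 → PdM (G k ω)) (hGI : ∀ k ω ω', I.1 k ω ω' → G k ω = G k ω') :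
    ∃ K : ℕ → ℝ, U.Sub K ∧ Typ (S := U) (fun k ω => phi (U.dl 1 k) (G k ω) ((lQ' Φ (TR.vec y) hd).v k ω) ≤
      K k * phi (U.dl 1 k) (G k ω) ((lQ' Φ (TR.vec y') hd).v k ω)) := by
  obtain ⟨K, hK, hT⟩ := typ_phi (litLeaf Φ hΦ y' hY' hg he hd) le_rfl one_pos (fun k => litL (I.1 k))
    (lit_leak0 Φ hΦ hY' hg he hd I hW) G hG (Eventually.of_forall fun k w w' _ _ _ h1 _ => hGI k w w' h1)
  refine ⟨K, hK, ?_⟩
  have hT' : Typ (S := U) (fun k w => ∀ z : Fin e → ℝ,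
      (∀ i, |z i - (TR.vec y').v k w i| < U.dl 0 k) → phi (U.dl 1 k) (G k w) (fun j => MvPolynomial.eval z (lG Φ k w j)) ≤
        K k * phi (U.dl 1 k) (G k w) ((lQ' Φ (TR.vec y') hd).v k w)) := hT
  refine hT'.mono ?_
  filter_upwards [hyy] with k hk ω hω h1
  exact h1 ((TR.vec y).v k ω) (fun i => by
    rw [U.dl_zero]
    exact hk ω hω i)

theorem two_GQ (I : U.Inf) (hW : cl I ≤ W) (G : ∀ k, (U.F k).Ω → Matrix (Mon M D) (Mon M D) ℝ)
    (hG : ∀ᶠ k in UF, ∀ ω, (U.F k).μ ω ≠ 0 → PdM (G k ω)) (hGI : ∀ k ω ω', I.1 k ω ω' → G k ω = G k ω') :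
    ∃ K : ℕ → ℝ, U.Sub K ∧ Typ (S := U) (fun k ω => GQ (U.dl 1 k) (G k ω) ((lQ' Φ (TR.vec y) hd).v k ω) ≤
      K k * GQ (U.dl 1 k) (G k ω) ((lQ' Φ (TR.vec y') hd).v k ω)) := by
  obtain ⟨K, hK, hT⟩ := typ_GQ (litLeaf Φ hΦ y' hY' hg he hd) le_rfl one_pos (fun k => litL (I.1 k))
    (lit_leak0 Φ hΦ hY' hg he hd I hW) G hG (Eventually.of_forall fun k w w' _ _ _ h1 _ => hGI k w w' h1)
  refine ⟨K, hK, ?_⟩
  have hT' : Typ (S := U) (fun k w => ∀ z : Fin e → ℝ,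
      (∀ i, |z i - (TR.vec y').v k w i| < U.dl 0 k) → GQ (U.dl 1 k) (G k w) (fun j => MvPolynomial.eval z (lG Φ k w j)) ≤
        K k * GQ (U.dl 1 k) (G k w) ((lQ' Φ (TR.vec y') hd).v k w)) := hT
  refine hT'.mono ?_
  filter_upwards [hyy] with k hk ω hω h1
  exact h1 ((TR.vec y).v k ω) (fun i => by
    rw [U.dl_zero]
    exact hk ω hω i)

end leaf

/-- points with the same class are typically close -/
theorem near_typ {P Q : U.VV M} (h : ∀ j, QS.mk (TR.cor Q j) = QS.mk (TR.cor P j)) : ∃ K : ℕ → ℝ, U.Sub K ∧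
    (∀ᶠ k in UF, 1 ≤ K k) ∧ Typ (S := U) (fun k ω => ∀ i, |Q.v k ω i - P.v k ω i| + U.dl 1 k ≤ K k * U.dl 1 k) := by
  have hag : ∀ j, TR.Ag 1 (TR.cor Q j) (TR.cor P j) := fun j => QS.mk_eq.mp (h j)
  choose A K hA hK hh using hag
  have hTy := Typ_all A hA
  have hS : ∀ s : Finset (Fin M), U.Sub (fun k => ∑ i ∈ s, K i k) := by
    intro s
    induction s using Finset.induction_on with
    | empty => simpa using U.Sub_const le_rfl
    | insert a s ha ih =>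
      have h1 := (hK a).add ih
      simpa [Finset.sum_insert ha] using h1
  have h1 : ∀ᶠ k in UF, ∀ i ∈ (Finset.univ : Finset (Fin M)), 0 ≤ K i k ∧ ∀ ω, (U.F k).μ ω ≠ 0 → A i k ω →
      |TR.ev (TR.cor Q i) k ω - TR.ev (TR.cor P i) k ω| ≤ K i k * U.dl 1 k := by
    rw [Filter.eventually_all_finset]
    intro i _
    exact (hK i).1.and (hh i)
  refine ⟨fun k => ∑ i, K i k + 1, (hS Finset.univ).add (U.Sub_const zero_le_one), ?_, hTy.mono ?_⟩
  · filter_upwards [(hS Finset.univ).1] with k hk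
    linarith
  · filter_upwards [h1] with k hk ω hω hAk i
    have h2 := (hk i (Finset.mem_univ i)).2 ω hω (hAk i)
    have h3 : |Q.v k ω i - P.v k ω i| ≤ K i k * U.dl 1 k := h2
    have h4 : K i k ≤ ∑ i, K i k :=
      Finset.single_le_sum (f := fun i => K i k) (fun j _ => (hk j (Finset.mem_univ j)).1) (Finset.mem_univ i)
    have h5 := mul_le_mul_of_nonneg_right h4 (U.dl_pos 1 k).le
    linarith

/-- forms at points with the same class -/
theorem near_form {P Q : U.VV M} (h : ∀ j, QS.mk (TR.cor Q j) = QS.mk (TR.cor P j))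
    (G : ∀ k, (U.F k).Ω → Matrix (Mon M D) (Mon M D) ℝ) (hG : ∀ᶠ k in UF, ∀ ω, (U.F k).μ ω ≠ 0 → PdM (G k ω)) :
    ∃ K : ℕ → ℝ, U.Sub K ∧ Typ (S := U) (fun k ω => phi (U.dl 1 k) (G k ω) (Q.v k ω) ≤
      K k * phi (U.dl 1 k) (G k ω) (P.v k ω) ∧ GQ (U.dl 1 k) (G k ω) (Q.v k ω) ≤
      K k * GQ (U.dl 1 k) (G k ω) (P.v k ω)) := by
  obtain ⟨K, hK, hK1, hT⟩ := near_typ h
  have hcQ : (0 : ℝ) ≤ cQ M D ^ M := by
    have := cQ_one M D
    positivity
  refine ⟨fun k => cM M D (K k) + cQ M D ^ M * K k ^ (2 * D * M),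
    (cM_Sub M D hK hK1).add ((U.Sub_const hcQ).mul (Sub_pow' hK _)), hT.mono ?_⟩
  filter_upwards [hG, hK1, (cM_Sub M D hK hK1).1] with k g1 g2 g3 ω hω h4
  have hP := g1 ω hω
  have hK0 : 0 ≤ K k := zero_le_one.trans g2
  have e1 := phi_comp (G k ω) hP (U.dl 1 k) (U.dl 1 k) (K k) (U.dl_pos 1 k) (U.dl_pos 1 k).le g2 (P.v k ω) (Q.v k ω) h4
  have e2 := GQ_comp (G k ω) hP (U.dl 1 k) (U.dl 1 k) (K k) (U.dl_pos 1 k) (U.dl_pos 1 k).le g2 (P.v k ω) (Q.v k ω) h4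
  have n1 : 0 ≤ phi (U.dl 1 k) (G k ω) (P.v k ω) := phi_nonneg _ (fun x => hP.nonneg x) _
  have n2 : 0 ≤ GQ (U.dl 1 k) (G k ω) (P.v k ω) :=
    zero_le_one.trans (one_le_GQ _ hP.1 (fun x => hP.nonneg x) _)
  have n3 : 0 ≤ cQ M D ^ M * K k ^ (2 * D * M) := by positivity
  constructor
  · refine e1.trans (mul_le_mul_of_nonneg_right ?_ n1)
    have : nn M D * (Cu D * Cm M D * K k ^ D) ^ 2 = cM M D (K k) := rfl
    linarith
  · refine e2.trans (mul_le_mul_of_nonneg_right ?_ n2)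
    linarith

/-! ### substitution and scaling -/

theorem eval_bind {A : Type*} [CommRing A] {σ τ : Type} (x : τ → A) (f : σ → MvPolynomial τ A) (P : MvPolynomial σ A) :
    MvPolynomial.eval x (MvPolynomial.bind₁ f P) = MvPolynomial.eval (fun i => MvPolynomial.eval x (f i)) P := by
  have h3 : (MvPolynomial.eval x).comp (MvPolynomial.bind₁ f : MvPolynomial σ A →+* _) =
      MvPolynomial.eval (fun i => MvPolynomial.eval x (f i)) := by
    apply MvPolynomial.ringHom_ext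
    · intro r
      simp
    · intro i
      simp
  exact RingHom.congr_fun h3 P

theorem bind_PK {A : U.L} {σ τ : Type} [Fintype σ] (f : σ → MvPolynomial τ (QS U)) (hf : ∀ i, f i ∈ QS.PK A)
    {P : MvPolynomial σ (QS U)} (hP : P ∈ QS.PK A) : MvPolynomial.bind₁ f P ∈ QS.PK A := by
  rw [MvPolynomial.bind₁, MvPolynomial.aeval_def, MvPolynomial.eval₂_eq]
  apply Subring.sum_mem
  intro m _
  apply Subring.mul_mem
  · exact QS.C_mem (hP m)
  · exact Subring.prod_mem _ fun i _ => Subring.pow_mem _ (hf i) _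

/-- a tame constant and its inverse -/
def cTR (c : ℕ → ℝ) (hc : U.Sub c) : TR U := ⟨fun k _ => c k, c, hc, by
  filter_upwards [hc.1] with k hk ω _
  rw [abs_of_nonneg hk]⟩

theorem dg_cTR (c : ℕ → ℝ) (hc : U.Sub c) (A : U.L) : QS.dg (QS.mk (cTR c hc)) 1 ≤ A := by
  refine le_trans ?_ (bot_le (a := A))
  rw [QS.dg_mk _ le_rfl, ← cl_bot]
  apply TR.dg_le_cl (cTR c hc) 1 Inf.bot (fun _ _ => True) Typ_true (fun _ => 0) (Sp.Sub_const _ le_rfl)
  refine Eventually.of_forall fun k ω ω' _ _ _ _ _ _ => ?_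
  show |c k - c k| ≤ _
  rw [sub_self, abs_zero, zero_mul]

theorem exists_scale (Y Y' : Fin e → QS U) : ∃ (c : QS U) (y y' : Fin e → TR U), (∀ A : U.L, QS.dg c 1 ≤ A) ∧
    (∀ i, Y i = c * QS.mk (y i)) ∧ (∀ i, Y' i = c * QS.mk (y' i)) ∧ (∀ i, QS.dg (QS.mk (y i)) 1 = QS.dg (Y i) 1) ∧
    (∀ i, QS.dg (QS.mk (y' i)) 1 = QS.dg (Y' i) 1) ∧
    ∀ᶠ k in UF, ∀ ω, (U.F k).μ ω ≠ 0 → ∀ i, |TR.ev (y i) k ω - TR.ev (y' i) k ω| < 1 := by
  obtain ⟨K, hK, hb⟩ := (TR.vec (fun i => QS.rep (Y i))).bd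
  obtain ⟨K', hK', hb'⟩ := (TR.vec (fun i => QS.rep (Y' i))).bd
  set c : ℕ → ℝ := fun k => 2 * (|K k| + |K' k|) + 3 with hc
  have hcpos : ∀ k, 0 < c k := fun k => by
    rw [hc]
    positivity
  have hKa : U.Sub (fun k => |K k|) := hK.mono (Eventually.of_forall fun k => abs_nonneg _) (by
    filter_upwards [hK.1] with k hk
    rw [abs_of_nonneg hk])
  have hKa' : U.Sub (fun k => |K' k|) := hK'.mono (Eventually.of_forall fun k => abs_nonneg _) (by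
    filter_upwards [hK'.1] with k hk
    rw [abs_of_nonneg hk])
  have hcS : U.Sub c := ((U.Sub_const zero_le_two).mul (hKa.add hKa')).add (U.Sub_const (by norm_num))
  have hciS : U.Sub (fun k => (c k)⁻¹) := (U.Sub_const zero_le_one).mono
    (Eventually.of_forall fun k => (inv_pos.mpr (hcpos k)).le) (Eventually.of_forall fun k => by
      apply inv_le_one_of_one_le₀
      rw [hc]
      have h1 := abs_nonneg (K k)
      have h2 := abs_nonneg (K' k)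
      show 1 ≤ 2 * (|K k| + |K' k|) + 3
      linarith)
  have hmul : QS.mk (cTR c hcS) * QS.mk (cTR (fun k => (c k)⁻¹) hciS) = 1 := by
    rw [← map_mul, ← map_one QS.mk]
    congr 1
    apply Subtype.ext
    funext k ω
    exact mul_inv_cancel₀ (hcpos k).ne'
  set y : Fin e → TR U := fun i => cTR (fun k => (c k)⁻¹) hciS * QS.rep (Y i) with hy
  set y' : Fin e → TR U := fun i => cTR (fun k => (c k)⁻¹) hciS * QS.rep (Y' i) with hy'
  have e1 : ∀ (X : Fin e → QS U) i, X i = QS.mk (cTR c hcS) *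
      QS.mk (cTR (fun k => (c k)⁻¹) hciS * QS.rep (X i)) := by
    intro X i
    rw [map_mul, QS.mk_rep, ← mul_assoc, hmul, one_mul]
  have e2 : ∀ (X : Fin e → QS U) i, QS.dg (QS.mk (cTR (fun k => (c k)⁻¹) hciS * QS.rep (X i))) 1 =
      QS.dg (X i) 1 := by
    intro X i
    apply le_antisymm
    · rw [map_mul, QS.mk_rep]
      exact (QS.dg_mul_le _ _ le_rfl).trans (sup_le (dg_cTR _ _ _) le_rfl)
    · have e3 := congrArg (fun f => QS.dg f 1) (e1 X i)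
      beta_reduce at e3
      rw [e3]
      exact (QS.dg_mul_le _ _ le_rfl).trans (sup_le (dg_cTR _ _ _) le_rfl)
  refine ⟨QS.mk (cTR c hcS), y, y', dg_cTR c hcS, e1 Y, e1 Y', e2 Y, e2 Y', ?_⟩
  filter_upwards [hb, hb', hK.1, hK'.1] with k h1 h2 h3 h4 ω hω i
  have g1 : |TR.ev (QS.rep (Y i)) k ω| ≤ K k := h1 ω hω i
  have g2 : |TR.ev (QS.rep (Y' i)) k ω| ≤ K' k := h2 ω hω i
  have g3 : TR.ev (y i) k ω - TR.ev (y' i) k ω = (c k)⁻¹ * (TR.ev (QS.rep (Y i)) k ω - TR.ev (QS.rep (Y' i)) k ω) := by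
    show (c k)⁻¹ * TR.ev (QS.rep (Y i)) k ω - (c k)⁻¹ * TR.ev (QS.rep (Y' i)) k ω = _
    ring
  rw [g3, abs_mul, abs_of_pos (inv_pos.mpr (hcpos k)), inv_mul_lt_iff₀ (hcpos k), mul_one]
  have g4 := abs_sub (TR.ev (QS.rep (Y i)) k ω) (TR.ev (QS.rep (Y' i)) k ω)
  have g5 : c k = 2 * (|K k| + |K' k|) + 3 := rfl
  rw [abs_of_nonneg h3, abs_of_nonneg h4] at g5
  linarith

/-- **TWO POINTS OF ONE LEAF** -/
theorem two_pts {W : U.L} (Φ : Fin M → MvPolynomial (Fin e) (QS U)) (hΦ : ∀ j, Φ j ∈ QS.PK W) {Y Y' : Fin e → QS U}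
    (hY : QS.Rl Y W) (hY' : QS.Rl Y' W) {Q Q' : U.VV M}
    (hQ : ∀ j, QS.mk (TR.cor Q j) = MvPolynomial.eval Y (Φ j))
    (hQ' : ∀ j, QS.mk (TR.cor Q' j) = MvPolynomial.eval Y' (Φ j)) (I : U.Inf) (hW : cl I ≤ W)
    (G : ∀ k, (U.F k).Ω → Matrix (Mon M D) (Mon M D) ℝ)
    (hG : ∀ᶠ k in UF, ∀ ω, (U.F k).μ ω ≠ 0 → PdM (G k ω)) (hGI : ∀ k ω ω', I.1 k ω ω' → G k ω = G k ω') :
    ∃ K : ℕ → ℝ, U.Sub K ∧ Typ (S := U) (fun k ω => phi (U.dl 1 k) (G k ω) (Q.v k ω) ≤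
      K k * phi (U.dl 1 k) (G k ω) (Q'.v k ω) ∧ GQ (U.dl 1 k) (G k ω) (Q.v k ω) ≤
      K k * GQ (U.dl 1 k) (G k ω) (Q'.v k ω)) := by
  obtain ⟨c, y, y', hc, hy, hy', dy, dy', hyy⟩ := exists_scale Y Y'
  set Ψ : Fin M → MvPolynomial (Fin e) (QS U) := fun j =>
    MvPolynomial.bind₁ (fun i => MvPolynomial.C c * MvPolynomial.X i) (Φ j) with hΨ
  have hΨK : ∀ j, Ψ j ∈ QS.PK W := fun j => bind_PK _ (fun i => Subring.mul_mem _ (QS.C_mem (hc W)) (QS.X_mem W i)) (hΦ j)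
  have hev : ∀ (x : Fin e → QS U) j, MvPolynomial.eval x (Ψ j) = MvPolynomial.eval (fun i => c * x i) (Φ j) := by
    intro x j
    rw [hΨ]
    beta_reduce
    rw [eval_bind]
    congr 1
    apply congrArg
    funext i
    rw [map_mul, MvPolynomial.eval_C, MvPolynomial.eval_X]
  set g : ℕ := max (max 1 e) (univ.sup fun j => (Ψ j).totalDegree) with hg
  have hg1 : 1 ≤ g := (le_max_left _ _).trans (le_max_left _ _)
  have hge : e ≤ g := (le_max_right _ _).trans (le_max_left _ _)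
  have hd : ∀ j, (Ψ j).totalDegree ≤ g := fun j =>
    (Finset.le_sup (f := fun j => (Ψ j).totalDegree) (mem_univ j)).trans (le_max_right _ _)
  have hvd : ∀ (x : Fin e → TR U) (X : Fin e → QS U), (∀ i, QS.dg (QS.mk (x i)) 1 = QS.dg (X i) 1) →
      QS.vd (fun i => QS.mk (x i)) 1 = QS.vd X 1 := by
    intro x X hx
    unfold QS.vd
    congr 1
    funext i
    exact hx i
  have hYr : QS.Rl (fun i => QS.mk (y i)) W := by
    unfold QS.Rl
    rw [hvd y Y dy]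
    exact hY
  have hYr' : QS.Rl (fun i => QS.mk (y' i)) W := by
    unfold QS.Rl
    rw [hvd y' Y' dy']
    exact hY'
  obtain ⟨K1, hK1, hT1⟩ := near_form (P := lQ' Ψ (TR.vec y) hd) (Q := Q) (fun j => by
    rw [hQ j, lQ'_eq, hev]
    exact congrArg (fun x => MvPolynomial.eval x (Φ j)) (funext hy)) G hG
  obtain ⟨K2, hK2, hT2⟩ := near_form (P := Q') (Q := lQ' Ψ (TR.vec y') hd) (fun j => by
    rw [hQ' j, lQ'_eq, hev]
    exact congrArg (fun x => MvPolynomial.eval x (Φ j)) (funext fun i => (hy' i).symm)) G hG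
  obtain ⟨K3, hK3, hT3⟩ := two_phi Ψ hΨK hg1 hge hd hYr' hyy I hW G hG hGI
  obtain ⟨K4, hK4, hT4⟩ := two_GQ Ψ hΨK hg1 hge hd hYr' hyy I hW G hG hGI
  refine ⟨fun k => K1 k * ((K3 k + K4 k) * K2 k), hK1.mul ((hK3.add hK4).mul hK2),
    ((hT1.and hT2).and (hT3.and hT4)).mono ?_⟩
  filter_upwards [hG, hK1.1, hK2.1, hK3.1, hK4.1] with k g1 p1 p2 p3 p4 ω hω h
  obtain ⟨⟨a1, a2⟩, a3, a4⟩ := h
  have hP := g1 ω hω
  have n1 : ∀ p, 0 ≤ phi (U.dl 1 k) (G k ω) p := fun p => phi_nonneg _ (fun x => hP.nonneg x) _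
  have n2 : ∀ p, 0 ≤ GQ (U.dl 1 k) (G k ω) p := fun p =>
    zero_le_one.trans (one_le_GQ _ hP.1 (fun x => hP.nonneg x) _)
  constructor
  · calc _ ≤ _ := a1.1
      _ ≤ K1 k * (K3 k * (K2 k * phi (U.dl 1 k) (G k ω) (Q'.v k ω))) := by
          apply mul_le_mul_of_nonneg_left _ p1
          exact a3.trans (mul_le_mul_of_nonneg_left a2.1 p3)
      _ ≤ _ := by
          have : 0 ≤ K1 k * (K4 k * (K2 k * phi (U.dl 1 k) (G k ω) (Q'.v k ω))) := by
            have := n1 (Q'.v k ω)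
            positivity
          nlinarith
  · calc _ ≤ _ := a1.2
      _ ≤ K1 k * (K4 k * (K2 k * GQ (U.dl 1 k) (G k ω) (Q'.v k ω))) := by
          apply mul_le_mul_of_nonneg_left _ p1
          exact a4.trans (mul_le_mul_of_nonneg_left a2.2 p4)
      _ ≤ _ := by
          have : 0 ≤ K1 k * (K3 k * (K2 k * GQ (U.dl 1 k) (G k ω) (Q'.v k ω))) := by
            have := n2 (Q'.v k ω)
            positivity
          nlinarith

end

end Pool.Agent.Helper56.STL
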