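import Pool.Agent.Helper56.STL.Flt
import Pool.Agent.Helper56.STL.Fbt

/-! (Y) IN TRANSPORT FORM from the inequality `vol ≤ H` for the systems of the curve and of the vertical structure. -/

set_option autoImplicit false

namespace Pool.Agent.Helper56.STL

open Finset Filter Topology Matrix Pool.Agent.Helper69.RK Pool.Agent.Helper31.EC Pool.Agent.Helper31.EC.Sp
open Pool.Agent.Helper40.EL Pool.Agent.Helper89.LX Pool.Agent.Helper3.LF Pool.Agent.Helper84.MT
open Pool.Agent.Helper14.MC Pool.Agent.Helper81.AD Pool.Agent.Helper95.RIG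

noncomputable section

variable {S : Sp}

/-- the FIBRE SYSTEM of two leaves `A₁`, `A₂` of the point `Q` over the base variable `V`: the windows of level zero are
the leaves, and over a canonical form of level zero of some degree the point fills the hull -/
def FibSys {m : ℕ} {α : ℕ → Type} (V : ∀ k, (S.F k).Ω → α k) (Q : Fin m → QS S) (A₁ A₂ : S.L) : Prop :=
  ∃ (g : ℕ) (s : MSys (ov V) m (lin g) (Fin 2)), (∀ j, QS.mk (TR.cor s.Q j) = oq V (Q j)) ∧
    PLe ((s.lf 0).win 0) (rp (oL V A₁)) ∧ PLe ((s.lf 1).win 0) (rp (oL V A₂)) ∧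
    ∃ D : ℕ, 1 ≤ D ∧ ∃ x, s.IsCan D 0 x ∧ vol s.Q D x ≤ H (up1 (lb x) (s.Q.dg 1))

theorem FibSys.flat {m : ℕ} (hG : GEO m) {α : ℕ → Type} {V : ∀ k, (S.F k).Ω → α k} (hV : Bdd V) {Q : Fin m → QS S}
    {A₁ A₂ : S.L} (h1 : io V ≤ A₁) (h2 : io V ≤ A₂) (hs : FibSys V Q A₁ A₂) : ∃ K, FlatK V Q A₁ A₂ K := by
  obtain ⟨g, s, hq, w1, w2, D, hD, x, hx, hv⟩ := hs
  obtain ⟨K, hK⟩ := flat_sys hG hV (A := ![A₁, A₂]) (by
    intro i
    fin_cases i
    · exact h1
    · exact h2) s hq (by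
    intro i
    fin_cases i
    · exact w1
    · exact w2) hD hx hv
  exact ⟨K, hK.base, hK.fn, hK.le 0, hK.le 1, hK.leaf, hK.trp⟩

variable {d N : ℕ} {c : Cor S d N} {z : Fin N} {rho : ℝ}

/-- **(Y)**: for every `ε` some fibre system of the curve and of an exact leaf `A'` above `V` and the base line, with leak
at most `ε`, has `vol ≤ H`. Then (Y) in transport form. -/
theorem fibT_of (hG : GEO (N + 1)) (hc : c.Ax z rho) {V : S.L} (i : Fin c.r) {ε : ℝ}
    (hsys : ∃ (T : Sp) (p : Pj T S) (A' : T.L), p.map (V ⊔ c.b i) ≤ A' ∧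
      I A' (p.map (c.xi i)) (p.map (V ⊔ c.b i)) ≤ ε ∧
      FibSys (fun k w => c.bV i k (p.π k w)) (fun j => p.qs (c.tR j)) (p.map (c.xi i)) A') : c.FibT V i ε := by
  obtain ⟨T, p, A', h1, h2, h3⟩ := hsys
  have hV' : Bdd (S := T) (fun k w => c.bV i k (p.π k w)) := (p.bdd_iff _).mpr (hc.bdd i)
  have hio : io (S := T) (fun k w => c.bV i k (p.π k w)) = p.map (c.b i) := (p.map_io _).symm
  obtain ⟨K, hK⟩ := h3.flat hG hV' (by rw [hio]; exact p.map_mono le_sup_left)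
    (by rw [hio]; exact (p.map_mono le_sup_right).trans h1)
  refine ⟨T, p, K, by rw [← hio]; exact hK.base, hK.le1, (h_le_I hK.le2 hK.le1).trans h2, ?_⟩
  intro U a π' hVV hff
  obtain ⟨e, Y, Φ, hY, hΦ, hQ, hL⟩ := hc.chart i
  have hff' : ∀ j, (a.comp p).qs (c.f i j) = π'.qs (c.f i j) := fun j => by rw [Pj.comp_qs]; exact hff j
  have hxi := Cor.xi_agree hc i (a.comp p) π' hVV hff'
  rw [Pj.comp_map] at hxi
  refine FlatKr.trp_down (V := c.bV i) (Q := c.tR) p hK.trp (Lam := c.xi i) (hc.bdd i) le_sup_left hK.le1 hY hΦ hQ a π'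
    hVV hxi (fun j => ?_)
  have h4 := hL U (a.comp p) π' hVV hff' j
  have hr' : (a.comp p).qs = (a.qs).comp p.qs := RingHom.ext fun f => Pj.comp_qs a p f
  rw [hr', ← MvPolynomial.map_map] at h4
  exact h4

/-- exact leaves `A'` of the fibre point above `V` and the base line with arbitrarily small leak exist -/
theorem exists_leafA (hc : c.Ax z rho) {V : S.L} (hP : c.P ≤ V) (hO : V ≤ c.O) (hV : ALeaf V c.R) (i : Fin c.r) {ε : ℝ}
    (hε : 0 < ε) : ∃ (T : Sp) (p : Pj T S) (A' : T.L), p.map (V ⊔ c.b i) ≤ A' ∧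
      (∀ y : S.L, I A' (p.map y) (p.map (V ⊔ c.b i)) ≤ ε) ∧ PLeaf A' (fun j => p.qs (c.tR j)) :=
  hc.vert hP hO hV i ε hε

end

end Pool.Agent.Helper56.STL
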