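import Pool.Agent.Helper56.STL.Sto
import Pool.Agent.Helper56.STL.Done
import Pool.Agent.Helper13.AM.Tca

/-! (Y) FOR CLASSES OF CORNERS from the structure theorem in dimension `N + 1` (base of dimension at least two). -/

set_option autoImplicit false

namespace Pool.Agent.Helper56.STL

open Finset Filter Topology Matrix Pool.Agent.Helper69.RK Pool.Agent.Helper31.EC Pool.Agent.Helper31.EC.Sp
open Pool.Agent.Helper40.EL Pool.Agent.Helper89.LX Pool.Agent.Helper3.LF Pool.Agent.Helper84.MT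
open Pool.Agent.Helper14.MC Pool.Agent.Helper81.AD Pool.Agent.Helper95.RIG Pool.Agent.Helper13.AM

noncomputable section

/-- the fibre system of two exact leaves, from the structure theorem in dimension `m` -/
theorem fibSys_of_ST {S : Sp} {m : ℕ} (hST : ST m) {α : ℕ → Type} {V : ∀ k, (S.F k).Ω → α k} (hV : Bdd V)
    {Q : Fin m → QS S} {A₁ A₂ : S.L} (h1 : io V ≤ A₁) (h2 : io V ≤ A₂) (l1 : PLeaf A₁ Q) (l2 : PLeaf A₂ Q) :
    FibSys V Q A₁ A₂ := by
  obtain ⟨g, s, hs, hw⟩ := exists_sys hV Q (A := ![A₁, A₂]) (by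
    intro i
    fin_cases i
    · exact h1
    · exact h2) (by
    intro i
    fin_cases i
    · exact l1
    · exact l2)
  obtain ⟨D₁, hD₁⟩ := hST g 2
  obtain ⟨x, hx⟩ := s.exists_can (max D₁ 1) 0
  exact ⟨g, s, hs, (hw 0).1, (hw 1).1, max D₁ 1, le_max_right D₁ 1, x, hx, hD₁ _ (le_max_left _ _) _ s x hx⟩

variable {S : Sp} {d N : ℕ} {c : Cor S d N} {z : Fin N} {rho : ℝ}

/-- the curve is an exact leaf of the fibre point -/
theorem pleaf_xi (hc : c.Ax z rho) (i : Fin c.r) : PLeaf (c.xi i) c.tR := by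
  obtain ⟨e, Y, Φ, hY, hΦ, hQ, _⟩ := hc.chart i
  exact ⟨e, Y, Φ, hY, hΦ, hQ⟩

/-- (Y) in transport form for one corner -/
theorem fibT_of_ST (hST : ST (N + 1)) (hc : c.Ax z rho) {V : S.L} (hP : c.P ≤ V) (hO : V ≤ c.O) (hV : ALeaf V c.R)
    (i : Fin c.r) {ε : ℝ} (hε : 0 < ε) : c.FibT V i ε := by
  obtain ⟨T, p, A', h1, h2, h3⟩ := exists_leafA hc hP hO hV i hε
  refine fibT_of (geo _) hc i ⟨T, p, A', h1, h2 _, ?_⟩
  have hV' : Bdd (S := T) (fun k w => c.bV i k (p.π k w)) := (p.bdd_iff _).mpr (hc.bdd i)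
  have hio : io (S := T) (fun k w => c.bV i k (p.π k w)) = p.map (c.b i) := (p.map_io _).symm
  exact fibSys_of_ST hST hV' (by rw [hio]; exact p.map_mono le_sup_left)
    (by rw [hio]; exact (p.map_mono le_sup_right).trans h1) ((pleaf_xi hc i).pull p) h3

end

end Pool.Agent.Helper56.STL

namespace Pool.Agent.Helper13.AM

open Pool.Agent.Helper31.EC Pool.Agent.Helper84.MT Pool.Agent.Helper56.STL

/-- **[YYM]** (Y) for every class of corners, from the structure theorem in dimension `N + 1` -/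
theorem yy_of_ST {d N r : ℕ} {w : Fin N → ℝ} {z : Fin N} {ρ : ℝ} {C : ∀ S : Sp, CD S d N r → Prop} (hST : ST (N + 1))
    (hC : ∀ S c, C S c → c.Ax w z ρ) : YY w z C := by
  intro S c hc i ε hε
  have ha := hC S c hc
  have hz : 0 < w z := zero_lt_one.trans (ha.w1 z)
  have h0 : 0 ≤ 1 / w z := by positivity
  have h1 : w z * (1 / w z) = 1 := mul_one_div_cancel hz.ne'
  have hx := ha.toCor
  refine fibT_of_ST hST hx (V := c.P ⊔ c.K (1 / w z)) le_sup_left ?_ (ha.boxleaf h0 h1) i hε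
  refine sup_le hx.hP ?_
  have h2 := ha.bx.pt (1 / w z) h0 h1.le
  rwa [h1] at h2

end Pool.Agent.Helper13.AM
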