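import Pool.Agent.Helper56.STL.Tsh

/-! (Y) FOR THE PROLONGED CORNERS, part 2: the fibre system in sheared coordinates is in every class with a `STO` which
contains the systems with a curve type along which the coordinate `1` is a polynomial of low degree of the coordinate
`0`. -/

set_option autoImplicit false

namespace Pool.Agent.Helper56.STL

open Finset Filter Topology Matrix Pool.Agent.Helper69.RK Pool.Agent.Helper31.EC Pool.Agent.Helper31.EC.Sp
open Pool.Agent.Helper31.EC.QS Pool.Agent.Helper84.MT Pool.Agent.Helper81.AD Pool.Agent.Helper36.AM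
open Pool.Agent.Helper95.RIG Pool.Agent.Helper5.DO Pool.Agent.Helper13.AM Pool.Agent.Helper40.EL

noncomputable section

variable {S : Sp}

/-- charts of exact leaves -/
structure Cht (S : Sp) (m : ℕ) where
  e : ℕ
  Y : Fin e → QS S
  Φ : Fin m → MvPolynomial (Fin e) (QS S)

/-- CURVE TYPE: over `W` the coordinate `0` is real and the coordinate `1` is a polynomial of degree less than `k` of it;
the windows of the type `i` are known to `W` and the digits of the coordinate `0` -/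
def CvT {m g r : ℕ} (k : ℕ) (s : MSys S (m + 2) (lin g) (Fin r)) (i : Fin r) : Prop :=
  ∃ (W : S.L) (a : ℕ → QS S), (∀ b : ℝ, 0 ≤ b → b ≤ 1 → PLe ((s.lf i).win b) (rp (W ⊔ dg (QS.mk (TR.cor s.Q 0)) b)) ∧
      PLe (rp (W ⊔ dg (QS.mk (TR.cor s.Q 0)) b)) ((s.lf i).win b)) ∧
    h (dg (QS.mk (TR.cor s.Q 0)) 1) W = 1 ∧ (∀ l, dg (a l) 1 ≤ W) ∧
    QS.mk (TR.cor s.Q 1) = ∑ l ∈ range k, a l * QS.mk (TR.cor s.Q 0) ^ l

/-- a system of two leaves with given charts -/
theorem exists_sys2 {m : ℕ} {α : ℕ → Type} {V : ∀ k, (S.F k).Ω → α k} (hV : Bdd V) (Q : Fin m → QS S) {A₁ A₂ : S.L}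
    (h1 : io V ≤ A₁) (h2 : io V ≤ A₂) (D₁ D₂ : Cht S m) (hY1 : QS.Rl D₁.Y A₁) (hY2 : QS.Rl D₂.Y A₂)
    (hP1 : ∀ j, D₁.Φ j ∈ QS.PK A₁) (hP2 : ∀ j, D₂.Φ j ∈ QS.PK A₂) (hQ1 : ∀ j, Q j = MvPolynomial.eval D₁.Y (D₁.Φ j))
    (hQ2 : ∀ j, Q j = MvPolynomial.eval D₂.Y (D₂.Φ j)) : ∃ (g : ℕ) (s : MSys (ov V) m (lin g) (Fin 2)),
      (∀ j, QS.mk (TR.cor s.Q j) = oq V (Q j)) ∧
      (∀ c : ℝ, c ≤ 1 → PLe ((s.lf 0).win c) (rp (oL V (A₁ ⊔ QS.vd D₁.Y c))) ∧
        PLe (rp (oL V (A₁ ⊔ QS.vd D₁.Y c))) ((s.lf 0).win c)) ∧ PLe ((s.lf 1).win 0) (rp (oL V A₂)) := by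
  obtain ⟨D, hD⟩ : ∃ D : Fin 2 → Cht S m, D = ![D₁, D₂] := ⟨_, rfl⟩
  obtain ⟨A, hA⟩ : ∃ A : Fin 2 → S.L, A = ![A₁, A₂] := ⟨_, rfl⟩
  have d0 : D 0 = D₁ := by rw [hD]; rfl
  have d1 : D 1 = D₂ := by rw [hD]; rfl
  have a0 : A 0 = A₁ := by rw [hA]; rfl
  have a1 : A 1 = A₂ := by rw [hA]; rfl
  have f2 : ∀ P : Fin 2 → Prop, P 0 → P 1 → ∀ i, P i := by
    intro P p0 p1 i
    fin_cases i
    · exact p0
    · exact p1
  set g : ℕ := 1 + ∑ i : Fin 2, ((D i).e + univ.sup fun j => ((D i).Φ j).totalDegree) with hg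
  have hs : ∀ i, (D i).e + (univ.sup fun j => ((D i).Φ j).totalDegree) ≤ g := fun i => by
    have := Finset.single_le_sum (f := fun i : Fin 2 => (D i).e + univ.sup fun j => ((D i).Φ j).totalDegree)
      (fun _ _ => Nat.zero_le _) (mem_univ i)
    beta_reduce at this
    omega
  obtain ⟨s, hq, hw⟩ := exists_sys' hV Q (A := A) (f2 _ (by rw [a0]; exact h1) (by rw [a1]; exact h2))
    (e := fun i => (D i).e) (fun i => (D i).Y) (fun i => (D i).Φ)
    (f2 _ (by rw [a0, d0]; exact hY1) (by rw [a1, d1]; exact hY2))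
    (f2 _ (by rw [a0, d0]; exact hP1) (by rw [a1, d1]; exact hP2))
    (f2 _ (by rw [d0]; exact hQ1) (by rw [d1]; exact hQ2)) (g := g) (by omega)
    (fun i => (Nat.le_add_right _ _).trans (hs i))
    (fun i j => ((Finset.le_sup (f := fun j => ((D i).Φ j).totalDegree) (mem_univ j)).trans
      (Nat.le_add_left _ _)).trans (hs i))
  refine ⟨g, s, hq, fun c hc => ?_, ?_⟩
  · have h3 := (hw 0).2 c hc
    rw [a0, d0] at h3
    exact h3
  · have h3 := (hw 1).2 0 zero_le_one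
    have h4 : QS.vd (D 1).Y 0 ≤ A 1 := by
      unfold QS.vd
      apply Finset.sup_le
      intro a _
      rw [QS.dg_nonpos _ le_rfl]
      exact bot_le
    rw [sup_eq_left.mpr h4, a1] at h3
    exact h3.1

theorem vd_one (f : Fin 1 → QS S) (r : ℝ) : QS.vd f r = dg (f 0) r := by
  apply le_antisymm
  · rw [vd_le]
    intro i
    rw [Subsingleton.elim i 0]
  · exact dg_le_vd f r 0

/-- curve types of systems over a base variable -/
theorem cvt_of {α : ℕ → Type} {V : ∀ k, (S.F k).Ω → α k} (hV : Bdd V) {A : S.L} (hA : io V ≤ A) {m g r : ℕ}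
    (s : MSys (ov V) (m + 2) (lin g) (Fin r)) (i : Fin r) {t : QS S} (e0 : QS.mk (TR.cor s.Q 0) = oq V t)
    (hw : ∀ b : ℝ, b ≤ 1 → PLe ((s.lf i).win b) (rp (oL V (A ⊔ dg t b))) ∧ PLe (rp (oL V (A ⊔ dg t b))) ((s.lf i).win b))
    (ht : h (dg t 1) A = 1) (a : ℕ → QS S) (ha : ∀ l, dg (a l) 1 ≤ A) {k : ℕ}
    (e1 : QS.mk (TR.cor s.Q 1) = oq V (∑ l ∈ range k, a l * t ^ l)) : CvT k s i := by
  refine ⟨oL V A, fun l => oq V (a l), fun b _ hb => ?_, ?_, fun l => ?_, ?_⟩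
  · rw [e0, oq_dg, ← oL_sup]
    exact hw b hb
  · rw [e0, oq_dg, oL_h' hV _ hA, ht]
  · rw [oq_dg]
    exact oL_mono V (ha l)
  · rw [e1, e0, map_sum]
    exact Finset.sum_congr rfl fun l _ => by rw [map_mul, map_pow]

/-- the chart of the curve of type `i` over the height -/
def crv {M r : ℕ} (c : CD S 0 (M + 1) r) (i : Fin r) : Fin (M + 2) → MvPolynomial (Fin 1) (QS S) :=
  Fin.cons (MvPolynomial.X 0) fun j => ∑ a : Fin (c.g + 1), MvPolynomial.monomial (Finsupp.single 0 (a : ℕ)) (c.cf i j a)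

theorem crv_eval {M r : ℕ} {c : CD S 0 (M + 1) r} (hc : c.Ln) (i : Fin r) (j : Fin (M + 2)) :
    (Fin.cons (c.q 0) c.R : Fin (M + 2) → QS S) j = MvPolynomial.eval (fun _ : Fin 1 => c.q 0) (crv c i j) := by
  unfold crv
  induction j using Fin.cases with
  | zero => rw [Fin.cons_zero, Fin.cons_zero, MvPolynomial.eval_X]
  | succ j =>
    rw [Fin.cons_succ, Fin.cons_succ, map_sum, hc.curve i j]
    unfold pe
    apply Finset.sum_congr rfl
    intro a _
    rw [MvPolynomial.eval_monomial]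
    simp

theorem crv_mem {M r : ℕ} {c : CD S 0 (M + 1) r} {i : Fin r} {A : S.L} (h : ∀ j a, dg (c.cf i j a) 1 ≤ A)
    (j : Fin (M + 2)) : crv c i j ∈ QS.PK A := by
  unfold crv
  induction j using Fin.cases with
  | zero => rw [Fin.cons_zero]; exact X_mem A 0
  | succ j =>
    rw [Fin.cons_succ]
    apply Subring.sum_mem
    intro a _
    exact monomial_mem _ (h j a)

theorem cf_le_xi {d N r : ℕ} (c : CD S d N r) (w : Fin N → ℝ) (z : Fin N) (i : Fin r) (j : Fin N) (a : Fin (c.g + 1)) :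
    dg (c.cf i j a) 1 ≤ (c.toCor w z).xi i := by
  have h1 : (c.toCor w z).f i (finProdFinEquiv (j, a)) = c.cf i j a := by
    show c.cv i (finProdFinEquiv.symm (finProdFinEquiv (j, a))) = _
    rw [Equiv.symm_apply_apply]
    rfl
  rw [← h1]
  exact (dg_le_vd ((c.toCor w z).f i) 1 _).trans le_sup_right

/-- **(Y) FOR THE PROLONGED CORNERS** from the structure theorem for a class which contains the systems with a curve
type along which the coordinate `1` is a polynomial of degree at most `K - 2` of the coordinate `0` -/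
theorem yy_til {M r : ℕ} {w : Fin (M + 1) → ℝ} {z l : Fin (M + 1)} {K : ℕ} {ρ : ℝ}
    {C : ∀ S : Sp, CD S 0 (M + 1) r → S.L → Prop} (h0 : Cls0 (M + 1) r w z l K ρ C) (hlt : ∀ k, k < M + 2 → ST k)
    (hd : DGR (M + 2)) {Cl : MCl (M + 2)} (hs : STO (M + 2) Cl)
    (hmem : ∀ (S : Sp) (g : ℕ) (s : MSys S (M + 2) (lin g) (Fin 2)), CvT (K - 1) s 0 → Cl S g 2 s) :
    YY w z (TilC w z l K C) := by
  rintro S _ ⟨c, O, i0, al, bV, hc, hX, hL, rfl⟩ i ε hε
  have hx0 : (til c l K i0 al bV).Ax w z (ρ + 1 / w z) :=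
    (cls_til h0).ax S _ ⟨c, O, i0, al, bV, hc, hX, hL, rfl⟩
  have hx := hx0.toCor
  have hJ := h0.j1 S c O hc
  have hK1 : 1 ≤ K := by
    have := hJ.hK
    omega
  have hz : 0 < w z := zero_lt_one.trans (hx0.w1 z)
  have z0 : 0 ≤ 1 / w z := by positivity
  have z1 : w z * (1 / w z) = 1 := mul_one_div_cancel hz.ne'
  have hsh := shear_til hL hK1 i0 w z i
  have hO : (til c l K i0 al bV).P ⊔ (til c l K i0 al bV).K (1 / w z) ≤ ((til c l K i0 al bV).toCor w z).O := by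
    refine sup_le hx.hP ?_
    have h2 := hx0.bx.pt (1 / w z) z0 z1.le
    rwa [z1] at h2
  obtain ⟨T, p, A', h1, h2, h3⟩ := exists_leafA hx (V := (til c l K i0 al bV).P ⊔ (til c l K i0 al bV).K (1 / w z))
    le_sup_left hO (hx0.boxleaf z0 z1) i hε
  refine fibT_of_shear hx i hsh ⟨T, p, A', h1, h2 _, ?_⟩
  have hV' : Bdd (S := T) (fun k ω => bV i k (p.π k ω)) := (p.bdd_iff _).mpr (hx.bdd i)
  have hio : io (S := T) (fun k ω => bV i k (p.π k ω)) = p.map (((til c l K i0 al bV).toCor w z).b i) :=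
    (p.map_io _).symm
  have hbA : p.map (((til c l K i0 al bV).toCor w z).b i) ≤ A' := (p.map_mono le_sup_right).trans h1
  obtain ⟨e2, Y2, Φ2, hY2, hΦ2, hQ2⟩ := PLeaf.shear p hsh hbA h3
  have hLn := (h0.ax S c O hc).ln
  have ht : h (dg (c.q 0) 1) (((til c l K i0 al bV).toCor w z).xi i) = 1 := (hx.curve i).1
  have hcf : ∀ j a, dg (c.cf i j a) 1 ≤ ((til c l K i0 al bV).toCor w z).xi i := cf_le_xi (til c l K i0 al bV) w z i
  have hpx : p.map (((til c l K i0 al bV).toCor w z).b i) ≤ p.map (((til c l K i0 al bV).toCor w z).xi i) :=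
    p.map_mono (le_xi i)
  obtain ⟨g, s, hq, hw0, hw1⟩ := exists_sys2 hV' (fun j => p.qs (tS ((til c l K i0 al bV).toCor w z) (shT c l K i) j))
    (A₁ := p.map (((til c l K i0 al bV).toCor w z).xi i)) (A₂ := A') (by rw [hio]; exact hpx) (by rw [hio]; exact hbA)
    ⟨1, fun _ => p.qs (c.q 0), fun j => MvPolynomial.map p.qs (MvPolynomial.bind₁ (crv c i) (shT c l K i j))⟩
    ⟨e2, Y2, Φ2⟩
    (by
      show h (QS.vd (fun _ : Fin 1 => p.qs (c.q 0)) 1) _ = _
      rw [vd_one, p.qs_dg, p.h_map, ht]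
      simp)
    hY2 (fun j => QS.map_PK p (bind_PK _ (crv_mem hcf) (QS.PK_mono (le_xi i) (hsh.mem j)))) hΦ2
    (fun j => by
      show p.qs (MvPolynomial.eval _ (shT c l K i j)) = MvPolynomial.eval _ (MvPolynomial.map p.qs _)
      rw [← QS.qs_eval, eval_bind]
      congr 2
      exact congrArg MvPolynomial.eval (funext fun a => crv_eval hLn i a)) hQ2
  refine fibSys_of_sto hlt hd hs s hq ?_ hw1 (hmem _ g s ?_)
  · have h4 := (hw0 0 zero_le_one).1
    have h5 : QS.vd (fun _ : Fin 1 => p.qs (c.q 0)) 0 ≤ p.map (((til c l K i0 al bV).toCor w z).xi i) := by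
      rw [vd_one, QS.dg_nonpos _ le_rfl]
      exact bot_le
    rwa [sup_eq_left.mpr h5] at h4
  · have hxi : ∀ m, dg ((py (c.cf i l)).coeff m) 1 ≤ ((til c l K i0 al bV).toCor w z).xi i := by
      intro m
      rw [py_coeff]
      split_ifs
      · exact hcf l _
      · exact (Kn S 1 le_rfl _).zero_mem
    refine cvt_of hV' (A := p.map (((til c l K i0 al bV).toCor w z).xi i)) (by rw [hio]; exact hpx) s 0
      (t := p.qs (c.q 0)) ?_ (fun b hb => ?_) (by rw [p.qs_dg, p.h_map, ht])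
      (fun m => p.qs ((py (c.cf i l)).coeff m)) (fun m => by rw [p.qs_dg]; exact p.map_mono (hxi m)) ?_
    · rw [hq 0]
      congr 2
      show MvPolynomial.eval _ (shT c l K i 0) = _
      unfold shT
      rw [Fin.cons_zero, MvPolynomial.eval_X]
      rfl
    · have h4 := hw0 b hb
      beta_reduce at h4
      rw [vd_one] at h4
      exact h4
    · rw [hq 1]
      congr 1
      have e2 : tS ((til c l K i0 al bV).toCor w z) (shT c l K i) 1 =
          ∑ m ∈ range (K - 1), (py (c.cf i l)).coeff m * c.q 0 ^ m :=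
        tS_one hJ hLn i _ rfl (fun j => Fin.cons_succ _ _ _)
      rw [e2, map_sum]
      exact Finset.sum_congr rfl fun m _ => by rw [map_mul, map_pow]

end

end Pool.Agent.Helper56.STL
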